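import Mathlib

/-!
# Convolution of continuous functions on the circle
-/

set_option autoImplicit false
set_option linter.unusedSectionVars false
set_option linter.unusedVariables false

open MeasureTheory AddCircle Complex Set
open scoped ComplexConjugate

noncomputable section

namespace Pool.Agent.MP_1d9d5b_an

variable {T : ℝ} [hT : Fact (0 < T)]
variable {E : Type*} [NormedAddCommGroup E]

lemma ci {f : AddCircle T → E} (hf : Continuous f) : Integrable f (haarAddCircle (T := T)) :=
  hf.integrable_of_hasCompactSupport (HasCompactSupport.of_compactSpace f)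

lemma ci2 {f : AddCircle T × AddCircle T → E} (hf : Continuous f) :
    Integrable f ((haarAddCircle (T := T)).prod haarAddCircle) :=
  hf.integrable_of_hasCompactSupport (HasCompactSupport.of_compactSpace f)

variable [NormedSpace ℝ E]

lemma swap2 {F : AddCircle T → AddCircle T → E} (hF : Continuous (Function.uncurry F)) :
    ∫ x, ∫ y, F x y ∂haarAddCircle ∂haarAddCircle
      = ∫ y, ∫ x, F x y ∂haarAddCircle ∂haarAddCircle :=
  integral_integral_swap (ci2 hF)

lemma cont_param {F : AddCircle T → AddCircle T → E} (hF : Continuous (Function.uncurry F)) :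
    Continuous (fun x => ∫ y, F x y ∂haarAddCircle) := by
  have := continuous_parametric_integral_of_continuous (μ := haarAddCircle (T := T)) hF
    (s := univ) isCompact_univ
  simpa using this

/-- Translation and reflection invariance. -/
lemma int_sub_left (f : AddCircle T → E) (x : AddCircle T) :
    ∫ t, f (x - t) ∂haarAddCircle = ∫ t, f t ∂haarAddCircle :=
  integral_sub_left_eq_self f haarAddCircle x

lemma int_sub_right (f : AddCircle T → E) (x : AddCircle T) :
    ∫ t, f (t - x) ∂haarAddCircle = ∫ t, f t ∂haarAddCircle :=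
  integral_sub_right_eq_self f x

/-- Convolution of a real kernel with an `E`-valued function. -/
def cv (k : AddCircle T → ℝ) (f : AddCircle T → E) (x : AddCircle T) : E :=
  ∫ t, k t • f (x - t) ∂haarAddCircle

section basic

variable {k l : AddCircle T → ℝ} {f g : AddCircle T → E}

lemma cv_cont (hk : Continuous k) (hf : Continuous f) : Continuous (cv k f) := by
  refine cont_param (F := fun x t => k t • f (x - t)) ?_
  have h1 : Continuous (fun p : AddCircle T × AddCircle T => k p.2) := hk.comp continuous_snd
  have h2 : Continuous (fun p : AddCircle T × AddCircle T => f (p.1 - p.2)) :=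
    hf.comp (continuous_fst.sub continuous_snd)
  exact h1.smul h2

lemma cv_int (hk : Continuous k) (hf : Continuous f) (x : AddCircle T) :
    Integrable (fun t => k t • f (x - t)) (haarAddCircle (T := T)) :=
  ci (hk.smul (hf.comp (continuous_const.sub continuous_id)))

lemma cv_add (hk : Continuous k) (hf : Continuous f) (hg : Continuous g) :
    cv k (fun x => f x + g x) = fun x => cv k f x + cv k g x := by
  ext x
  unfold cv
  rw [← integral_add (cv_int hk hf x) (cv_int hk hg x)]
  simp only [smul_add]

lemma cv_sub (hk : Continuous k) (hf : Continuous f) (hg : Continuous g) :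
    cv k (fun x => f x - g x) = fun x => cv k f x - cv k g x := by
  ext x
  unfold cv
  rw [← integral_sub (cv_int hk hf x) (cv_int hk hg x)]
  simp only [smul_sub]

lemma cv_smul (c : ℝ) : cv k (fun x => c • f x) = fun x => c • cv k f x := by
  ext x
  unfold cv
  rw [← integral_smul]
  congr 1
  ext t
  rw [smul_comm]

lemma cv_const [CompleteSpace E] (c : E) :
    cv k (fun _ => c) = fun _ => (∫ t, k t ∂haarAddCircle) • c := by
  ext x
  unfold cv
  rw [integral_smul_const]

lemma cv_zero_fun : cv k (fun _ => (0 : E)) = fun _ => 0 := by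
  ext x
  unfold cv
  simp

/-- other form of the convolution. -/
lemma cv_eq (k : AddCircle T → ℝ) (f : AddCircle T → E) (x : AddCircle T) :
    cv k f x = ∫ t, k (x - t) • f t ∂haarAddCircle := by
  unfold cv
  rw [← int_sub_left _ x]
  simp

lemma integral_cv [CompleteSpace E] (hk : Continuous k) (hf : Continuous f) :
    ∫ x, cv k f x ∂haarAddCircle = (∫ t, k t ∂haarAddCircle) • ∫ t, f t ∂haarAddCircle := by
  unfold cv
  rw [swap2 (F := fun x t => k t • f (x - t))]
  · have : ∀ t : AddCircle T, ∫ x, k t • f (x - t) ∂haarAddCircle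
        = k t • ∫ x, f x ∂haarAddCircle := by
      intro t
      rw [integral_smul, int_sub_right]
    simp_rw [this]
    rw [integral_smul_const]
  · have h1 : Continuous (fun p : AddCircle T × AddCircle T => k p.2) := hk.comp continuous_snd
    have h2 : Continuous (fun p : AddCircle T × AddCircle T => f (p.1 - p.2)) :=
      hf.comp (continuous_fst.sub continuous_snd)
    exact h1.smul h2

lemma cv_assoc [CompleteSpace E] (hk : Continuous k) (hl : Continuous l) (hf : Continuous f) :
    cv k (cv l f) = cv (cv k l) f := by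
  ext x
  have e1 : cv (cv k l) f x
      = ∫ t, ∫ s, (k s * l (t - s)) • f (x - t) ∂haarAddCircle ∂haarAddCircle := by
    unfold cv
    congr 1
    ext t
    rw [← integral_smul_const]
    simp only [smul_eq_mul]
  rw [e1, swap2 (F := fun t s => (k s * l (t - s)) • f (x - t))]
  · unfold cv
    congr 1
    ext s
    have : ∀ t : AddCircle T, (k s * l (t - s)) • f (x - t) = k s • (l (t - s) • f (x - t)) := by
      intro t; rw [mul_smul]
    simp_rw [this]
    rw [integral_smul]
    congr 1
    rw [← int_sub_right (fun t => l t • f (x - s - t)) s]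
    congr 1
    ext t
    congr 2
    abel
  · have h1 : Continuous (fun p : AddCircle T × AddCircle T => k p.2) := hk.comp continuous_snd
    have h2 : Continuous (fun p : AddCircle T × AddCircle T => l (p.1 - p.2)) :=
      hl.comp (continuous_fst.sub continuous_snd)
    have h3 : Continuous (fun p : AddCircle T × AddCircle T => f (x - p.1)) :=
      hf.comp (continuous_const.sub continuous_fst)
    exact (h1.mul h2).smul h3

lemma cv_comm_fun (k l : AddCircle T → ℝ) : cv k l = cv l k := by
  ext x
  rw [cv_eq]
  unfold cv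
  congr 1
  ext t
  simp only [smul_eq_mul]
  ring

lemma cv_comm [CompleteSpace E] (hk : Continuous k) (hl : Continuous l) (hf : Continuous f) :
    cv k (cv l f) = cv l (cv k f) := by
  rw [cv_assoc hk hl hf, cv_assoc hl hk hf, cv_comm_fun]

lemma norm_cv_le (hk : Continuous k) (hf : Continuous f) (x : AddCircle T) :
    ‖cv k f x‖ ≤ cv (fun t => |k t|) (fun t => ‖f t‖) x := by
  unfold cv
  refine (norm_integral_le_integral_norm _).trans_eq ?_
  congr 1
  ext t
  rw [norm_smul]
  rfl

end basic

section order

variable {k l : AddCircle T → ℝ} {f g : AddCircle T → ℝ}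

lemma cv_mono (hk : Continuous k) (hf : Continuous f) (hg : Continuous g) (h0 : ∀ t, 0 ≤ k t)
    (h : ∀ t, f t ≤ g t) (x : AddCircle T) : cv k f x ≤ cv k g x := by
  unfold cv
  refine integral_mono (cv_int hk hf x) (cv_int hk hg x) fun t => ?_
  exact mul_le_mul_of_nonneg_left (h _) (h0 _)

lemma cv_mono_ker (hk : Continuous k) (hl : Continuous l) (hf : Continuous f) (h0 : ∀ t, 0 ≤ f t)
    (h : ∀ t, k t ≤ l t) (x : AddCircle T) : cv k f x ≤ cv l f x := by
  unfold cv
  refine integral_mono (cv_int hk hf x) (cv_int hl hf x) fun t => ?_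
  exact mul_le_mul_of_nonneg_right (h _) (h0 _)

lemma cv_nonneg (h0 : ∀ t, 0 ≤ k t) (h : ∀ t, 0 ≤ f t) (x : AddCircle T) : 0 ≤ cv k f x := by
  unfold cv
  exact integral_nonneg fun t => mul_nonneg (h0 _) (h _)

lemma cv_smul_ker (c : ℝ) (k : AddCircle T → ℝ) (f : AddCircle T → ℝ) :
    cv (fun t => c * k t) f = fun x => c * cv k f x := by
  ext x
  unfold cv
  rw [← integral_const_mul]
  congr 1
  ext t
  simp only [smul_eq_mul]
  ring

lemma cv_mul_const (c : ℝ) (k : AddCircle T → ℝ) (f : AddCircle T → ℝ) :
    cv k (fun t => c * f t) = fun x => c * cv k f x := by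
  ext x
  unfold cv
  rw [← integral_const_mul]
  congr 1
  ext t
  simp only [smul_eq_mul]
  ring

lemma cv_congr_fun {f g : AddCircle T → E} (h : ∀ t, f t = g t) : cv k f = cv k g := by
  have : f = g := funext h
  rw [this]

/-- Adjoint for even kernels. -/
lemma integral_cv_mul (hk : Continuous k) (hf : Continuous f) (hg : Continuous g)
    (hev : ∀ t, k (-t) = k t) :
    ∫ x, cv k f x * g x ∂haarAddCircle = ∫ x, f x * cv k g x ∂haarAddCircle := by
  have e1 : ∀ x : AddCircle T, cv k f x * g x
      = ∫ t, k (x - t) * f t * g x ∂haarAddCircle := by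
    intro x
    rw [cv_eq, integral_mul_const]
    simp only [smul_eq_mul]
  have e2 : ∀ x : AddCircle T, f x * cv k g x
      = ∫ t, k (t - x) * f x * g t ∂haarAddCircle := by
    intro x
    rw [cv_eq, ← integral_const_mul]
    congr 1
    ext t
    rw [show t - x = -(x - t) by abel, hev]
    simp only [smul_eq_mul]
    ring
  simp_rw [e1, e2]
  rw [swap2 (F := fun x t => k (x - t) * f t * g x)]
  have h1 : Continuous (fun p : AddCircle T × AddCircle T => k (p.1 - p.2)) :=
    hk.comp (continuous_fst.sub continuous_snd)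
  have h2 : Continuous (fun p : AddCircle T × AddCircle T => f p.2) := hf.comp continuous_snd
  have h3 : Continuous (fun p : AddCircle T × AddCircle T => g p.1) := hg.comp continuous_fst
  exact (h1.mul h2).mul h3

end order

/-- Weighted Cauchy-Schwarz: `(∫ k |F|)^2 ≤ (∫ k a) (∫ k |F|^2 / a)`. -/
lemma cs_weight {k a F : AddCircle T → ℝ} (hk : Continuous k) (ha : Continuous a)
    (hF : Continuous F) (hk0 : ∀ t, 0 ≤ k t) (ha0 : ∀ t, 0 < a t) :
    (∫ t, k t * F t ∂haarAddCircle) ^ 2
      ≤ (∫ t, k t * a t ∂haarAddCircle) * ∫ t, k t * (F t ^ 2 / a t) ∂haarAddCircle := by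
  set A := ∫ t, k t * a t ∂haarAddCircle with hA
  set B := ∫ t, k t * F t ∂haarAddCircle with hB
  set C := ∫ t, k t * (F t ^ 2 / a t) ∂haarAddCircle with hC
  have hia : Integrable (fun t => k t * a t) (haarAddCircle (T := T)) := ci (hk.mul ha)
  have hiF : Integrable (fun t => k t * F t) (haarAddCircle (T := T)) := ci (hk.mul hF)
  have hiC : Integrable (fun t => k t * (F t ^ 2 / a t)) (haarAddCircle (T := T)) :=
    ci (hk.mul ((hF.pow 2).div ha (fun t => (ha0 t).ne')))
  have key : ∀ x : ℝ, 0 ≤ A * (x * x) + (-2 * B) * x + C := by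
    intro x
    have : A * (x * x) + (-2 * B) * x + C
        = ∫ t, k t * (x * a t - F t) ^ 2 / a t ∂haarAddCircle := by
      have h1 : ∀ t, k t * (x * a t - F t) ^ 2 / a t
          = (x * x) * (k t * a t) + (-2 * x) * (k t * F t) + k t * (F t ^ 2 / a t) := by
        intro t
        have := (ha0 t).ne'
        field_simp
        ring
      simp_rw [h1]
      rw [integral_add, integral_add, integral_const_mul, integral_const_mul]
      · ring
      · exact hia.const_mul _
      · exact hiF.const_mul _
      · exact (hia.const_mul _).add (hiF.const_mul _)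
      · exact hiC
    rw [this]
    refine integral_nonneg fun t => ?_
    exact div_nonneg (mul_nonneg (hk0 t) (sq_nonneg _)) (ha0 t).le
  have hd := discrim_le_zero key
  rw [discrim] at hd
  nlinarith

/-- Jensen with weights for the convolution. -/
lemma cv_jensen_weight [CompleteSpace E] {k a : AddCircle T → ℝ} {F : AddCircle T → E}
    (hk : Continuous k)
    (ha : Continuous a) (hF : Continuous F) (hk0 : ∀ t, 0 ≤ k t) (ha0 : ∀ t, 0 < a t)
    (x : AddCircle T) :
    ‖cv k F x‖ ^ 2 ≤ cv k a x * cv k (fun t => ‖F t‖ ^ 2 / a t) x := by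
  have h1 : ‖cv k F x‖ ≤ ∫ t, k t * ‖F (x - t)‖ ∂haarAddCircle := by
    refine (norm_cv_le hk hF x).trans_eq ?_
    unfold cv
    congr 1
    ext t
    change |k t| * ‖F (x - t)‖ = _
    rw [abs_of_nonneg (hk0 t)]
  have h2 := cs_weight (k := k) (a := fun t => a (x - t)) (F := fun t => ‖F (x - t)‖) hk
    (ha.comp (continuous_const.sub continuous_id)) (hF.comp (continuous_const.sub continuous_id)).norm
    hk0 (fun t => ha0 _)
  calc ‖cv k F x‖ ^ 2 ≤ (∫ t, k t * ‖F (x - t)‖ ∂haarAddCircle) ^ 2 := by gcongr
    _ ≤ _ := h2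

/-- Jensen for the convolution. -/
lemma cv_jensen [CompleteSpace E] {k : AddCircle T → ℝ} {F : AddCircle T → E} (hk : Continuous k)
    (hF : Continuous F) (hk0 : ∀ t, 0 ≤ k t) (x : AddCircle T) :
    ‖cv k F x‖ ^ 2 ≤ (∫ t, k t ∂haarAddCircle) * cv k (fun t => ‖F t‖ ^ 2) x := by
  have := cv_jensen_weight hk (continuous_const (y := (1 : ℝ))) hF hk0 (fun _ => one_pos) x
  simpa [cv_const] using this

/-! ### Complex kernels and Fourier coefficients -/

/-- Convolution with a complex kernel. -/
def cvc (k f : AddCircle T → ℂ) (x : AddCircle T) : ℂ :=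
  ∫ t, k t * f (x - t) ∂haarAddCircle

lemma cvc_int {k f : AddCircle T → ℂ} (hk : Continuous k) (hf : Continuous f) (x : AddCircle T) :
    Integrable (fun t => k t * f (x - t)) (haarAddCircle (T := T)) :=
  ci (hk.mul (hf.comp (continuous_const.sub continuous_id)))

lemma cvc_cont {k f : AddCircle T → ℂ} (hk : Continuous k) (hf : Continuous f) :
    Continuous (cvc k f) := by
  refine cont_param (F := fun x t => k t * f (x - t)) ?_
  have h1 : Continuous (fun p : AddCircle T × AddCircle T => k p.2) := hk.comp continuous_snd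
  have h2 : Continuous (fun p : AddCircle T × AddCircle T => f (p.1 - p.2)) :=
    hf.comp (continuous_fst.sub continuous_snd)
  exact h1.mul h2

lemma cvc_ofReal (k : AddCircle T → ℝ) (f : AddCircle T → ℂ) :
    cvc (fun t => (k t : ℂ)) f = cv k f := by
  ext x
  unfold cv cvc
  congr 1

lemma cvc_comm (k f : AddCircle T → ℂ) : cvc k f = cvc f k := by
  ext x
  unfold cvc
  rw [← int_sub_left _ x]
  simp only [sub_sub_cancel]
  congr 1
  ext t
  ring

lemma norm_cvc_le {k f : AddCircle T → ℂ} (x : AddCircle T) :
    ‖cvc k f x‖ ≤ cv (fun t => ‖k t‖) (fun t => ‖f t‖) x := by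
  unfold cv cvc
  refine (norm_integral_le_integral_norm _).trans_eq ?_
  congr 1
  ext t
  rw [norm_mul]
  rfl

lemma cvc_sub_const {k f : AddCircle T → ℂ} (hk : Continuous k) (hf : Continuous f) (c : ℂ)
    (x : AddCircle T) :
    cvc k (fun t => f t - c) x = cvc k f x - (∫ t, k t ∂haarAddCircle) * c := by
  unfold cvc
  rw [← integral_mul_const, ← integral_sub (cvc_int hk hf x) ((ci hk).mul_const _)]
  congr 1
  ext t
  ring

lemma cvc_add_left {k l f : AddCircle T → ℂ} (hk : Continuous k) (hl : Continuous l)
    (hf : Continuous f) (x : AddCircle T) :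
    cvc (fun t => k t + l t) f x = cvc k f x + cvc l f x := by
  unfold cvc
  rw [← integral_add (cvc_int hk hf x) (cvc_int hl hf x)]
  congr 1
  ext t
  ring

lemma cvc_sub_left {k l f : AddCircle T → ℂ} (hk : Continuous k) (hl : Continuous l)
    (hf : Continuous f) (x : AddCircle T) :
    cvc (fun t => k t - l t) f x = cvc k f x - cvc l f x := by
  unfold cvc
  rw [← integral_sub (cvc_int hk hf x) (cvc_int hl hf x)]
  congr 1
  ext t
  ring

lemma cvc_add_right {k f g : AddCircle T → ℂ} (hk : Continuous k) (hf : Continuous f)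
    (hg : Continuous g) (x : AddCircle T) :
    cvc k (fun t => f t + g t) x = cvc k f x + cvc k g x := by
  unfold cvc
  rw [← integral_add (cvc_int hk hf x) (cvc_int hk hg x)]
  congr 1
  ext t
  ring

lemma cvc_sub_right {k f g : AddCircle T → ℂ} (hk : Continuous k) (hf : Continuous f)
    (hg : Continuous g) (x : AddCircle T) :
    cvc k (fun t => f t - g t) x = cvc k f x - cvc k g x := by
  unfold cvc
  rw [← integral_sub (cvc_int hk hf x) (cvc_int hk hg x)]
  congr 1
  ext t
  ring

lemma cvc_mul_left (c : ℂ) (k f : AddCircle T → ℂ) (x : AddCircle T) :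
    cvc (fun t => c * k t) f x = c * cvc k f x := by
  unfold cvc
  rw [← integral_const_mul]
  congr 1
  ext t
  ring

lemma cvc_mul_right (c : ℂ) (k f : AddCircle T → ℂ) (x : AddCircle T) :
    cvc k (fun t => c * f t) x = c * cvc k f x := by
  unfold cvc
  rw [← integral_const_mul]
  congr 1
  ext t
  ring

lemma cvc_sum_right {ι : Type*} (s : Finset ι) {k : AddCircle T → ℂ} {f : ι → AddCircle T → ℂ}
    (hk : Continuous k) (hf : ∀ i ∈ s, Continuous (f i)) (x : AddCircle T) :
    cvc k (fun t => ∑ i ∈ s, f i t) x = ∑ i ∈ s, cvc k (f i) x := by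
  unfold cvc
  rw [← integral_finsetSum]
  · congr 1
    ext t
    rw [Finset.mul_sum]
  · intro i hi
    exact cvc_int hk (hf i hi) x

lemma fourier_sub (n : ℤ) (x t : AddCircle T) :
    (fourier n (x - t) : ℂ) = fourier n x * fourier (-n) t := by
  rw [fourier_apply, fourier_apply, fourier_apply, smul_sub, sub_eq_add_neg, toCircle_add,
    Circle.coe_mul, neg_smul]

lemma cvc_fourier (k : AddCircle T → ℂ) (n : ℤ) (x : AddCircle T) :
    cvc k (fun t => fourier n t) x = fourierCoeff k n * fourier n x := by
  unfold cvc fourierCoeff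
  rw [← integral_mul_const]
  congr 1
  ext t
  change k t * (fourier n (x - t) : ℂ) = _
  rw [fourier_sub]
  simp only [smul_eq_mul]
  ring

lemma fourierCoeff_cvc {k f : AddCircle T → ℂ} (hk : Continuous k) (hf : Continuous f) (n : ℤ) :
    fourierCoeff (cvc k f) n = fourierCoeff k n * fourierCoeff f n := by
  unfold fourierCoeff cvc
  have e1 : ∀ x : AddCircle T, (fourier (-n) x : ℂ) • ∫ t, k t * f (x - t) ∂haarAddCircle
      = ∫ t, (fourier (-n) x : ℂ) * (k t * f (x - t)) ∂haarAddCircle := by
    intro x
    rw [integral_const_mul]; rfl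
  simp_rw [e1]
  rw [swap2 (F := fun x t => (fourier (-n) x : ℂ) * (k t * f (x - t)))]
  · have e2 : ∀ t : AddCircle T, ∫ x, (fourier (-n) x : ℂ) * (k t * f (x - t)) ∂haarAddCircle
        = (fourier (-n) t * k t) * ∫ x, (fourier (-n) x : ℂ) * f x ∂haarAddCircle := by
      intro t
      rw [← int_sub_right (fun x => (fourier (-n) x : ℂ) * f x) t, ← integral_const_mul]
      congr 1
      ext x
      rw [fourier_sub, neg_neg]
      have : (fourier (-n) t : ℂ) * fourier n t = 1 := by
        rw [← fourier_add]; simp
      linear_combination (-(fourier (-n) x : ℂ) * (k t * f (x - t))) * this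
    simp_rw [e2]
    rw [integral_mul_const]
    rfl
  · have h1 : Continuous (fun p : AddCircle T × AddCircle T => k p.2) := hk.comp continuous_snd
    have h2 : Continuous (fun p : AddCircle T × AddCircle T => f (p.1 - p.2)) :=
      hf.comp (continuous_fst.sub continuous_snd)
    have h3 : Continuous (fun p : AddCircle T × AddCircle T => (fourier (-n) p.1 : ℂ)) :=
      (fourier (-n)).continuous.comp continuous_fst
    exact h3.mul (h1.mul h2)

lemma fourierCoeff_mono (m n : ℤ) :
    fourierCoeff (fun t : AddCircle T => (fourier m t : ℂ)) n = if n = m then 1 else 0 := by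
  have := congrFun (fourierCoeff_fourier (T := T) m) n
  rw [Pi.single_apply] at this
  exact this

lemma fourierCoeff_sum' {ι : Type*} (s : Finset ι) {f : ι → AddCircle T → ℂ}
    (hf : ∀ i ∈ s, Continuous (f i)) (n : ℤ) :
    fourierCoeff (fun t => ∑ i ∈ s, f i t) n = ∑ i ∈ s, fourierCoeff (f i) n := by
  have := fourierCoeff.sum (T := T) s f (fun i hi => ci (hf i hi))
  have h2 : (fun t => ∑ i ∈ s, f i t) = ∑ i ∈ s, f i := by
    ext t; simp
  rw [h2, this]
  simp

lemma fourierCoeff_add' {f g : AddCircle T → ℂ} (hf : Continuous f) (hg : Continuous g) (n : ℤ) :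
    fourierCoeff (fun t => f t + g t) n = fourierCoeff f n + fourierCoeff g n := by
  have := congrFun (fourierCoeff.add (ci hf) (ci hg)) n
  exact this

lemma fourierCoeff_sub' {f g : AddCircle T → ℂ} (hf : Continuous f) (hg : Continuous g) (n : ℤ) :
    fourierCoeff (fun t => f t - g t) n = fourierCoeff f n - fourierCoeff g n := by
  have h1 : (fun t => f t - g t) = (fun t => f t + (-1 : ℂ) * g t) := by ext t; ring
  have hm : Continuous (fun t => (-1 : ℂ) * g t) := by fun_prop
  rw [h1, fourierCoeff_add' hf hm, fourierCoeff.const_mul]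
  ring

/-- Shift of Fourier coefficients. -/
lemma fourierCoeff_shift (f : AddCircle T → ℂ) (m n : ℤ) :
    fourierCoeff (fun t => fourier m t * f t) n = fourierCoeff f (n - m) := by
  unfold fourierCoeff
  congr 1
  ext t
  simp only [smul_eq_mul]
  rw [← mul_assoc, ← fourier_add]
  congr 3
  ring

lemma fourierCoeff_conj (f : AddCircle T → ℂ) (n : ℤ) :
    fourierCoeff (fun t => conj (f t)) n = conj (fourierCoeff f (-n)) := by
  unfold fourierCoeff
  rw [← integral_conj]
  congr 1
  ext t
  simp only [smul_eq_mul, map_mul, neg_neg]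
  rw [fourier_neg]

lemma int_fourier_mul (f : AddCircle T → ℂ) (n : ℤ) :
    ∫ t, fourier n t * f t ∂haarAddCircle = fourierCoeff f (-n) := by
  unfold fourierCoeff
  simp only [neg_neg, smul_eq_mul]

/-- Uniqueness for continuous functions with the same (summable) coefficients. -/
lemma eq_of_fourierCoeff {f g : AddCircle T → ℂ} (hf : Continuous f) (hg : Continuous g)
    (hs : Summable (fourierCoeff f)) (h : ∀ n, fourierCoeff f n = fourierCoeff g n) : f = g := by
  have hfg : fourierCoeff f = fourierCoeff g := funext h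
  ext x
  have h1 := has_pointwise_sum_fourier_series_of_summable (f := ⟨f, hf⟩) hs x
  have h2 := has_pointwise_sum_fourier_series_of_summable (f := ⟨g, hg⟩) (by
    have : Summable (fourierCoeff g) := hfg ▸ hs
    exact this) x
  simp only [ContinuousMap.coe_mk] at h1 h2
  rw [hfg] at h1
  exact h1.unique h2

end Pool.Agent.MP_1d9d5b_an
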