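import Mathlib
import Pool.Agent.Lib.MP_1d9d5b_an.Conv

/-!
# The Poisson kernel on the circle
-/

set_option autoImplicit false
set_option linter.unusedSectionVars false
set_option linter.unusedVariables false

open MeasureTheory AddCircle Complex Set
open scoped ComplexConjugate

noncomputable section

namespace Pool.Agent.MP_1d9d5b_an

variable {T : ℝ} [hT : Fact (0 < T)]

/-- Poisson kernel. -/
def P (r : ℝ) (t : AddCircle T) : ℝ := (1 - r ^ 2) / ‖1 - (r : ℂ) * fourier 1 t‖ ^ 2

lemma norm_fourier (n : ℤ) (t : AddCircle T) : ‖(fourier n t : ℂ)‖ = 1 := by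
  rw [fourier_apply]; exact Circle.norm_coe _

lemma fourier_pow (n : ℕ) (t : AddCircle T) : (fourier 1 t : ℂ) ^ n = fourier n t := by
  induction n with
  | zero => simp
  | succ n ih => rw [pow_succ, ih]; push_cast; rw [fourier_add]

lemma fourier_conj (n : ℤ) (t : AddCircle T) : conj (fourier n t : ℂ) = fourier (-n) t := by
  rw [fourier_neg]

lemma den_pos {r : ℝ} (h0 : 0 ≤ r) (h1 : r < 1) (t : AddCircle T) :
    0 < ‖1 - (r : ℂ) * fourier 1 t‖ := by
  have h := norm_sub_norm_le (1 : ℂ) ((r : ℂ) * fourier 1 t)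
  rw [norm_one, norm_mul, norm_fourier, Complex.norm_real, Real.norm_of_nonneg h0] at h
  linarith

lemma P_nonneg {r : ℝ} (h0 : 0 ≤ r) (h1 : r < 1) (t : AddCircle T) : 0 ≤ P r t := by
  unfold P
  apply div_nonneg _ (sq_nonneg _)
  nlinarith

lemma P_cont {r : ℝ} (h0 : 0 ≤ r) (h1 : r < 1) : Continuous (P (T := T) r) := by
  unfold P
  apply Continuous.div continuous_const
  · exact (continuous_const.sub (continuous_const.mul (fourier 1).continuous)).norm.pow 2
  · intro t
    have := den_pos h0 h1 t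
    positivity

lemma P_even (r : ℝ) (t : AddCircle T) : P r (-t) = P r t := by
  unfold P
  have : (1 : ℂ) - (r : ℂ) * fourier 1 (-t) = conj ((1 : ℂ) - (r : ℂ) * fourier 1 t) := by
    rw [map_sub, map_one, map_mul, fourier_conj, Complex.conj_ofReal]
    have : (fourier 1 (-t) : ℂ) = fourier (-1) t := by
      simp [fourier_apply]
    rw [this]
  rw [this, Complex.norm_conj]

lemma P_hasSum {r : ℝ} (h0 : 0 ≤ r) (h1 : r < 1) (t : AddCircle T) :
    HasSum (fun n : ℤ => (r : ℂ) ^ n.natAbs * fourier n t) (P r t : ℂ) := by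
  set z : ℂ := fourier 1 t with hz
  have hz1 : ‖z‖ = 1 := norm_fourier 1 t
  have hzc : z * conj z = 1 := by
    rw [Complex.mul_conj, Complex.normSq_eq_norm_sq, hz1]; norm_num
  have hr : ‖(r : ℂ) * z‖ < 1 := by
    rw [norm_mul, hz1, Complex.norm_real, Real.norm_of_nonneg h0]; linarith
  have hr' : ‖(r : ℂ) * conj z‖ < 1 := by
    rw [norm_mul, Complex.norm_conj, hz1, Complex.norm_real, Real.norm_of_nonneg h0]; linarith
  have s1 : HasSum (fun n : ℕ => (r : ℂ) ^ (n : ℤ).natAbs * fourier (n : ℤ) t) (1 - (r : ℂ) * z)⁻¹ := by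
    have := hasSum_geometric_of_norm_lt_one hr
    have e : (fun n : ℕ => (r : ℂ) ^ (n : ℤ).natAbs * fourier (n : ℤ) t)
        = fun n : ℕ => ((r : ℂ) * z) ^ n := by
      ext n
      rw [mul_pow, hz, fourier_pow, Int.natAbs_natCast]
    rw [e]
    exact this
  have s2 : HasSum (fun n : ℕ => (r : ℂ) ^ (-((n : ℤ) + 1)).natAbs * fourier (-((n : ℤ) + 1)) t)
      ((r : ℂ) * conj z * (1 - (r : ℂ) * conj z)⁻¹) := by
    have := (hasSum_geometric_of_norm_lt_one hr').mul_left ((r : ℂ) * conj z)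
    have e : (fun n : ℕ => (r : ℂ) ^ (-((n : ℤ) + 1)).natAbs * fourier (-((n : ℤ) + 1)) t)
        = fun n : ℕ => (r : ℂ) * conj z * ((r : ℂ) * conj z) ^ n := by
      ext n
      have e1 : (-((n : ℤ) + 1)).natAbs = n + 1 := by omega
      rw [e1, ← fourier_conj, fourier_add, ← fourier_pow, ← hz, map_mul, map_pow]
      ring
    rw [e]
    exact this
  have s3 := HasSum.of_nat_of_neg_add_one (f := fun n : ℤ => (r : ℂ) ^ n.natAbs * fourier n t) s1 s2
  convert s3 using 1
  have d1 : (1 : ℂ) - (r : ℂ) * z ≠ 0 := by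
    intro h
    have := den_pos h0 h1 t
    rw [← hz, h, norm_zero] at this
    exact lt_irrefl _ this
  have d2 : (1 : ℂ) - (r : ℂ) * conj z ≠ 0 := by
    intro h
    apply d1
    have := congrArg conj h
    simpa using this
  have e : ((‖1 - (r : ℂ) * z‖ ^ 2 : ℝ) : ℂ) = (1 - (r : ℂ) * z) * (1 - (r : ℂ) * conj z) := by
    rw [← Complex.normSq_eq_norm_sq, ← Complex.mul_conj]
    simp
  unfold P
  rw [Complex.ofReal_div, ← hz, e]
  field_simp
  push_cast
  linear_combination ((r : ℂ) ^ 2) * hzc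

lemma summable_pow_natAbs {r : ℝ} (h0 : 0 ≤ r) (h1 : r < 1) :
    Summable (fun n : ℤ => r ^ n.natAbs) := by
  apply Summable.of_nat_of_neg_add_one
  · simpa using summable_geometric_of_lt_one h0 h1
  · have : (fun n : ℕ => r ^ (-((n : ℤ) + 1)).natAbs) = fun n : ℕ => r ^ n * r := by
      ext n
      have e1 : (-((n : ℤ) + 1)).natAbs = n + 1 := by omega
      rw [e1, pow_succ]
    rw [this]
    exact (summable_geometric_of_lt_one h0 h1).mul_right r

lemma fourierCoeff_P {r : ℝ} (h0 : 0 ≤ r) (h1 : r < 1) (m : ℤ) :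
    fourierCoeff (fun t : AddCircle T => (P r t : ℂ)) m = (r : ℂ) ^ m.natAbs := by
  set F : ℤ → AddCircle T → ℂ := fun n t => fourier (-m) t * ((r : ℂ) ^ n.natAbs * fourier n t) with hF
  have hFc : ∀ n, Continuous (F n) := fun n => by
    have h1 := (fourier (T := T) (-m)).continuous
    have h2 := (fourier (T := T) n).continuous
    exact h1.mul (continuous_const.mul h2)
  have hint : ∀ n, Integrable (F n) (haarAddCircle (T := T)) := fun n => ci (hFc n)
  have hnorm : ∀ n t, ‖F n t‖ = r ^ n.natAbs := by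
    intro n t
    rw [hF]
    simp only
    rw [norm_mul, norm_mul, norm_fourier, norm_fourier, norm_pow, Complex.norm_real,
      Real.norm_of_nonneg h0]
    ring
  have hsum : Summable fun n => ∫ t, ‖F n t‖ ∂(haarAddCircle (T := T)) := by
    simp_rw [hnorm]
    simpa using summable_pow_natAbs h0 h1
  have hs := hasSum_integral_of_summable_integral_norm hint hsum
  have h2 : ∀ n, ∫ t, F n t ∂(haarAddCircle (T := T)) = if n = m then (r : ℂ) ^ m.natAbs else 0 := by
    intro n
    have : ∫ t, F n t ∂(haarAddCircle (T := T))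
        = fourierCoeff (fun t : AddCircle T => (r : ℂ) ^ n.natAbs * fourier n t) m := by
      unfold fourierCoeff
      rfl
    rw [this, fourierCoeff.const_mul, fourierCoeff_mono]
    by_cases h : n = m
    · simp [h]
    · rw [if_neg (Ne.symm h), if_neg h, mul_zero]
  simp_rw [h2] at hs
  have h3 := hasSum_ite_eq m ((r : ℂ) ^ m.natAbs)
  have h4 := hs.unique h3
  rw [← h4]
  unfold fourierCoeff
  congr 1
  ext t
  rw [tsum_mul_left, (P_hasSum h0 h1 t).tsum_eq]
  rfl

lemma int_P {r : ℝ} (h0 : 0 ≤ r) (h1 : r < 1) : ∫ t, P (T := T) r t ∂haarAddCircle = 1 := by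
  have h := fourierCoeff_P (T := T) h0 h1 0
  unfold fourierCoeff at h
  simp only [neg_zero, fourier_zero, smul_eq_mul, one_mul, Int.natAbs_zero, pow_zero] at h
  rw [integral_complex_ofReal] at h
  exact_mod_cast h

lemma P_conv {r s : ℝ} (h0 : 0 ≤ r) (h1 : r < 1) (h0' : 0 ≤ s) (h1' : s < 1) :
    cv (P (T := T) r) (P s) = P (r * s) := by
  have hrs0 : 0 ≤ r * s := mul_nonneg h0 h0'
  have hrs1 : r * s < 1 := by nlinarith
  have hc1 : Continuous (fun t : AddCircle T => (P r t : ℂ)) :=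
    Complex.continuous_ofReal.comp (P_cont h0 h1)
  have hc2 : Continuous (fun t : AddCircle T => (P s t : ℂ)) :=
    Complex.continuous_ofReal.comp (P_cont h0' h1')
  have hc3 : Continuous (fun t : AddCircle T => (P (r * s) t : ℂ)) :=
    Complex.continuous_ofReal.comp (P_cont hrs0 hrs1)
  have e : (fun t : AddCircle T => (P (r * s) t : ℂ))
      = cvc (fun t => (P r t : ℂ)) (fun t => (P s t : ℂ)) := by
    apply eq_of_fourierCoeff hc3 (cvc_cont hc1 hc2)
    · have : fourierCoeff (fun t : AddCircle T => (P (r * s) t : ℂ))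
          = fun m : ℤ => ((r * s : ℝ) : ℂ) ^ m.natAbs := by
        ext m; exact fourierCoeff_P hrs0 hrs1 m
      rw [this]
      have h := summable_pow_natAbs hrs0 hrs1
      have h2 := Complex.ofRealCLM.summable h
      convert h2 using 1
      ext m
      simp
    · intro n
      rw [fourierCoeff_cvc hc1 hc2, fourierCoeff_P h0 h1, fourierCoeff_P h0' h1',
        fourierCoeff_P hrs0 hrs1]
      push_cast
      rw [mul_pow]
  ext x
  have h := congrFun e x
  rw [cvc_ofReal] at h
  unfold cv at h ⊢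
  have h3 : ∫ t, P r t • ((P s (x - t) : ℝ) : ℂ) ∂(haarAddCircle (T := T))
      = ((∫ t, P r t • P s (x - t) ∂(haarAddCircle (T := T)) : ℝ) : ℂ) := by
    rw [← integral_complex_ofReal]
    congr 1
    ext t
    simp
  rw [h3] at h
  exact_mod_cast h.symm

section semigroup

variable {E : Type*} [NormedAddCommGroup E] [NormedSpace ℝ E] [CompleteSpace E]

lemma P_P {r s : ℝ} (h0 : 0 ≤ r) (h1 : r < 1) (h0' : 0 ≤ s) (h1' : s < 1)
    {f : AddCircle T → E} (hf : Continuous f) :
    cv (P r) (cv (P s) f) = cv (P (r * s)) f := by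
  rw [cv_assoc (P_cont h0 h1) (P_cont h0' h1') hf, P_conv h0 h1 h0' h1']

lemma cv_P_const {r : ℝ} (h0 : 0 ≤ r) (h1 : r < 1) (c : E) :
    cv (P (T := T) r) (fun _ => c) = fun _ => c := by
  rw [cv_const, int_P h0 h1]; simp

lemma integral_cv_P {r : ℝ} (h0 : 0 ≤ r) (h1 : r < 1) {f : AddCircle T → E} (hf : Continuous f) :
    ∫ x, cv (P r) f x ∂haarAddCircle = ∫ x, f x ∂haarAddCircle := by
  rw [integral_cv (P_cont h0 h1) hf, int_P h0 h1, one_smul]

lemma jensen_P {r : ℝ} (h0 : 0 ≤ r) (h1 : r < 1) {f : AddCircle T → E} (hf : Continuous f)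
    (x : AddCircle T) : ‖cv (P r) f x‖ ^ 2 ≤ cv (P r) (fun t => ‖f t‖ ^ 2) x := by
  have := cv_jensen (P_cont h0 h1) hf (P_nonneg h0 h1) x
  rwa [int_P h0 h1, one_mul] at this

end semigroup

end Pool.Agent.MP_1d9d5b_an
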