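import Mathlib
import Pool.Agent.Lib.MP_1d9d5b_an.Conv
import Pool.Agent.Lib.MP_1d9d5b_an.Poisson

/-!
# A Carleson embedding by a Bellman function argument
-/

set_option autoImplicit false
set_option linter.unusedSectionVars false
set_option linter.unusedVariables false

open MeasureTheory AddCircle Complex Set
open scoped ComplexConjugate

noncomputable section

namespace Pool.Agent.MP_1d9d5b_an

variable {T : ℝ} [hT : Fact (0 < T)]

/-- The Poisson kernel in the additive parametrisation `r = exp (-y)`. -/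
def Py (y : ℝ) : AddCircle T → ℝ := P (Real.exp (-y))

section Py

variable {y s : ℝ}

lemma exp_bd (hy : 0 < y) : 0 ≤ Real.exp (-y) ∧ Real.exp (-y) < 1 :=
  ⟨(Real.exp_pos _).le, by rw [Real.exp_lt_one_iff]; linarith⟩

lemma Py_cont (hy : 0 < y) : Continuous (Py (T := T) y) := P_cont (exp_bd hy).1 (exp_bd hy).2
lemma Py_nonneg (hy : 0 < y) (t : AddCircle T) : 0 ≤ Py y t := P_nonneg (exp_bd hy).1 (exp_bd hy).2 t
lemma Py_even (y : ℝ) (t : AddCircle T) : Py y (-t) = Py y t := P_even _ t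
lemma int_Py (hy : 0 < y) : ∫ t, Py (T := T) y t ∂haarAddCircle = 1 := int_P (exp_bd hy).1 (exp_bd hy).2

variable {E : Type*} [NormedAddCommGroup E] [NormedSpace ℝ E] [CompleteSpace E]

lemma Py_Py (hy : 0 < y) (hs : 0 < s) {f : AddCircle T → E} (hf : Continuous f) :
    cv (Py y) (cv (Py s) f) = cv (Py (y + s)) f := by
  unfold Py
  rw [P_P (exp_bd hy).1 (exp_bd hy).2 (exp_bd hs).1 (exp_bd hs).2 hf, ← Real.exp_add]
  congr 3
  ring

lemma cv_Py_const (hy : 0 < y) (c : E) : cv (Py (T := T) y) (fun _ => c) = fun _ => c :=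
  cv_P_const (exp_bd hy).1 (exp_bd hy).2 c

lemma integral_cv_Py (hy : 0 < y) {f : AddCircle T → E} (hf : Continuous f) :
    ∫ x, cv (Py y) f x ∂haarAddCircle = ∫ x, f x ∂haarAddCircle :=
  integral_cv_P (exp_bd hy).1 (exp_bd hy).2 hf

lemma jensen_Py (hy : 0 < y) {f : AddCircle T → E} (hf : Continuous f)
    (x : AddCircle T) : ‖cv (Py y) f x‖ ^ 2 ≤ cv (Py y) (fun t => ‖f t‖ ^ 2) x :=
  jensen_P (exp_bd hy).1 (exp_bd hy).2 hf x

lemma nsq_cont {f : AddCircle T → E} (hf : Continuous f) : Continuous (fun t => ‖f t‖ ^ 2) :=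
  hf.norm.pow 2

end Py

/-- `cv` commutes with real parts of multiples. -/
lemma cv_re {k : AddCircle T → ℝ} {f : AddCircle T → ℂ} (hk : Continuous k) (hf : Continuous f)
    (c : ℂ) (x : AddCircle T) :
    cv k (fun t => (c * f t).re) x = (c * cv k f x).re := by
  unfold cv
  have h1 : c * ∫ t, k t • f (x - t) ∂haarAddCircle
      = ∫ t, c * (k t • f (x - t)) ∂(haarAddCircle (T := T)) := by
    rw [integral_const_mul]
  rw [h1]
  have h2 := Complex.reCLM.integral_comp_comm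
    (φ := fun t => c * (k t • f (x - t))) (μ := haarAddCircle (T := T))
    ((cv_int hk hf x).const_mul c)
  simp only [Complex.reCLM_apply] at h2
  rw [← h2]
  congr 1
  ext t
  simp [Complex.mul_re]
  ring

/-- Variance identity. -/
lemma cv_variance {k : AddCircle T → ℝ} {f : AddCircle T → ℂ} (hk : Continuous k)
    (hf : Continuous f) (hk1 : ∫ t, k t ∂haarAddCircle = 1) (x : AddCircle T) :
    cv k (fun t => ‖f t - cv k f x‖ ^ 2) x
      = cv k (fun t => ‖f t‖ ^ 2) x - ‖cv k f x‖ ^ 2 := by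
  set b := cv k f x with hb
  have h1 : ∀ t, ‖f t - b‖ ^ 2 = (‖f t‖ ^ 2 - 2 * (conj b * f t).re) + ‖b‖ ^ 2 := by
    intro t
    rw [← Complex.normSq_eq_norm_sq, ← Complex.normSq_eq_norm_sq, ← Complex.normSq_eq_norm_sq,
      Complex.normSq_sub]
    have : (f t * conj b).re = (conj b * f t).re := by rw [mul_comm]
    rw [this]; ring
  have hc1 : Continuous (fun t => ‖f t‖ ^ 2) := nsq_cont hf
  have hc2 : Continuous (fun t => (conj b * f t).re) :=
    Complex.continuous_re.comp (continuous_const.mul hf)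
  have hc3 : Continuous (fun t => 2 * (conj b * f t).re) := continuous_const.mul hc2
  have h2 : (fun t => ‖f t - b‖ ^ 2) = fun t => (‖f t‖ ^ 2 - 2 * (conj b * f t).re) + ‖b‖ ^ 2 :=
    funext h1
  have hc4 : Continuous (fun t => ‖f t‖ ^ 2 - 2 * (conj b * f t).re) := hc1.sub hc3
  have hc5 : Continuous (fun _ : AddCircle T => ‖b‖ ^ 2) := continuous_const
  rw [h2, cv_add hk hc4 hc5, cv_sub hk hc1 hc3, cv_mul_const, cv_const]
  simp only
  rw [cv_re hk hf, ← hb, hk1]
  have : (conj b * b).re = ‖b‖ ^ 2 := by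
    rw [mul_comm, Complex.mul_conj, Complex.normSq_eq_norm_sq]; norm_cast
  rw [this]
  simp
  ring

section embedding

variable {φ : AddCircle T → ℂ}

/-- `u_y = P_y * φ`. -/
def uu (φ : AddCircle T → ℂ) (y : ℝ) : AddCircle T → ℂ := cv (Py y) φ

lemma uu_cont (hφ : Continuous φ) {y : ℝ} (hy : 0 < y) : Continuous (uu φ y) := cv_cont (Py_cont hy) hφ

lemma uu_le (hφ : Continuous φ) (h1 : ∀ t, ‖φ t‖ ≤ 1) {y : ℝ} (hy : 0 < y) (x : AddCircle T) :
    ‖uu φ y x‖ ≤ 1 := by
  have h := norm_cv_le (Py_cont hy) hφ x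
  have h2 : cv (fun t => |Py y t|) (fun t => ‖φ t‖) x ≤ cv (Py y) (fun _ => (1 : ℝ)) x := by
    have e : (fun t : AddCircle T => |Py y t|) = Py y := by
      ext t; exact abs_of_nonneg (Py_nonneg hy t)
    rw [e]
    exact cv_mono (Py_cont hy) hφ.norm continuous_const (Py_nonneg hy) h1 x
  rw [cv_Py_const hy] at h2
  exact h.trans h2

lemma uu_uu (hφ : Continuous φ) {y s : ℝ} (hy : 0 < y) (hs : 0 < s) :
    cv (Py s) (uu φ y) = uu φ (s + y) := by
  unfold uu
  exact Py_Py hs hy hφ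

lemma cv_le_one {y : ℝ} (hy : 0 < y) {g : AddCircle T → ℝ} (hg : Continuous g)
    (h1 : ∀ t, g t ≤ 1) (x : AddCircle T) : cv (Py y) g x ≤ 1 := by
  have h2 := cv_mono (Py_cont hy) hg continuous_const (Py_nonneg hy) h1 x
  rwa [cv_Py_const hy] at h2

/-- Pointwise bound (d). -/
lemma phit_sq_le (hφ : Continuous φ) {y : ℝ} (hy : 0 < y) {L : AddCircle T → ℂ}
    (hL : Continuous L) (hL0 : ∫ t, L t ∂haarAddCircle = 0) {C0 : ℝ} (hC0 : 0 ≤ C0)
    (hLP : ∀ t, ‖L t‖ ≤ C0 * Py (2 * y) t) (x : AddCircle T) :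
    ‖cvc L (uu φ y) x‖ ^ 2
      ≤ C0 ^ 2 * (cv (Py (2 * y)) (fun t => ‖uu φ y t‖ ^ 2) x - ‖uu φ (3 * y) x‖ ^ 2) := by
  have h2y : 0 < 2 * y := by linarith
  have huc := uu_cont hφ hy
  set b := uu φ (3 * y) x with hb
  have hbe : b = cv (Py (2 * y)) (uu φ y) x := by
    rw [uu_uu hφ hy h2y, hb]; congr 1; ring
  have h1 : cvc L (uu φ y) x = cvc L (fun t => uu φ y t - b) x := by
    rw [cvc_sub_const hL huc, hL0]; ring
  have hdc : Continuous (fun t => uu φ y t - b) := huc.sub continuous_const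
  have h2 : ‖cvc L (uu φ y) x‖ ≤ C0 * cv (Py (2 * y)) (fun t => ‖uu φ y t - b‖) x := by
    rw [h1]
    refine (norm_cvc_le x).trans ?_
    have h3 := cv_mono_ker (k := fun t => ‖L t‖) (l := fun t => C0 * Py (2 * y) t) hL.norm
      (continuous_const.mul (Py_cont h2y)) hdc.norm (fun t => norm_nonneg _) hLP x
    rwa [cv_smul_ker] at h3
  have h4 : (cv (Py (2 * y)) (fun t => ‖uu φ y t - b‖) x) ^ 2
      ≤ cv (Py (2 * y)) (fun t => ‖uu φ y t - b‖ ^ 2) x := by
    have := jensen_Py h2y hdc.norm x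
    simp only [Real.norm_eq_abs, sq_abs] at this
    exact this
  have h5 := cv_variance (Py_cont h2y) huc (int_Py h2y) x
  rw [← hbe] at h5
  calc ‖cvc L (uu φ y) x‖ ^ 2 ≤ (C0 * cv (Py (2 * y)) (fun t => ‖uu φ y t - b‖) x) ^ 2 := by gcongr
    _ = C0 ^ 2 * (cv (Py (2 * y)) (fun t => ‖uu φ y t - b‖) x) ^ 2 := by ring
    _ ≤ C0 ^ 2 * cv (Py (2 * y)) (fun t => ‖uu φ y t - b‖ ^ 2) x := by gcongr
    _ = _ := by rw [h5]

/-- The vector-valued Jensen inequality used in the Bellman step. -/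
lemma bell_jensen {p : AddCircle T → ℝ} (hp : Continuous p) (hp0 : ∀ t, 0 ≤ p t)
    {F : AddCircle T → ℂ} (hF : Continuous F) {a : ℝ} (ha : 0 < a) {v : AddCircle T → ℝ}
    (hv : Continuous v) (hv0 : ∀ t, 0 < v t) (x : AddCircle T) :
    cv p (fun t => ‖cv (Py a) F t‖ ^ 2) x
      ≤ cv (Py a) v x * cv (Py a) (fun t => cv p (fun s => ‖F s‖ ^ 2) t / v t) x := by
  have hA := Py_cont (T := T) ha
  have hpc := cv_cont hp (nsq_cont hF)
  have h1 : ∀ t, ‖cv (Py a) F (x - t)‖ ^ 2 ≤ cv (Py a) v x *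
      ∫ s, Py a s * (‖F (x - t - s)‖ ^ 2 / v (x - s)) ∂haarAddCircle := by
    intro t
    have hcF : Continuous (fun s => F (x - t - s)) := hF.comp (continuous_const.sub continuous_id)
    have hcv : Continuous (fun s => v (x - s)) := hv.comp (continuous_const.sub continuous_id)
    have h2 := cs_weight (k := Py a) (a := fun s => v (x - s)) (F := fun s => ‖F (x - t - s)‖) hA
      hcv hcF.norm (Py_nonneg ha) (fun s => hv0 _)
    have h3 : ‖cv (Py a) F (x - t)‖ ≤ ∫ s, Py a s * ‖F (x - t - s)‖ ∂haarAddCircle := by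
      refine (norm_cv_le hA hF _).trans_eq ?_
      unfold cv
      congr 1
      ext s
      change |Py a s| * ‖F (x - t - s)‖ = _
      rw [abs_of_nonneg (Py_nonneg ha s)]
    calc ‖cv (Py a) F (x - t)‖ ^ 2 ≤ (∫ s, Py a s * ‖F (x - t - s)‖ ∂haarAddCircle) ^ 2 := by gcongr
      _ ≤ _ := h2
  have hG : Continuous (Function.uncurry (fun t s : AddCircle T =>
      p t * (Py a s * (‖F (x - t - s)‖ ^ 2 / v (x - s))))) := by
    have c1 : Continuous (fun q : AddCircle T × AddCircle T => p q.1) := hp.comp continuous_fst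
    have c2 : Continuous (fun q : AddCircle T × AddCircle T => Py a q.2) := hA.comp continuous_snd
    have c3 : Continuous (fun q : AddCircle T × AddCircle T => F (x - q.1 - q.2)) :=
      hF.comp ((continuous_const.sub continuous_fst).sub continuous_snd)
    have c4 : Continuous (fun q : AddCircle T × AddCircle T => v (x - q.2)) :=
      hv.comp (continuous_const.sub continuous_snd)
    exact c1.mul (c2.mul ((c3.norm.pow 2).div c4 (fun q => (hv0 _).ne')))
  have hcont1 : Continuous (fun t => ∫ s, p t * (Py a s * (‖F (x - t - s)‖ ^ 2 / v (x - s)))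
      ∂(haarAddCircle (T := T))) := cont_param hG
  calc cv p (fun t => ‖cv (Py a) F t‖ ^ 2) x
      = ∫ t, p t * ‖cv (Py a) F (x - t)‖ ^ 2 ∂haarAddCircle := rfl
    _ ≤ ∫ t, cv (Py a) v x * ∫ s, p t * (Py a s * (‖F (x - t - s)‖ ^ 2 / v (x - s)))
          ∂haarAddCircle ∂haarAddCircle := by
        refine integral_mono (ci (hp.mul (((cv_cont hA hF).comp
          (continuous_const.sub continuous_id)).norm.pow 2)))
          (ci (continuous_const.mul hcont1)) fun t => ?_
        simp only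
        rw [integral_const_mul]
        calc p t * ‖cv (Py a) F (x - t)‖ ^ 2
            ≤ p t * (cv (Py a) v x *
                ∫ s, Py a s * (‖F (x - t - s)‖ ^ 2 / v (x - s)) ∂haarAddCircle) :=
              mul_le_mul_of_nonneg_left (h1 t) (hp0 t)
          _ = _ := by ring
    _ = cv (Py a) v x * ∫ t, ∫ s, p t * (Py a s * (‖F (x - t - s)‖ ^ 2 / v (x - s)))
          ∂haarAddCircle ∂haarAddCircle := by rw [integral_const_mul]
    _ = cv (Py a) v x * ∫ s, ∫ t, p t * (Py a s * (‖F (x - t - s)‖ ^ 2 / v (x - s)))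
          ∂haarAddCircle ∂haarAddCircle := by rw [swap2 hG]
    _ = _ := by
        congr 1
        unfold cv
        congr 1
        ext s
        simp only [smul_eq_mul]
        rw [div_eq_mul_inv, ← integral_mul_const, ← integral_const_mul]
        congr 1
        ext t
        have : x - t - s = x - s - t := by abel
        rw [this]
        ring

/-- The Bellman induction. -/
lemma bellman {y : ℕ → ℝ} (hy : ∀ K, 0 < y K) (hy3 : ∀ K, 3 * y (K + 1) ≤ y K)
    (hφ : Continuous φ) (hφ1 : ∀ t, ‖φ t‖ ≤ 1) {p : AddCircle T → ℝ} (hp : Continuous p)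
    (hp0 : ∀ t, 0 ≤ p t) {h : AddCircle T → ℂ} (hh : Continuous h)
    {w : ℕ → AddCircle T → ℝ} (hw : ∀ K, Continuous (w K)) (hw0 : ∀ K t, 0 ≤ w K t)
    (hwle : ∀ K x, w K x ≤ cv (Py (3 * y K)) (fun t => ‖uu φ (y K) t‖ ^ 2) x
      - cv (Py (y K)) (fun t => ‖uu φ (3 * y K) t‖ ^ 2) x) (N : ℕ) :
    ∀ d K, K + d = N → ∃ v : AddCircle T → ℝ, Continuous v ∧ (∀ x, 0 ≤ v x) ∧
      (∀ x, v x ≤ 1 - cv (Py (y K)) (fun t => ‖uu φ (3 * y K) t‖ ^ 2) x) ∧
      ∫ x, cv p (fun t => ‖cv (Py (4 * y K)) h t‖ ^ 2) x / (1 + v x) ∂haarAddCircle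
        + (1 / 4) * ∑ j ∈ Finset.Ico K N,
          ∫ x, cv p (fun t => ‖cv (Py (4 * y j)) h t‖ ^ 2) x * w j x ∂haarAddCircle
        ≤ ∫ x, cv p (fun t => ‖cv (Py (4 * y N)) h t‖ ^ 2) x ∂haarAddCircle := by
  intro d
  induction d with
  | zero =>
    rintro K hK
    have hKN : K = N := by simpa using hK
    subst hKN
    refine ⟨fun _ => 0, continuous_const, fun _ => le_rfl, fun x => ?_, ?_⟩
    · have h3 : 0 < 3 * y K := by linarith [hy K]
      have hle : ∀ t, ‖uu φ (3 * y K) t‖ ^ 2 ≤ 1 := fun t => by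
        have := uu_le hφ hφ1 h3 t
        have h0 := norm_nonneg (uu φ (3 * y K) t)
        nlinarith
      have := cv_le_one (hy K) (nsq_cont (uu_cont hφ h3)) hle x
      linarith
    · simp
  | succ d ih =>
    intro K hK
    obtain ⟨v', hv'c, hv'0, hv'le, hv'⟩ := ih (K + 1) (by omega)
    have hyK := hy K
    have hyK1 := hy (K + 1)
    have hy3K := hy3 K
    have h3y : 0 < 3 * y K := by linarith
    have h3y1 : 0 < 3 * y (K + 1) := by linarith
    set a := 4 * (y K - y (K + 1)) with ha_def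
    have ha : 0 < a := by rw [ha_def]; linarith
    have hAc := Py_cont (T := T) ha
    have hAv'c : Continuous (cv (Py a) v') := cv_cont hAc hv'c
    have hAv'0 : ∀ x, 0 ≤ cv (Py a) v' x := cv_nonneg (Py_nonneg ha) hv'0
    set v : AddCircle T → ℝ := fun x => w K x + cv (Py a) v' x with hv_def
    have hvc : Continuous v := (hw K).add hAv'c
    have hv0 : ∀ x, 0 ≤ v x := fun x => add_nonneg (hw0 K x) (hAv'0 x)
    have hu3c := nsq_cont (uu_cont hφ h3y)
    have hu31c := nsq_cont (uu_cont hφ h3y1)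
    have huKc := nsq_cont (uu_cont hφ hyK)
    have hvle : ∀ x, v x ≤ 1 - cv (Py (y K)) (fun t => ‖uu φ (3 * y K) t‖ ^ 2) x := by
      intro x
      have e1 : cv (Py a) v' x ≤ 1 - cv (Py (4 * y K - 3 * y (K + 1)))
          (fun t => ‖uu φ (3 * y (K + 1)) t‖ ^ 2) x := by
        have hc : Continuous (cv (Py (y (K + 1))) (fun t => ‖uu φ (3 * y (K + 1)) t‖ ^ 2)) :=
          cv_cont (Py_cont hyK1) hu31c
        have hc' : Continuous (fun z => 1 - cv (Py (y (K + 1)))
            (fun t => ‖uu φ (3 * y (K + 1)) t‖ ^ 2) z) := continuous_const.sub hc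
        have h1 := cv_mono hAc hv'c hc' (Py_nonneg ha) hv'le x
        rw [cv_sub hAc continuous_const hc, cv_Py_const ha, Py_Py ha hyK1 hu31c] at h1
        have e : a + y (K + 1) = 4 * y K - 3 * y (K + 1) := by rw [ha_def]; ring
        rwa [e] at h1
      have e2 : cv (Py (3 * y K)) (fun t => ‖uu φ (y K) t‖ ^ 2) x
          ≤ cv (Py (4 * y K - 3 * y (K + 1))) (fun t => ‖uu φ (3 * y (K + 1)) t‖ ^ 2) x := by
        rcases hy3K.lt_or_eq with hlt | heq
        · have hpos : 0 < y K - 3 * y (K + 1) := by linarith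
          have h2 : ∀ t, ‖uu φ (y K) t‖ ^ 2
              ≤ cv (Py (y K - 3 * y (K + 1))) (fun t => ‖uu φ (3 * y (K + 1)) t‖ ^ 2) t := by
            intro t
            have h3 := jensen_Py hpos (uu_cont hφ h3y1) t
            rw [uu_uu hφ h3y1 hpos] at h3
            have e : y K - 3 * y (K + 1) + 3 * y (K + 1) = y K := by ring
            rwa [e] at h3
          have h4 := cv_mono (Py_cont h3y) huKc (cv_cont (Py_cont hpos) hu31c) (Py_nonneg h3y) h2 x
          rw [Py_Py h3y hpos hu31c] at h4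
          have e : 3 * y K + (y K - 3 * y (K + 1)) = 4 * y K - 3 * y (K + 1) := by ring
          rwa [e] at h4
        · rw [heq]
          have e : 4 * y K - y K = 3 * y K := by ring
          rw [e]
      have e3 := hwle K x
      simp only [hv_def]
      linarith
    have hvle1 : ∀ x, v x ≤ 1 := by
      intro x
      have h1 := hvle x
      have h2 := cv_nonneg (k := Py (y K)) (f := fun t => ‖uu φ (3 * y K) t‖ ^ 2)
        (Py_nonneg hyK) (fun t => sq_nonneg _) x
      linarith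
    refine ⟨v, hvc, hv0, hvle, ?_⟩
    -- the pointwise inequality
    have h4y : 0 < 4 * y K := by linarith
    have h4y1 : 0 < 4 * y (K + 1) := by linarith
    set Q : ℕ → AddCircle T → ℝ := fun j => cv p (fun t => ‖cv (Py (4 * y j)) h t‖ ^ 2) with hQ
    have hFc : ∀ j, Continuous (cv (Py (4 * y j)) h) := fun j => cv_cont (Py_cont (by linarith [hy j])) hh
    have hQc : ∀ j, Continuous (Q j) := fun j => cv_cont hp (nsq_cont (hFc j))
    have hQ0 : ∀ j x, 0 ≤ Q j x := fun j x => cv_nonneg hp0 (fun t => sq_nonneg _) x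
    have hcomp : cv (Py (4 * y K)) h = cv (Py a) (cv (Py (4 * y (K + 1))) h) := by
      rw [Py_Py ha h4y1 hh]
      congr 2
      rw [ha_def]; ring
    set X : AddCircle T → ℝ := cv (Py a) (fun t => Q (K + 1) t / (1 + v' t)) with hX
    have h1v' : ∀ t, 0 < 1 + v' t := fun t => by linarith [hv'0 t]
    have h1v'c : Continuous (fun t => 1 + v' t) := continuous_const.add hv'c
    have hXin : Continuous (fun t => Q (K + 1) t / (1 + v' t)) :=
      (hQc (K + 1)).div h1v'c (fun t => (h1v' t).ne')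
    have hXc : Continuous X := cv_cont hAc hXin
    have hX0 : ∀ x, 0 ≤ X x := cv_nonneg (Py_nonneg ha) (fun t => div_nonneg (hQ0 _ _) (h1v' t).le)
    have hpt : ∀ x, Q K x / (1 + v x) + (1 / 4) * (Q K x * w K x) ≤ X x := by
      intro x
      have hb := bell_jensen hp hp0 (hFc (K + 1)) ha h1v'c h1v' x
      rw [← hcomp] at hb
      have hD : cv (Py a) (fun t => 1 + v' t) x = 1 + v x - w K x := by
        rw [cv_add hAc continuous_const hv'c, cv_Py_const ha]
        simp only [hv_def]; ring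
      rw [hD] at hb
      have hb' : Q K x ≤ (1 + v x - w K x) * X x := hb
      have hw0x := hw0 K x
      have hvx := hv0 x
      have hvx1 := hvle1 x
      have hwv : w K x ≤ v x := by
        simp only [hv_def]; linarith [hAv'0 x]
      have hDpos : 0 < 1 + v x - w K x := by linarith
      have h1vpos : 0 < 1 + v x := by linarith
      have hQx := hQ0 K x
      have h5 : 1 / (1 + v x) + (1 / 4) * w K x ≤ 1 / (1 + v x - w K x) := by
        rw [← sub_nonneg]
        have e : 1 / (1 + v x - w K x) - (1 / (1 + v x) + (1 / 4) * w K x)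
            = w K x * (4 - (1 + v x - w K x) * (1 + v x))
              / (4 * ((1 + v x - w K x) * (1 + v x))) := by
          field_simp
          ring
        rw [e]
        apply div_nonneg
        · apply mul_nonneg hw0x
          nlinarith
        · positivity
      calc Q K x / (1 + v x) + (1 / 4) * (Q K x * w K x)
          = Q K x * (1 / (1 + v x) + (1 / 4) * w K x) := by ring
        _ ≤ Q K x * (1 / (1 + v x - w K x)) := by gcongr
        _ = Q K x / (1 + v x - w K x) := by ring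
        _ ≤ X x := by rw [div_le_iff₀ hDpos]; linarith
    have hc1 : Continuous (fun x => Q K x / (1 + v x)) :=
      (hQc K).div (continuous_const.add hvc) (fun t => by linarith [hv0 t])
    have hc2 : Continuous (fun x => Q K x * w K x) := (hQc K).mul (hw K)
    have hint : ∫ x, Q K x / (1 + v x) ∂(haarAddCircle (T := T))
        + (1 / 4) * ∫ x, Q K x * w K x ∂(haarAddCircle (T := T)) ≤
        ∫ x, Q (K + 1) x / (1 + v' x) ∂(haarAddCircle (T := T)) := by
      have h6 := integral_cv_Py ha hXin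
      have hc3 : Continuous (fun x => (1 / 4) * (Q K x * w K x)) := continuous_const.mul hc2
      rw [← h6, ← integral_const_mul, ← integral_add (ci hc1) (ci hc3)]
      exact integral_mono (ci (hc1.add hc3)) (ci hXc) hpt
    have hKN : K < N := by omega
    rw [← Finset.insert_Ico_add_one_left_eq_Ico hKN, Finset.sum_insert (by simp)]
    change ∫ x, Q K x / (1 + v x) ∂(haarAddCircle (T := T)) + (1 / 4) *
      (∫ x, Q K x * w K x ∂(haarAddCircle (T := T)) + ∑ j ∈ Finset.Ico (K + 1) N,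
        ∫ x, Q j x * w j x ∂(haarAddCircle (T := T))) ≤ _
    change ∫ x, Q (K + 1) x / (1 + v' x) ∂(haarAddCircle (T := T)) + (1 / 4) *
      ∑ j ∈ Finset.Ico (K + 1) N, ∫ x, Q j x * w j x ∂(haarAddCircle (T := T)) ≤ _ at hv'
    linarith

/-- **Carleson embedding.** -/
lemma embedding {y : ℕ → ℝ} (hy : ∀ K, 0 < y K) (hy3 : ∀ K, 3 * y (K + 1) ≤ y K)
    (hφ : Continuous φ) (hφ1 : ∀ t, ‖φ t‖ ≤ 1) {p : AddCircle T → ℝ} (hp : Continuous p)
    (hp0 : ∀ t, 0 ≤ p t) (hp1 : ∫ t, p t ∂haarAddCircle = 1) {h : AddCircle T → ℂ}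
    (hh : Continuous h)
    {L : ℕ → AddCircle T → ℂ} (hL : ∀ K, Continuous (L K))
    (hL0 : ∀ K, ∫ t, L K t ∂haarAddCircle = 0) {C0 : ℝ} (hC0 : 0 < C0)
    (hLP : ∀ K t, ‖L K t‖ ≤ C0 * Py (2 * y K) t) (M N : ℕ) :
    ∑ j ∈ Finset.Ico M N, ∫ x, cv p (fun t => ‖cv (Py (4 * y j)) h t‖ ^ 2) x
        * cv (Py (y j)) (fun t => ‖cvc (L j) (uu φ (y j)) t‖ ^ 2) x ∂haarAddCircle
      ≤ 4 * C0 ^ 2 * ∫ x, ‖h x‖ ^ 2 ∂haarAddCircle := by
  rcases le_or_gt N M with hNM | hMN
  · rw [Finset.Ico_eq_empty (by omega), Finset.sum_empty]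
    have : 0 ≤ ∫ x, ‖h x‖ ^ 2 ∂(haarAddCircle (T := T)) := integral_nonneg fun x => sq_nonneg _
    positivity
  set W : ℕ → AddCircle T → ℝ := fun j => cv (Py (y j)) (fun t => ‖cvc (L j) (uu φ (y j)) t‖ ^ 2)
    with hW
  have hφtc : ∀ j, Continuous (cvc (L j) (uu φ (y j))) := fun j => cvc_cont (hL j) (uu_cont hφ (hy j))
  have hWc : ∀ j, Continuous (W j) := fun j => cv_cont (Py_cont (hy j)) (nsq_cont (hφtc j))
  have hW0 : ∀ j x, 0 ≤ W j x := fun j x => cv_nonneg (Py_nonneg (hy j)) (fun t => sq_nonneg _) x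
  have hWle : ∀ j x, (1 / C0 ^ 2) * W j x ≤ cv (Py (3 * y j)) (fun t => ‖uu φ (y j) t‖ ^ 2) x
      - cv (Py (y j)) (fun t => ‖uu φ (3 * y j) t‖ ^ 2) x := by
    intro j x
    have hyj := hy j
    have h2y : 0 < 2 * y j := by linarith
    have h3y : 0 < 3 * y j := by linarith
    have hc1 : Continuous (cv (Py (2 * y j)) (fun t => ‖uu φ (y j) t‖ ^ 2)) :=
      cv_cont (Py_cont h2y) (nsq_cont (uu_cont hφ hyj))
    have hc2 : Continuous (fun t => ‖uu φ (3 * y j) t‖ ^ 2) := nsq_cont (uu_cont hφ h3y)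
    have hc3 : Continuous (fun z => C0 ^ 2 * (cv (Py (2 * y j)) (fun t => ‖uu φ (y j) t‖ ^ 2) z
        - ‖uu φ (3 * y j) z‖ ^ 2)) := continuous_const.mul (hc1.sub hc2)
    have h1 := cv_mono (Py_cont hyj) (nsq_cont (hφtc j)) hc3 (Py_nonneg hyj)
      (phit_sq_le hφ hyj (hL j) (hL0 j) hC0.le (hLP j)) x
    rw [cv_mul_const, cv_sub (Py_cont hyj) hc1 hc2,
      Py_Py hyj h2y (nsq_cont (uu_cont hφ hyj))] at h1
    have e : y j + 2 * y j = 3 * y j := by ring
    rw [e] at h1
    have hC2 : 0 < C0 ^ 2 := by positivity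
    rw [one_div, inv_mul_le_iff₀ hC2]
    exact h1
  obtain ⟨v, hvc, hv0, -, hv⟩ := bellman hy hy3 hφ hφ1 hp hp0 hh
    (w := fun j x => (1 / C0 ^ 2) * W j x) (fun j => continuous_const.mul (hWc j))
    (fun j x => mul_nonneg (by positivity) (hW0 j x)) hWle N (N - M) M (by omega)
  have hyN := hy N
  have h4y : 0 < 4 * y N := by linarith
  have hFc : Continuous (cv (Py (4 * y N)) h) := cv_cont (Py_cont h4y) hh
  have hfin : ∫ x, cv p (fun t => ‖cv (Py (4 * y N)) h t‖ ^ 2) x ∂(haarAddCircle (T := T))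
      ≤ ∫ x, ‖h x‖ ^ 2 ∂(haarAddCircle (T := T)) := by
    rw [integral_cv hp (nsq_cont hFc), hp1, one_smul, ← integral_cv_Py h4y (nsq_cont hh)]
    exact integral_mono (ci (nsq_cont hFc)) (ci (cv_cont (Py_cont h4y) (nsq_cont hh)))
      (jensen_Py h4y hh)
  have hpos : 0 ≤ ∫ x, cv p (fun t => ‖cv (Py (4 * y M)) h t‖ ^ 2) x / (1 + v x)
      ∂(haarAddCircle (T := T)) := by
    refine integral_nonneg fun x => div_nonneg (cv_nonneg hp0 (fun t => sq_nonneg _) x) ?_
    linarith [hv0 x]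
  have hsum : ∑ j ∈ Finset.Ico M N, ∫ x, cv p (fun t => ‖cv (Py (4 * y j)) h t‖ ^ 2) x
        * ((1 / C0 ^ 2) * W j x) ∂(haarAddCircle (T := T))
      = (1 / C0 ^ 2) * ∑ j ∈ Finset.Ico M N, ∫ x, cv p (fun t => ‖cv (Py (4 * y j)) h t‖ ^ 2) x
        * W j x ∂(haarAddCircle (T := T)) := by
    rw [Finset.mul_sum]
    refine Finset.sum_congr rfl fun j _ => ?_
    rw [← integral_const_mul]
    congr 1
    ext x
    ring
  rw [hsum] at hv
  have hC2 : 0 < C0 ^ 2 := by positivity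
  set S := ∑ j ∈ Finset.Ico M N, ∫ x, cv p (fun t => ‖cv (Py (4 * y j)) h t‖ ^ 2) x
        * W j x ∂(haarAddCircle (T := T)) with hS
  have h7 : (1 / 4) * ((1 / C0 ^ 2) * S) ≤ ∫ x, ‖h x‖ ^ 2 ∂(haarAddCircle (T := T)) := by linarith
  have h8 : S = 4 * C0 ^ 2 * ((1 / 4) * ((1 / C0 ^ 2) * S)) := by field_simp
  rw [h8]
  exact mul_le_mul_of_nonneg_left h7 (by positivity)

end embedding

end Pool.Agent.MP_1d9d5b_an
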