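import Mathlib
import Pool.Agent.Lib.MP_1d9d5b_an.Conv
import Pool.Agent.Lib.MP_1d9d5b_an.Poisson
import Pool.Agent.Lib.MP_1d9d5b_an.Bellman

/-!
# Partial products of Riesz products and their Fourier coefficients; auxiliary kernels
-/

set_option autoImplicit false
set_option linter.unusedSectionVars false
set_option linter.unusedVariables false

open MeasureTheory AddCircle Complex Set
open scoped ComplexConjugate

noncomputable section

namespace Pool.Agent.MP_1d9d5b_an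

variable {T : ℝ} [hT : Fact (0 < T)]

/-- The partial products `∏_{k<K} (1 + Re (a_k e^{i n_k t}))`. -/
def pp (n : ℕ → ℕ) (a : ℕ → ℂ) (K : ℕ) (t : AddCircle T) : ℝ :=
  ∏ k ∈ Finset.range K, (1 + (a k * fourier (n k : ℤ) t).re)

/-- `N_K = n_0 + ... + n_{K-1}`. -/
def NN (n : ℕ → ℕ) (K : ℕ) : ℕ := ∑ k ∈ Finset.range K, n k

/-- The blocks. -/
def be (n : ℕ → ℕ) (a : ℕ → ℂ) (K : ℕ) (t : AddCircle T) : ℂ :=
  (a K / 2) * (fourier (n K : ℤ) t * (pp n a K t : ℂ))

section products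

variable {n : ℕ → ℕ} {a : ℕ → ℂ}

lemma pp_succ (K : ℕ) (t : AddCircle T) :
    pp n a (K + 1) t = pp n a K t * (1 + (a K * fourier (n K : ℤ) t).re) := by
  unfold pp; rw [Finset.prod_range_succ]

lemma pp_zero (t : AddCircle T) : pp n a 0 t = 1 := by simp [pp]

lemma pp_cont (K : ℕ) : Continuous (pp (T := T) n a K) := by
  unfold pp
  refine continuous_finsetProd _ fun k _ => ?_
  exact continuous_const.add (Complex.continuous_re.comp
    (continuous_const.mul (fourier (n k : ℤ)).continuous))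

lemma pp_cont' (K : ℕ) : Continuous (fun t : AddCircle T => (pp n a K t : ℂ)) :=
  Complex.continuous_ofReal.comp (pp_cont K)

lemma be_cont (K : ℕ) : Continuous (be (T := T) n a K) := by
  unfold be
  exact continuous_const.mul ((fourier (n K : ℤ)).continuous.mul (pp_cont' K))

lemma pp_nonneg (ha : ∀ k, ‖a k‖ ≤ 1) (K : ℕ) (t : AddCircle T) : 0 ≤ pp n a K t := by
  unfold pp
  refine Finset.prod_nonneg fun k _ => ?_
  have h1 : |(a k * fourier (n k : ℤ) t).re| ≤ 1 := by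
    refine (Complex.abs_re_le_norm _).trans ?_
    rw [norm_mul, norm_fourier, mul_one]
    exact ha k
  linarith [(abs_le.1 h1).1]

lemma pp_succ_be (K : ℕ) (t : AddCircle T) :
    (pp n a (K + 1) t : ℂ) = (pp n a K t : ℂ) + be n a K t + conj (be n a K t) := by
  rw [pp_succ]
  unfold be
  push_cast
  rw [Complex.re_eq_add_conj]
  simp only [map_mul, map_div₀, Complex.conj_ofReal]
  have : conj (2 : ℂ) = 2 := Complex.conj_ofNat 2
  rw [this]
  ring

lemma norm_be (ha : ∀ k, ‖a k‖ ≤ 1) (K : ℕ) (t : AddCircle T) :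
    ‖be n a K t‖ = ‖a K‖ / 2 * pp n a K t := by
  unfold be
  rw [norm_mul, norm_mul, norm_div, norm_fourier, Complex.norm_real,
    Real.norm_of_nonneg (pp_nonneg ha K t)]
  norm_num

/-- Fourier coefficients of the partial products. -/
def cc (T : ℝ) [hT : Fact (0 < T)] (n : ℕ → ℕ) (a : ℕ → ℂ) (K : ℕ) (m : ℤ) : ℂ :=
  fourierCoeff (fun t : AddCircle T => (pp n a K t : ℂ)) m

lemma cc_conj (K : ℕ) (m : ℤ) : conj (cc T n a K m) = cc T n a K (-m) := by
  unfold cc
  have := fourierCoeff_conj (fun t : AddCircle T => (pp n a K t : ℂ)) (-m)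
  rw [neg_neg] at this
  rw [← this]
  congr 1
  ext t
  exact Complex.conj_ofReal _

lemma fourierCoeff_be (K : ℕ) (m : ℤ) :
    fourierCoeff (be (T := T) n a K) m = a K / 2 * cc T n a K (m - n K) := by
  unfold be
  rw [fourierCoeff.const_mul, fourierCoeff_shift]
  rfl

lemma cc_succ (K : ℕ) (m : ℤ) :
    cc T n a (K + 1) m = cc T n a K m + a K / 2 * cc T n a K (m - n K)
      + conj (a K / 2) * cc T n a K (m + n K) := by
  have h1 : cc T n a (K + 1) m = fourierCoeff (fun t : AddCircle T =>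
      ((pp n a K t : ℂ) + be n a K t) + conj (be n a K t)) m := by
    unfold cc
    congr 1
    ext t
    exact pp_succ_be K t
  have hc : Continuous (fun t : AddCircle T => conj (be n a K t)) :=
    Complex.continuous_conj.comp (be_cont K)
  have hc2 : Continuous (fun t : AddCircle T => (pp n a K t : ℂ) + be n a K t) :=
    (pp_cont' K).add (be_cont K)
  have e2 := fourierCoeff_add' (pp_cont' (T := T) (n := n) (a := a) K)
    (be_cont (T := T) (n := n) (a := a) K) m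
  rw [h1, fourierCoeff_add' hc2 hc, e2, fourierCoeff_conj, fourierCoeff_be, fourierCoeff_be]
  rw [map_mul, cc_conj]
  congr 3
  ring

lemma NN_succ (n : ℕ → ℕ) (K : ℕ) : NN n (K + 1) = NN n K + n K := by
  unfold NN; rw [Finset.sum_range_succ]

lemma NN_lt (hn0 : ∀ k, 1 ≤ n k) (hn : ∀ k, 3 * n k ≤ n (k + 1)) (K : ℕ) : 2 * NN n K < n K := by
  induction K with
  | zero => simp [NN]; exact hn0 0
  | succ K ih =>
    rw [NN_succ]
    have := hn K
    omega

lemma cc_supp (K : ℕ) (m : ℤ) (hm : (NN n K : ℤ) < |m|) : cc T n a K m = 0 := by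
  induction K generalizing m with
  | zero =>
    have hne : m ≠ 0 := by
      rintro rfl; simp [NN] at hm
    unfold cc
    have : (fun t : AddCircle T => (pp n a 0 t : ℂ)) = fun t => (fourier 0 t : ℂ) := by
      ext t; simp [pp_zero]
    rw [this, fourierCoeff_mono, if_neg hne]
  | succ K ih =>
    rw [NN_succ] at hm
    push_cast at hm
    rw [cc_succ, ih m, ih (m - n K), ih (m + n K)]
    · ring
    · rcases abs_cases m with ⟨h1, h2⟩ | ⟨h1, h2⟩ <;>
        rcases abs_cases (m + n K) with ⟨h3, h4⟩ | ⟨h3, h4⟩ <;> omega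
    · rcases abs_cases m with ⟨h1, h2⟩ | ⟨h1, h2⟩ <;>
        rcases abs_cases (m - n K) with ⟨h3, h4⟩ | ⟨h3, h4⟩ <;> omega
    · omega

lemma cc_stable (hn0 : ∀ k, 1 ≤ n k) (hn : ∀ k, 3 * n k ≤ n (k + 1)) (K d : ℕ) (m : ℤ)
    (hm : |m| + NN n K < n K) : cc T n a (K + d) m = cc T n a K m := by
  have hgrow : ∀ d, |m| + NN n (K + d) < n (K + d) := by
    intro d
    induction d with
    | zero => simpa using hm
    | succ d ih =>
      rw [← add_assoc, NN_succ]
      have h1 := hn (K + d)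
      have h2 := NN_lt hn0 hn (K + d)
      push_cast
      omega
  induction d with
  | zero => rfl
  | succ d ih =>
    have hg := hgrow d
    rw [← add_assoc, cc_succ, ih]
    have h1 : cc T n a (K + d) (m - n (K + d)) = 0 := by
      apply cc_supp
      rcases abs_cases m with ⟨h1, h2⟩ | ⟨h1, h2⟩ <;>
        rcases abs_cases (m - n (K + d)) with ⟨h3, h4⟩ | ⟨h3, h4⟩ <;> omega
    have h2 : cc T n a (K + d) (m + n (K + d)) = 0 := by
      apply cc_supp
      rcases abs_cases m with ⟨h1, h2⟩ | ⟨h1, h2⟩ <;>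
        rcases abs_cases (m + n (K + d)) with ⟨h3, h4⟩ | ⟨h3, h4⟩ <;> omega
    rw [h1, h2]
    ring

lemma cc_zero (hn0 : ∀ k, 1 ≤ n k) (hn : ∀ k, 3 * n k ≤ n (k + 1)) (K : ℕ) :
    cc T n a K 0 = 1 := by
  have h := cc_stable (T := T) (a := a) hn0 hn 0 K 0 (by simp [NN]; exact hn0 0)
  rw [zero_add] at h
  rw [h]
  unfold cc
  have : (fun t : AddCircle T => (pp n a 0 t : ℂ)) = fun t => (fourier 0 t : ℂ) := by
    ext t; simp [pp_zero]
  rw [this, fourierCoeff_mono, if_pos rfl]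

lemma int_pp (hn0 : ∀ k, 1 ≤ n k) (hn : ∀ k, 3 * n k ≤ n (k + 1)) (K : ℕ) :
    ∫ t, pp (T := T) n a K t ∂haarAddCircle = 1 := by
  have h := cc_zero (T := T) (a := a) hn0 hn K
  unfold cc fourierCoeff at h
  simp only [neg_zero, fourier_zero, smul_eq_mul, one_mul] at h
  rw [integral_complex_ofReal] at h
  exact_mod_cast h

/-- The blocks have frequencies in `[n_K - N_K, n_K + N_K]`. -/
lemma be_supp (K : ℕ) (m : ℤ) (hm : m < (n K : ℤ) - NN n K ∨ (n K : ℤ) + NN n K < m) :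
    fourierCoeff (be (T := T) n a K) m = 0 := by
  rw [fourierCoeff_be, cc_supp, mul_zero]
  rcases abs_cases (m - n K) with ⟨h3, h4⟩ | ⟨h3, h4⟩ <;> omega

end products

/-! ### The truncated Poisson kernel comparison -/

lemma cvc_pp_diff_eq_zero {n : ℕ → ℕ} {a : ℕ → ℂ} (hn0 : ∀ k, 1 ≤ n k)
    (hn : ∀ k, 3 * n k ≤ n (k + 1)) (K d : ℕ) (m : ℤ)
    (hm : |m| + NN n K < n K) (x : AddCircle T) :
    cvc (fun t : AddCircle T => (pp n a (K + d) t : ℂ)) (fun t => fourier m t) x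
      = cvc (fun t : AddCircle T => (pp n a K t : ℂ)) (fun t => fourier m t) x := by
  rw [cvc_fourier, cvc_fourier]
  congr 1
  exact cc_stable hn0 hn K d m hm

/-- truncated Poisson kernel. -/
def Rk (r : ℝ) (M : ℕ) (t : AddCircle T) : ℝ :=
  (1 - r ^ 2) * ‖∑ j ∈ Finset.range M, ((r : ℂ) * fourier 1 t) ^ j‖ ^ 2

lemma Rk_cont (r : ℝ) (M : ℕ) : Continuous (Rk (T := T) r M) := by
  unfold Rk
  have h1 : Continuous (fun t : AddCircle T => (fourier 1 t : ℂ)) := (fourier 1).continuous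
  exact continuous_const.mul ((continuous_finsetSum _ fun j _ =>
    (continuous_const.mul h1).pow j).norm.pow 2)

lemma Rk_eq {r : ℝ} (h0 : 0 ≤ r) (h1 : r < 1) (M : ℕ) (t : AddCircle T) :
    Rk r M t = P r t * ‖1 - ((r : ℂ) * fourier 1 t) ^ M‖ ^ 2 := by
  unfold Rk P
  set z := (r : ℂ) * fourier 1 t with hz
  have hd := den_pos h0 h1 t
  rw [← hz] at hd
  have hne : 1 - z ≠ 0 := norm_pos_iff.1 hd
  have hg : (1 - z) * ∑ j ∈ Finset.range M, z ^ j = 1 - z ^ M := mul_neg_geom_sum z M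
  have h2 : ‖1 - z‖ * ‖∑ j ∈ Finset.range M, z ^ j‖ = ‖1 - z ^ M‖ := by
    rw [← norm_mul, hg]
  rw [← h2]
  field_simp

lemma Rk_bounds {r : ℝ} (h0 : 0 ≤ r) (h1 : r < 1) (M : ℕ) (t : AddCircle T) :
    (1 - r ^ M) ^ 2 * P r t ≤ Rk r M t ∧ Rk r M t ≤ (1 + r ^ M) ^ 2 * P r t := by
  rw [Rk_eq h0 h1]
  set z := (r : ℂ) * fourier 1 t with hz
  have hzn : ‖z ^ M‖ = r ^ M := by
    rw [norm_pow, hz, norm_mul, norm_fourier, Complex.norm_real, Real.norm_of_nonneg h0, mul_one]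
  have hP := P_nonneg h0 h1 t
  have hrM : r ^ M ≤ 1 := pow_le_one₀ h0 h1.le
  have hrM0 : 0 ≤ r ^ M := by positivity
  have l1 : 1 - r ^ M ≤ ‖1 - z ^ M‖ := by
    have := norm_sub_norm_le (1 : ℂ) (z ^ M)
    rwa [norm_one, hzn] at this
  have l2 : ‖1 - z ^ M‖ ≤ 1 + r ^ M := by
    have := norm_sub_le (1 : ℂ) (z ^ M)
    rwa [norm_one, hzn] at this
  constructor
  · rw [mul_comm]
    apply mul_le_mul_of_nonneg_left _ hP
    apply pow_le_pow_left₀ (by linarith) l1
  · rw [mul_comm ((1 + r ^ M) ^ 2)]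
    apply mul_le_mul_of_nonneg_left _ hP
    exact pow_le_pow_left₀ (norm_nonneg _) l2 2

lemma Rk_expand (r : ℝ) (M : ℕ) (t : AddCircle T) :
    (Rk r M t : ℂ) = ∑ p ∈ Finset.range M ×ˢ Finset.range M,
      ((1 - r ^ 2) * r ^ p.1 * r ^ p.2 : ℂ) * fourier ((p.1 : ℤ) - p.2) t := by
  unfold Rk
  have h1 : ∀ w : ℂ, ((‖w‖ ^ 2 : ℝ) : ℂ) = w * conj w := by
    intro w
    rw [Complex.mul_conj, Complex.normSq_eq_norm_sq]
  push_cast
  have h2 := h1 (∑ j ∈ Finset.range M, ((r : ℂ) * fourier 1 t) ^ j)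
  push_cast at h2
  rw [h2, map_sum, Finset.sum_mul_sum, ← Finset.sum_product', Finset.mul_sum]
  refine Finset.sum_congr rfl fun p _ => ?_
  rw [mul_pow, map_pow, map_mul, Complex.conj_ofReal, mul_pow, fourier_pow, ← map_pow, fourier_pow,
    fourier_conj, sub_eq_add_neg (p.1 : ℤ), fourier_add]
  ring

lemma cv_ofReal (k f : AddCircle T → ℝ) (x : AddCircle T) :
    ((cv k f x : ℝ) : ℂ) = cvc (fun t => (k t : ℂ)) (fun t => (f t : ℂ)) x := by
  unfold cv cvc
  rw [← integral_complex_ofReal]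
  congr 1
  ext t
  simp

lemma cv_pp_Rk {n : ℕ → ℕ} {a : ℕ → ℂ} (hn0 : ∀ k, 1 ≤ n k)
    (hn : ∀ k, 3 * n k ≤ n (k + 1)) (K d : ℕ) (r : ℝ) (M : ℕ) (hM : M + NN n K ≤ n K)
    (x : AddCircle T) :
    cv (pp n a (K + d)) (Rk r M) x = cv (pp n a K) (Rk r M) x := by
  have hsum : ∀ K', ((cv (pp n a K') (Rk r M) x : ℝ) : ℂ)
      = ∑ p ∈ Finset.range M ×ˢ Finset.range M,
      ((1 - r ^ 2) * r ^ p.1 * r ^ p.2 : ℂ) *
        cvc (fun t : AddCircle T => (pp n a K' t : ℂ)) (fun t => fourier ((p.1 : ℤ) - p.2) t) x := by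
    intro K'
    rw [cv_ofReal]
    have e : (fun t : AddCircle T => (Rk r M t : ℂ)) = fun t =>
        ∑ p ∈ Finset.range M ×ˢ Finset.range M,
      ((1 - r ^ 2) * r ^ p.1 * r ^ p.2 : ℂ) * fourier ((p.1 : ℤ) - p.2) t := by
      ext t; exact Rk_expand r M t
    rw [e, cvc_sum_right _ (pp_cont' K')]
    · refine Finset.sum_congr rfl fun p _ => ?_
      rw [cvc_mul_right]
    · intro p _
      exact continuous_const.mul (fourier ((p.1 : ℤ) - p.2)).continuous
  have h : ((cv (pp n a (K + d)) (Rk r M) x : ℝ) : ℂ) = ((cv (pp n a K) (Rk r M) x : ℝ) : ℂ) := by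
    rw [hsum, hsum]
    refine Finset.sum_congr rfl fun p hp => ?_
    rw [cvc_pp_diff_eq_zero hn0 hn K d]
    have h1 := Finset.mem_range.1 (Finset.mem_product.1 hp).1
    have h2 := Finset.mem_range.1 (Finset.mem_product.1 hp).2
    rcases abs_cases ((p.1 : ℤ) - p.2) with ⟨h3, h4⟩ | ⟨h3, h4⟩ <;> omega
  exact_mod_cast h

lemma exp_half_bound : Real.exp (-(1 / 2)) ≤ 2 / 3 := by
  rw [Real.exp_neg]
  have h := Real.add_one_le_exp (1 / 2 : ℝ)
  rw [inv_le_comm₀ (Real.exp_pos _) (by norm_num)]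
  linarith

/-- Kernel comparison (a). -/
lemma kernel_comparison {n : ℕ → ℕ} {a : ℕ → ℂ} (hn0 : ∀ k, 1 ≤ n k)
    (hn : ∀ k, 3 * n k ≤ n (k + 1)) (ha : ∀ k, ‖a k‖ ≤ 1) (K d : ℕ) (x : AddCircle T) :
    cv (pp n a K) (Py (1 / (n K : ℝ))) x ≤ 25 * cv (pp n a (K + d)) (Py (1 / (n K : ℝ))) x := by
  have hnK : 0 < (n K : ℝ) := by exact_mod_cast hn0 K
  have hy : 0 < 1 / (n K : ℝ) := by positivity
  set r := Real.exp (-(1 / (n K : ℝ))) with hr
  obtain ⟨h0, h1⟩ := exp_bd hy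
  rw [← hr] at h0 h1
  have hN := NN_lt hn0 hn K
  set M : ℕ := n K - NN n K with hM
  have hMle : M + NN n K ≤ n K := by omega
  have hM2 : (n K : ℝ) / 2 ≤ M := by
    have : n K ≤ 2 * M := by omega
    have : (n K : ℝ) ≤ 2 * M := by exact_mod_cast this
    linarith
  have hrM : r ^ M ≤ 2 / 3 := by
    rw [hr, ← Real.exp_nat_mul]
    refine le_trans (Real.exp_le_exp.2 ?_) exp_half_bound
    have : (1 : ℝ) / 2 ≤ (M : ℝ) * (1 / (n K : ℝ)) := by
      rw [mul_one_div, le_div_iff₀ hnK]; linarith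
    linarith
  have hrM0 : 0 ≤ r ^ M := by positivity
  have hPc := P_cont (T := T) h0 h1
  have hPc' : Continuous (Py (T := T) (1 / (n K : ℝ))) := Py_cont hy
  have hb1 : ∀ t : AddCircle T, Py (1 / (n K : ℝ)) t ≤ 9 * Rk r M t := by
    intro t
    have hb := (Rk_bounds h0 h1 M t).1
    have hP := P_nonneg h0 h1 t
    change P r t ≤ _
    have : (1 : ℝ) / 9 ≤ (1 - r ^ M) ^ 2 := by nlinarith
    nlinarith
  have hb2 : ∀ t : AddCircle T, Rk r M t ≤ (25 / 9) * Py (1 / (n K : ℝ)) t := by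
    intro t
    have hb := (Rk_bounds h0 h1 M t).2
    have hP := P_nonneg h0 h1 t
    change _ ≤ 25 / 9 * P r t
    have : (1 + r ^ M) ^ 2 ≤ 25 / 9 := by nlinarith
    nlinarith
  have hR9 : Continuous (fun t : AddCircle T => 9 * Rk r M t) := continuous_const.mul (Rk_cont r M)
  have hP9 : Continuous (fun t : AddCircle T => (25 / 9) * Py (1 / (n K : ℝ)) t) :=
    continuous_const.mul hPc'
  calc cv (pp n a K) (Py (1 / (n K : ℝ))) x ≤ cv (pp n a K) (fun t => 9 * Rk r M t) x :=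
        cv_mono (pp_cont K) hPc' hR9 (pp_nonneg ha K) hb1 x
    _ = 9 * cv (pp n a K) (Rk r M) x := by rw [cv_mul_const]
    _ = 9 * cv (pp n a (K + d)) (Rk r M) x := by rw [cv_pp_Rk hn0 hn K d r M hMle]
    _ ≤ 9 * cv (pp n a (K + d)) (fun t => (25 / 9) * Py (1 / (n K : ℝ)) t) x := by
        gcongr
        exact cv_mono (pp_cont _) (Rk_cont r M) hP9 (pp_nonneg ha _) hb2 x
    _ = _ := by rw [cv_mul_const]; ring

end Pool.Agent.MP_1d9d5b_an
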