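import Mathlib
import Pool.Agent.Lib.MP_1d9d5b_an.Conv
import Pool.Agent.Lib.MP_1d9d5b_an.Poisson
import Pool.Agent.Lib.MP_1d9d5b_an.Bellman
import Pool.Agent.Lib.MP_1d9d5b_an.RieszProd

/-!
# The kernels `L_K`
-/

set_option autoImplicit false
set_option linter.unusedSectionVars false
set_option linter.unusedVariables false

open MeasureTheory AddCircle Complex Set
open scoped ComplexConjugate

noncomputable section

namespace Pool.Agent.MP_1d9d5b_an

variable {T : ℝ} [hT : Fact (0 < T)]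

/-- The kernel: frequencies `1 .. M+L-1`, coefficient `e^{6ym}` for `M ≤ m ≤ L`. -/
def LK (y : ℝ) (M L : ℕ) (t : AddCircle T) : ℂ :=
  (1 / M : ℂ) * (∑ j ∈ Finset.range M, (((Real.exp (6 * y) : ℝ) : ℂ) * fourier 1 t) ^ j) *
    ∑ l ∈ Finset.range L, (((Real.exp (6 * y) : ℝ) : ℂ) * fourier 1 t) ^ (l + 1)

lemma LK_cont (y : ℝ) (M L : ℕ) : Continuous (LK (T := T) y M L) := by
  unfold LK
  have h1 : Continuous (fun t : AddCircle T => (fourier 1 t : ℂ)) := (fourier 1).continuous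
  exact (continuous_const.mul (continuous_finsetSum _ fun j _ =>
    (continuous_const.mul h1).pow j)).mul (continuous_finsetSum _ fun j _ =>
    (continuous_const.mul h1).pow (j + 1))

lemma LK_expand (y : ℝ) (M L : ℕ) (t : AddCircle T) :
    LK y M L t = ∑ j ∈ Finset.range M, ∑ l ∈ Finset.range L,
      ((1 / M : ℂ) * ((Real.exp (6 * y) : ℝ) : ℂ) ^ (j + l + 1)) * fourier ((j + l + 1 : ℕ) : ℤ) t := by
  unfold LK
  rw [mul_assoc, Finset.sum_mul_sum, Finset.mul_sum]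
  refine Finset.sum_congr rfl fun j _ => ?_
  rw [Finset.mul_sum]
  refine Finset.sum_congr rfl fun l _ => ?_
  rw [← fourier_pow]
  ring

lemma fourierCoeff_LK (y : ℝ) (M L : ℕ) (m : ℤ) :
    fourierCoeff (LK (T := T) y M L) m = ∑ j ∈ Finset.range M, ∑ l ∈ Finset.range L,
      if m = ((j + l + 1 : ℕ) : ℤ) then (1 / M : ℂ) * ((Real.exp (6 * y) : ℝ) : ℂ) ^ (j + l + 1)
      else 0 := by
  have e : LK (T := T) y M L = fun t => ∑ j ∈ Finset.range M, ∑ l ∈ Finset.range L,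
      ((1 / M : ℂ) * ((Real.exp (6 * y) : ℝ) : ℂ) ^ (j + l + 1)) * fourier ((j + l + 1 : ℕ) : ℤ) t := by
    ext t; exact LK_expand y M L t
  have hc : ∀ j l : ℕ, Continuous (fun t : AddCircle T => ((1 / M : ℂ) *
      ((Real.exp (6 * y) : ℝ) : ℂ) ^ (j + l + 1)) * fourier ((j + l + 1 : ℕ) : ℤ) t) :=
    fun j l => continuous_const.mul (fourier _).continuous
  rw [e, fourierCoeff_sum' _ (fun j _ => continuous_finsetSum _ fun l _ => hc j l)]
  refine Finset.sum_congr rfl fun j _ => ?_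
  rw [fourierCoeff_sum' _ (fun l _ => hc j l)]
  refine Finset.sum_congr rfl fun l _ => ?_
  rw [fourierCoeff.const_mul, fourierCoeff_mono]
  split_ifs <;> simp

lemma fourierCoeff_LK_nonpos (y : ℝ) (M L : ℕ) (m : ℤ) (hm : m ≤ 0) :
    fourierCoeff (LK (T := T) y M L) m = 0 := by
  rw [fourierCoeff_LK]
  refine Finset.sum_eq_zero fun j _ => Finset.sum_eq_zero fun l _ => ?_
  rw [if_neg]
  push_cast
  omega

lemma fourierCoeff_LK_mid (y : ℝ) {M L : ℕ} (hM : 1 ≤ M) (m : ℕ) (h1 : M ≤ m) (h2 : m ≤ L) :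
    fourierCoeff (LK (T := T) y M L) m = ((Real.exp (6 * y * m) : ℝ) : ℂ) := by
  rw [fourierCoeff_LK]
  have h3 : ∀ j ∈ Finset.range M, (∑ l ∈ Finset.range L,
      if (m : ℤ) = ((j + l + 1 : ℕ) : ℤ) then
        (1 / M : ℂ) * ((Real.exp (6 * y) : ℝ) : ℂ) ^ (j + l + 1) else 0)
      = (1 / M : ℂ) * ((Real.exp (6 * y) : ℝ) : ℂ) ^ m := by
    intro j hj
    have hj' := Finset.mem_range.1 hj
    rw [Finset.sum_eq_single (m - 1 - j)]
    · have : j + (m - 1 - j) + 1 = m := by omega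
      rw [this, if_pos rfl]
    · intro l _ hl
      rw [if_neg]
      intro h
      apply hl
      have : m = j + l + 1 := by exact_mod_cast h
      omega
    · intro h
      exfalso
      apply h
      rw [Finset.mem_range]
      omega
  rw [Finset.sum_congr rfl h3, Finset.sum_const, Finset.card_range, nsmul_eq_mul]
  have hM0 : (M : ℂ) ≠ 0 := by
    have : M ≠ 0 := by omega
    exact_mod_cast this
  rw [← mul_assoc, mul_one_div_cancel hM0, one_mul, ← Complex.ofReal_pow, ← Real.exp_nat_mul]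
  congr 2
  ring

lemma int_LK (y : ℝ) (M L : ℕ) : ∫ t, LK (T := T) y M L t ∂haarAddCircle = 0 := by
  have h := fourierCoeff_LK_nonpos (T := T) y M L 0 le_rfl
  unfold fourierCoeff at h
  simpa using h

/-- The constant in the kernel bound. -/
def C0 : ℝ := 10 * (Real.exp 6 + 1) * Real.exp 6 * (Real.exp 9 + 1)

lemma C0_pos : 0 < C0 := by unfold C0; positivity

lemma LK_bound {ν M L : ℕ} (hν : 1 ≤ ν) (hM1 : ν ≤ 2 * M) (hM2 : M ≤ ν) (hL : 2 * L ≤ 3 * ν)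
    (t : AddCircle T) :
    ‖LK (1 / (ν : ℝ)) M L t‖ ≤ C0 * Py (2 * (1 / (ν : ℝ))) t := by
  have hν0 : (0 : ℝ) < ν := by exact_mod_cast hν
  set y : ℝ := 1 / ν with hy
  have hy0 : 0 < y := by positivity
  have hy1 : y ≤ 1 := by
    rw [hy, div_le_one hν0]; exact_mod_cast hν
  have hMpos : (0 : ℝ) < M := by
    have : 1 ≤ M := by omega
    exact_mod_cast this
  set ρ : ℝ := Real.exp (6 * y) with hρ
  set z : ℂ := fourier 1 t with hz
  have hzn : ‖z‖ = 1 := norm_fourier 1 t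
  have hρ1 : 1 < ρ := by rw [hρ, Real.one_lt_exp_iff]; positivity
  have hρ0 : 0 < ρ := by linarith
  set s : ℝ := Real.exp (-(2 * y)) with hs
  have hs0 : 0 < s := Real.exp_pos _
  have hs1 : s < 1 := by rw [hs, Real.exp_lt_one_iff]; linarith
  have hs3 : s ^ 3 = ρ⁻¹ := by
    rw [hs, hρ, ← Real.exp_neg, ← Real.exp_nat_mul]
    congr 1
    push_cast; ring
  -- |1 - s z| ≤ 2 |1 - s^3 z|
  have hcmp : ‖1 - (s : ℂ) * z‖ ≤ 2 * ‖1 - ((s ^ 3 : ℝ) : ℂ) * z‖ := by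
    have h1 : ‖1 - (s : ℂ) * z‖ ≤ ‖1 - ((s ^ 3 : ℝ) : ℂ) * z‖ + (s - s ^ 3) := by
      have e : 1 - (s : ℂ) * z = (1 - ((s ^ 3 : ℝ) : ℂ) * z) - ((s - s ^ 3 : ℝ) : ℂ) * z := by
        push_cast; ring
      rw [e]
      refine (norm_sub_le _ _).trans ?_
      rw [norm_mul, hzn, mul_one, Complex.norm_real]
      have : 0 ≤ s - s ^ 3 := by nlinarith [mul_pos hs0 hs0]
      rw [Real.norm_of_nonneg this]
    have h2 : 1 - s ^ 3 ≤ ‖1 - ((s ^ 3 : ℝ) : ℂ) * z‖ := by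
      have := norm_sub_norm_le (1 : ℂ) (((s ^ 3 : ℝ) : ℂ) * z)
      rw [norm_one, norm_mul, hzn, mul_one, Complex.norm_real,
        Real.norm_of_nonneg (by positivity)] at this
      exact this
    linarith
  -- |ρ z - 1| = ρ |1 - s^3 z| (by conjugation)
  have hconj : ‖(ρ : ℂ) * z - 1‖ = ρ * ‖1 - ((s ^ 3 : ℝ) : ℂ) * z‖ := by
    rw [hs3]
    have e1 : ‖1 - ((ρ⁻¹ : ℝ) : ℂ) * z‖ = ‖1 - ((ρ⁻¹ : ℝ) : ℂ) * conj z‖ := by
      rw [← Complex.norm_conj]
      simp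
    have hzz : z * conj z = 1 := by
      rw [Complex.mul_conj, Complex.normSq_eq_norm_sq, hzn]; norm_num
    have hρc : (ρ : ℂ) ≠ 0 := by exact_mod_cast hρ0.ne'
    have e2 : (ρ : ℂ) * z - 1 = (ρ : ℂ) * z * (1 - ((ρ⁻¹ : ℝ) : ℂ) * conj z) := by
      push_cast
      field_simp
      linear_combination hzz
    rw [e2, e1, norm_mul, norm_mul, hzn, Complex.norm_real, Real.norm_of_nonneg hρ0.le, mul_one]
  set D := ‖(ρ : ℂ) * z - 1‖ with hD
  have hden := den_pos hs0.le hs1 t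
  rw [← hz] at hden
  have hDge : ‖1 - (s : ℂ) * z‖ / 2 ≤ D := by
    rw [hconj]
    have h3 : 0 ≤ ‖1 - ((s ^ 3 : ℝ) : ℂ) * z‖ := norm_nonneg _
    nlinarith
  have hDpos : 0 < D := by linarith
  -- geometric sums
  have hg1 : ‖∑ j ∈ Finset.range M, ((ρ : ℂ) * z) ^ j‖ * D ≤ Real.exp 6 + 1 := by
    rw [hD, ← norm_mul, geom_sum_mul]
    refine (norm_sub_le _ _).trans ?_
    rw [norm_one, norm_pow, norm_mul, hzn, mul_one, Complex.norm_real, Real.norm_of_nonneg hρ0.le]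
    gcongr
    rw [hρ, ← Real.exp_nat_mul]
    apply Real.exp_le_exp.2
    have : (M : ℝ) * y ≤ 1 := by
      rw [hy, mul_one_div, div_le_one hν0]; exact_mod_cast hM2
    linarith
  have hg2 : ‖∑ l ∈ Finset.range L, ((ρ : ℂ) * z) ^ (l + 1)‖ * D ≤ Real.exp 6 * (Real.exp 9 + 1) := by
    have e : ∑ l ∈ Finset.range L, ((ρ : ℂ) * z) ^ (l + 1)
        = ((ρ : ℂ) * z) * ∑ l ∈ Finset.range L, ((ρ : ℂ) * z) ^ l := by
      rw [Finset.mul_sum]
      refine Finset.sum_congr rfl fun l _ => ?_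
      ring
    rw [e, norm_mul, mul_assoc, hD, ← norm_mul, geom_sum_mul]
    have hρ6 : ρ ≤ Real.exp 6 := by
      rw [hρ]; apply Real.exp_le_exp.2; linarith
    rw [norm_mul, hzn, mul_one, Complex.norm_real, Real.norm_of_nonneg hρ0.le]
    refine mul_le_mul hρ6 ?_ (norm_nonneg _) (Real.exp_pos _).le
    refine (norm_sub_le _ _).trans ?_
    rw [norm_one, norm_pow, norm_mul, hzn, mul_one, Complex.norm_real, Real.norm_of_nonneg hρ0.le]
    gcongr
    rw [hρ, ← Real.exp_nat_mul]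
    apply Real.exp_le_exp.2
    have : (L : ℝ) * y ≤ 3 / 2 := by
      rw [hy, mul_one_div, div_le_iff₀ hν0]
      have : (2 * L : ℝ) ≤ 3 * ν := by exact_mod_cast hL
      linarith
    linarith
  -- 1 - s^2 ≥ 4y/5
  have hs2 : 4 * y / 5 ≤ 1 - s ^ 2 := by
    have e : s ^ 2 = (Real.exp (4 * y))⁻¹ := by
      rw [hs, ← Real.exp_neg, ← Real.exp_nat_mul]
      congr 1
      push_cast; ring
    rw [e]
    have h4 := Real.add_one_le_exp (4 * y)
    have h5 : (Real.exp (4 * y))⁻¹ ≤ (4 * y + 1)⁻¹ := inv_anti₀ (by positivity) h4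
    have h6 : (4 * y + 1)⁻¹ ≤ 1 - 4 * y / 5 := by
      rw [inv_le_iff_one_le_mul₀ (by positivity)]
      nlinarith
    linarith
  have hMinv : (1 : ℝ) / M ≤ 2 * y := by
    rw [hy, div_le_iff₀ hMpos]
    have : (ν : ℝ) ≤ 2 * M := by exact_mod_cast hM1
    rw [show 2 * (1 / (ν : ℝ)) * M = (2 * M) / ν by ring, le_div_iff₀ hν0]
    linarith
  have hPy : Py (2 * y) t = (1 - s ^ 2) / ‖1 - (s : ℂ) * z‖ ^ 2 := rfl
  -- conclusion
  have hmain : ‖LK y M L t‖ * D ^ 2 ≤ 2 * y * ((Real.exp 6 + 1) * (Real.exp 6 * (Real.exp 9 + 1))) := by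
    have e : ‖LK y M L t‖ * D ^ 2 = (1 / M : ℝ) *
        ((‖∑ j ∈ Finset.range M, ((ρ : ℂ) * z) ^ j‖ * D) *
        (‖∑ l ∈ Finset.range L, ((ρ : ℂ) * z) ^ (l + 1)‖ * D)) := by
      unfold LK
      rw [norm_mul, norm_mul]
      have : ‖(1 / M : ℂ)‖ = (1 / M : ℝ) := by
        rw [norm_div, norm_one, Complex.norm_natCast]
      rw [this, ← hρ, ← hz]
      ring
    rw [e]
    refine mul_le_mul hMinv ?_ (by positivity) (by positivity)
    exact mul_le_mul hg1 hg2 (by positivity) (by positivity)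
  have hD2 : ‖1 - (s : ℂ) * z‖ ^ 2 / 4 ≤ D ^ 2 := by
    have := pow_le_pow_left₀ (by positivity) hDge 2
    calc ‖1 - (s : ℂ) * z‖ ^ 2 / 4 = (‖1 - (s : ℂ) * z‖ / 2) ^ 2 := by ring
      _ ≤ D ^ 2 := this
  have hW : 0 < ‖1 - (s : ℂ) * z‖ ^ 2 := by positivity
  rw [hPy, mul_div_assoc', le_div_iff₀ hW]
  calc ‖LK y M L t‖ * ‖1 - (s : ℂ) * z‖ ^ 2 ≤ ‖LK y M L t‖ * (4 * D ^ 2) := by
        gcongr; linarith
    _ = 4 * (‖LK y M L t‖ * D ^ 2) := by ring
    _ ≤ 4 * (2 * y * ((Real.exp 6 + 1) * (Real.exp 6 * (Real.exp 9 + 1)))) := by gcongr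
    _ = C0 * (4 * y / 5) := by unfold C0; ring
    _ ≤ C0 * (1 - s ^ 2) := mul_le_mul_of_nonneg_left hs2 C0_pos.le

end Pool.Agent.MP_1d9d5b_an
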