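import Mathlib
import Pool.Agent.Lib.MP_1d9d5b_an.Conv
import Pool.Agent.Lib.MP_1d9d5b_an.Poisson
import Pool.Agent.Lib.MP_1d9d5b_an.Bellman
import Pool.Agent.Lib.MP_1d9d5b_an.RieszProd
import Pool.Agent.Lib.MP_1d9d5b_an.Kernel

/-!
# The main estimate for products of analytic polynomials
-/

set_option autoImplicit false
set_option linter.unusedSectionVars false
set_option linter.unusedVariables false

open MeasureTheory AddCircle Complex Set
open scoped ComplexConjugate

noncomputable section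

namespace Pool.Agent.MP_1d9d5b_an

variable {T : ℝ} [hT : Fact (0 < T)]

/-- Evaluation of a polynomial on the circle of radius `r`. -/
def ev (F : Polynomial ℂ) (r : ℝ) (t : AddCircle T) : ℂ := F.eval ((r : ℂ) * fourier 1 t)

lemma ev_expand (F : Polynomial ℂ) (r : ℝ) {D : ℕ} (hD : F.natDegree < D) (t : AddCircle T) :
    ev F r t = ∑ j ∈ Finset.range D, (F.coeff j * (r : ℂ) ^ j) * fourier (j : ℤ) t := by
  unfold ev
  rw [Polynomial.eval_eq_sum_range' hD]
  refine Finset.sum_congr rfl fun j _ => ?_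
  rw [mul_pow, fourier_pow]
  ring

lemma ev_cont (F : Polynomial ℂ) (r : ℝ) : Continuous (ev (T := T) F r) := by
  unfold ev
  exact F.continuous.comp (continuous_const.mul (fourier 1).continuous)

lemma ev_mul (F G : Polynomial ℂ) (r : ℝ) (t : AddCircle T) : ev (F * G) r t = ev F r t * ev G r t := by
  unfold ev; rw [Polynomial.eval_mul]
lemma ev_add (F G : Polynomial ℂ) (r : ℝ) (t : AddCircle T) : ev (F + G) r t = ev F r t + ev G r t := by
  unfold ev; rw [Polynomial.eval_add]
lemma ev_sub (F G : Polynomial ℂ) (r : ℝ) (t : AddCircle T) : ev (F - G) r t = ev F r t - ev G r t := by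
  unfold ev; rw [Polynomial.eval_sub]

lemma cvc_ev (k : AddCircle T → ℂ) (hk : Continuous k) (F : Polynomial ℂ) (r : ℝ) {D : ℕ}
    (hD : F.natDegree < D) (t : AddCircle T) :
    cvc k (ev F r) t = ∑ j ∈ Finset.range D,
      (F.coeff j * (r : ℂ) ^ j) * (fourierCoeff k (j : ℤ) * fourier (j : ℤ) t) := by
  have e : ev (T := T) F r = fun t => ∑ j ∈ Finset.range D,
      (F.coeff j * (r : ℂ) ^ j) * fourier (j : ℤ) t := by
    ext t; exact ev_expand F r hD t
  have hcj : ∀ j ∈ Finset.range D, Continuous (fun t : AddCircle T =>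
      (F.coeff j * (r : ℂ) ^ j) * fourier (j : ℤ) t) :=
    fun j _ => continuous_const.mul (fourier _).continuous
  rw [e, cvc_sum_right _ hk hcj]
  refine Finset.sum_congr rfl fun j _ => ?_
  rw [cvc_mul_right, cvc_fourier]

lemma int_fourier_conj (φ : AddCircle T → ℂ) (j : ℤ) :
    ∫ t, fourier j t * conj (φ t) ∂haarAddCircle = conj (fourierCoeff φ j) := by
  unfold fourierCoeff
  rw [← integral_conj]
  congr 1
  ext t
  simp only [smul_eq_mul, map_mul]
  rw [fourier_conj, neg_neg]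

lemma pairing (k : AddCircle T → ℂ) (hk : Continuous k) (F : Polynomial ℂ) (r : ℝ) {D : ℕ}
    (hD : F.natDegree < D) {φ : AddCircle T → ℂ} (hφ : Continuous φ) :
    ∫ t, cvc k (ev F r) t * conj (φ t) ∂haarAddCircle
      = ∑ j ∈ Finset.range D,
        (F.coeff j * (r : ℂ) ^ j) * (fourierCoeff k (j : ℤ) * conj (fourierCoeff φ (j : ℤ))) := by
  have hcφ : Continuous (fun t => conj (φ t)) := Complex.continuous_conj.comp hφ
  have e : ∀ t, cvc k (ev F r) t * conj (φ t) = ∑ j ∈ Finset.range D,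
      (F.coeff j * (r : ℂ) ^ j * fourierCoeff k (j : ℤ)) * (fourier (j : ℤ) t * conj (φ t)) := by
    intro t
    rw [cvc_ev k hk F r hD, Finset.sum_mul]
    refine Finset.sum_congr rfl fun j _ => ?_
    ring
  simp_rw [e]
  rw [integral_finsetSum]
  · refine Finset.sum_congr rfl fun j _ => ?_
    rw [integral_const_mul, int_fourier_conj]
    ring
  · intro j _
    exact ci (continuous_const.mul ((fourier (j : ℤ)).continuous.mul hcφ))

lemma fourierCoeff_ev (F : Polynomial ℂ) (r : ℝ) (j : ℕ) :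
    fourierCoeff (ev (T := T) F r) (j : ℤ) = F.coeff j * (r : ℂ) ^ j := by
  set D := max F.natDegree j + 1 with hD
  have hD1 : F.natDegree < D := by omega
  have e : ev (T := T) F r = fun t => ∑ j ∈ Finset.range D,
      (F.coeff j * (r : ℂ) ^ j) * fourier (j : ℤ) t := by
    ext t; exact ev_expand F r hD1 t
  have hcj : ∀ j ∈ Finset.range D, Continuous (fun t : AddCircle T =>
      (F.coeff j * (r : ℂ) ^ j) * fourier (j : ℤ) t) :=
    fun j _ => continuous_const.mul (fourier _).continuous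
  rw [e, fourierCoeff_sum' _ hcj]
  rw [Finset.sum_eq_single j]
  · rw [fourierCoeff.const_mul, fourierCoeff_mono, if_pos rfl, mul_one]
  · intro l _ hl
    rw [fourierCoeff.const_mul, fourierCoeff_mono, if_neg (by exact_mod_cast Ne.symm hl), mul_zero]
  · intro h
    exfalso
    apply h
    rw [Finset.mem_range]; omega

lemma fourierCoeff_ev_neg (F : Polynomial ℂ) (r : ℝ) (m : ℤ) (hm : m < 0) :
    fourierCoeff (ev (T := T) F r) m = 0 := by
  have e : ev (T := T) F r = fun t => ∑ j ∈ Finset.range (F.natDegree + 1),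
      (F.coeff j * (r : ℂ) ^ j) * fourier (j : ℤ) t := by
    ext t; exact ev_expand F r (Nat.lt_succ_self _) t
  have hcj : ∀ j ∈ Finset.range (F.natDegree + 1), Continuous (fun t : AddCircle T =>
      (F.coeff j * (r : ℂ) ^ j) * fourier (j : ℤ) t) :=
    fun j _ => continuous_const.mul (fourier _).continuous
  rw [e, fourierCoeff_sum' _ hcj]
  refine Finset.sum_eq_zero fun l _ => ?_
  rw [fourierCoeff.const_mul, fourierCoeff_mono, if_neg (by omega), mul_zero]

/-- Parseval for polynomials. -/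
lemma parseval (F : Polynomial ℂ) (r : ℝ) {D : ℕ} (hD : F.natDegree < D) :
    ∫ t, ‖ev (T := T) F r t‖ ^ 2 ∂haarAddCircle
      = ∑ j ∈ Finset.range D, ‖F.coeff j‖ ^ 2 * (r ^ j) ^ 2 := by
  have h1 : ((∫ t, ‖ev (T := T) F r t‖ ^ 2 ∂haarAddCircle : ℝ) : ℂ)
      = ∫ t, ev (T := T) F r t * conj (ev (T := T) F r t) ∂haarAddCircle := by
    rw [← integral_complex_ofReal]
    congr 1
    ext t
    rw [Complex.mul_conj, Complex.normSq_eq_norm_sq]
  have e : ∀ t : AddCircle T, ev F r t * conj (ev F r t) = ∑ j ∈ Finset.range D,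
      (F.coeff j * (r : ℂ) ^ j) * (fourier (j : ℤ) t * conj (ev F r t)) := by
    intro t
    conv_lhs => rw [ev_expand F r hD]
    rw [Finset.sum_mul, ← ev_expand F r hD]
    refine Finset.sum_congr rfl fun j _ => ?_
    ring
  have hc : Continuous (fun t : AddCircle T => conj (ev F r t)) :=
    Complex.continuous_conj.comp (ev_cont F r)
  have h2 : ∫ t, ev (T := T) F r t * conj (ev (T := T) F r t) ∂haarAddCircle
      = ∑ j ∈ Finset.range D, ((‖F.coeff j‖ ^ 2 * (r ^ j) ^ 2 : ℝ) : ℂ) := by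
    simp_rw [e]
    rw [integral_finsetSum]
    · refine Finset.sum_congr rfl fun j _ => ?_
      rw [integral_const_mul, int_fourier_conj, fourierCoeff_ev, Complex.mul_conj,
        Complex.normSq_eq_norm_sq, norm_mul, norm_pow, Complex.norm_real]
      rw [mul_pow, Real.norm_eq_abs, ← abs_pow, sq_abs]
    · intro j _
      exact ci (continuous_const.mul ((fourier (j : ℤ)).continuous.mul hc))
  rw [h2] at h1
  exact_mod_cast h1

lemma cv_Py_ev (F : Polynomial ℂ) (r : ℝ) {y : ℝ} (hy : 0 < y) (t : AddCircle T) :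
    cv (Py y) (ev F r) t = ev F (Real.exp (-y) * r) t := by
  have hc : Continuous (fun t : AddCircle T => (Py y t : ℂ)) :=
    Complex.continuous_ofReal.comp (Py_cont hy)
  rw [← cvc_ofReal, cvc_ev _ hc F r (Nat.lt_succ_self _), ev_expand F _ (Nat.lt_succ_self _)]
  refine Finset.sum_congr rfl fun j _ => ?_
  have h := fourierCoeff_P (T := T) (exp_bd hy).1 (exp_bd hy).2 (j : ℤ)
  rw [Int.natAbs_natCast] at h
  change _ * (fourierCoeff (fun t : AddCircle T => (P (Real.exp (-y)) t : ℂ)) (j : ℤ) * _) = _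
  rw [h]
  push_cast
  rw [mul_pow]
  ring

/-- The high frequency part `4 j ≥ ν`. -/
def hi (ν : ℕ) (F : Polynomial ℂ) : Polynomial ℂ :=
  ∑ j ∈ (Finset.range (F.natDegree + 1)).filter (fun j => ν ≤ 4 * j),
    Polynomial.monomial j (F.coeff j)

lemma hi_coeff (ν : ℕ) (F : Polynomial ℂ) (j : ℕ) :
    (hi ν F).coeff j = if ν ≤ 4 * j then F.coeff j else 0 := by
  unfold hi
  rw [Polynomial.finsetSum_coeff]
  simp_rw [Polynomial.coeff_monomial]
  rw [Finset.sum_ite_eq' _ j]
  by_cases h : ν ≤ 4 * j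
  · rw [if_pos h]
    by_cases h2 : j < F.natDegree + 1
    · rw [if_pos (Finset.mem_filter.2 ⟨Finset.mem_range.2 h2, h⟩)]
    · rw [if_neg]
      · rw [Polynomial.coeff_eq_zero_of_natDegree_lt (by omega)]
      · intro h3
        exact h2 (Finset.mem_range.1 (Finset.mem_filter.1 h3).1)
  · rw [if_neg h, if_neg]
    intro h3
    exact h (Finset.mem_filter.1 h3).2

lemma hi_natDegree (ν : ℕ) (F : Polynomial ℂ) : (hi ν F).natDegree ≤ F.natDegree := by
  rw [Polynomial.natDegree_le_iff_coeff_eq_zero]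
  intro N hN
  rw [hi_coeff, Polynomial.coeff_eq_zero_of_natDegree_lt hN, ite_self]

/-- `q = gh - g^< h^<`. -/
def qq (ν : ℕ) (g h : Polynomial ℂ) : Polynomial ℂ :=
  hi ν g * h + g * hi ν h - hi ν g * hi ν h

lemma qq_coeff {n : ℕ → ℕ} (hn0 : ∀ k, 1 ≤ n k) (hn : ∀ k, 3 * n k ≤ n (k + 1)) (K : ℕ)
    (g h : Polynomial ℂ) (m : ℕ) (hm : n K ≤ m + NN n K) :
    (qq (n K) g h).coeff m = (g * h).coeff m := by
  have e : qq (n K) g h = g * h - (g - hi (n K) g) * (h - hi (n K) h) := by
    unfold qq; ring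
  rw [e, Polynomial.coeff_sub]
  have hz : ((g - hi (n K) g) * (h - hi (n K) h)).coeff m = 0 := by
    rw [Polynomial.coeff_mul]
    refine Finset.sum_eq_zero fun p hp => ?_
    have hp' := Finset.HasAntidiagonal.mem_antidiagonal.1 hp
    have hN := NN_lt hn0 hn K
    rw [Polynomial.coeff_sub, Polynomial.coeff_sub, hi_coeff, hi_coeff]
    by_cases h1 : n K ≤ 4 * p.1
    · rw [if_pos h1]; ring
    · by_cases h2 : n K ≤ 4 * p.2
      · rw [if_pos h2]; ring
      · exfalso; omega
  rw [hz, sub_zero]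

lemma sum_n_le {n : ℕ → ℕ} (hn0 : ∀ k, 1 ≤ n k) (hn : ∀ k, 3 * n k ≤ n (k + 1)) (X N : ℕ) :
    2 * ∑ K ∈ (Finset.range N).filter (fun K => n K ≤ X), n K ≤ 3 * X := by
  induction N with
  | zero => simp
  | succ N ih =>
    by_cases h : n N ≤ X
    · have h1 : ∑ K ∈ (Finset.range (N + 1)).filter (fun K => n K ≤ X), n K ≤ NN n (N + 1) :=
        Finset.sum_le_sum_of_subset (Finset.filter_subset _ _)
      rw [NN_succ] at h1
      have := NN_lt hn0 hn N
      omega
    · rw [Finset.range_add_one, Finset.filter_insert, if_neg h]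
      exact ih

/-- Step 3: `∑_K ‖G_K‖² ≤ ‖g‖²`. -/
lemma sum_hi_le {n : ℕ → ℕ} (hn0 : ∀ k, 1 ≤ n k) (hn : ∀ k, 3 * n k ≤ n (k + 1)) (M N : ℕ)
    (g : Polynomial ℂ) :
    ∑ K ∈ Finset.Ico M N, ∫ t, ‖ev (T := T) (hi (n K) g) (Real.exp (-(5 * (1 / (n K : ℝ))))) t‖ ^ 2
        ∂haarAddCircle ≤ ∫ t, ‖ev (T := T) g 1 t‖ ^ 2 ∂haarAddCircle := by
  set D := g.natDegree + 1 with hD
  have h1 : ∀ K, ∫ t, ‖ev (T := T) (hi (n K) g) (Real.exp (-(5 * (1 / (n K : ℝ))))) t‖ ^ 2
        ∂haarAddCircle = ∑ j ∈ Finset.range D, (if n K ≤ 4 * j then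
          ‖g.coeff j‖ ^ 2 * Real.exp (-(10 * j / n K)) else 0) := by
    intro K
    rw [parseval _ _ (D := D) (by have := hi_natDegree (n K) g; omega)]
    refine Finset.sum_congr rfl fun j _ => ?_
    rw [hi_coeff]
    split_ifs
    · congr 1
      rw [← Real.exp_nat_mul, ← Real.exp_nat_mul]
      congr 1
      push_cast; ring
    · simp
  simp_rw [h1]
  rw [parseval _ _ (D := D) (by omega), Finset.sum_comm]
  refine Finset.sum_le_sum fun j _ => ?_
  have h2 : ∀ K ∈ Finset.Ico M N, (if n K ≤ 4 * j then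
          ‖g.coeff j‖ ^ 2 * Real.exp (-(10 * j / n K)) else 0)
      ≤ if n K ≤ 4 * j then ‖g.coeff j‖ ^ 2 * ((n K : ℝ) / (10 * j)) else 0 := by
    intro K _
    split_ifs with h
    · have hnK : 0 < (n K : ℝ) := by exact_mod_cast hn0 K
      have hj : 0 < (j : ℝ) := by
        have : 1 ≤ j := by have := hn0 K; omega
        exact_mod_cast this
      apply mul_le_mul_of_nonneg_left _ (sq_nonneg _)
      rw [Real.exp_neg]
      have hx : 0 < 10 * (j : ℝ) / n K := by positivity
      have h3 : 10 * (j : ℝ) / n K ≤ Real.exp (10 * (j : ℝ) / n K) := by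
        linarith [Real.add_one_le_exp (10 * (j : ℝ) / n K)]
      calc (Real.exp (10 * (j : ℝ) / n K))⁻¹ ≤ (10 * (j : ℝ) / n K)⁻¹ := inv_anti₀ hx h3
        _ = (n K : ℝ) / (10 * j) := by rw [inv_div]
    · exact le_rfl
  refine (Finset.sum_le_sum h2).trans ?_
  rw [← Finset.sum_filter, ← Finset.mul_sum]
  rw [one_pow, one_pow, mul_one]
  apply mul_le_of_le_one_right (sq_nonneg _)
  rw [← Finset.sum_div]
  rcases Nat.eq_zero_or_pos j with hj | hj
  · subst hj
    simp
  · have hj' : 0 < (j : ℝ) := by exact_mod_cast hj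
    rw [div_le_one (by positivity)]
    have h4 : ∑ K ∈ (Finset.Ico M N).filter (fun K => n K ≤ 4 * j), n K
        ≤ ∑ K ∈ (Finset.range N).filter (fun K => n K ≤ 4 * j), n K := by
      apply Finset.sum_le_sum_of_subset
      intro K hK
      rw [Finset.mem_filter] at hK ⊢
      exact ⟨Finset.mem_range.2 (Finset.mem_Ico.1 hK.1).2, hK.2⟩
    have h5 := sum_n_le hn0 hn (4 * j) N
    have h6 : ∑ K ∈ (Finset.Ico M N).filter (fun K => n K ≤ 4 * j), n K ≤ 6 * j := by omega
    have h7 : (∑ K ∈ (Finset.Ico M N).filter (fun K => n K ≤ 4 * j), (n K : ℝ)) ≤ 6 * j := by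
      exact_mod_cast h6
    linarith

end Pool.Agent.MP_1d9d5b_an
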