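import Mathlib
import Pool.Agent.Lib.MP_1d9d5b_an.Main

/-!
# The main estimate for products of analytic polynomials, part 2
-/

set_option autoImplicit false
set_option linter.unusedSectionVars false
set_option linter.unusedVariables false

open MeasureTheory AddCircle Complex Set
open scoped ComplexConjugate

noncomputable section

namespace Pool.Agent.MP_1d9d5b_an

variable {T : ℝ} [hT : Fact (0 < T)]

/-- The function `L_K * u_{y_K}`. -/
def ft (n : ℕ → ℕ) (φ : AddCircle T → ℂ) (K : ℕ) : AddCircle T → ℂ :=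
  cvc (LK (1 / (n K : ℝ)) (n K - NN n K) (n K + NN n K)) (uu φ (1 / (n K : ℝ)))

lemma yK_pos {n : ℕ → ℕ} (hn0 : ∀ k, 1 ≤ n k) (K : ℕ) : 0 < 1 / (n K : ℝ) := by
  have : 0 < (n K : ℝ) := by exact_mod_cast hn0 K
  positivity

lemma ft_cont {n : ℕ → ℕ} (hn0 : ∀ k, 1 ≤ n k) {φ : AddCircle T → ℂ} (hφ : Continuous φ) (K : ℕ) :
    Continuous (ft n φ K) := cvc_cont (LK_cont _ _ _) (uu_cont hφ (yK_pos hn0 K))

lemma LK_bound' {n : ℕ → ℕ} (hn0 : ∀ k, 1 ≤ n k) (hn : ∀ k, 3 * n k ≤ n (k + 1)) (K : ℕ)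
    (t : AddCircle T) :
    ‖LK (1 / (n K : ℝ)) (n K - NN n K) (n K + NN n K) t‖ ≤ C0 * Py (2 * (1 / (n K : ℝ))) t := by
  have h := NN_lt hn0 hn K
  exact LK_bound (hn0 K) (by omega) (by omega) (by omega) t

lemma ft_le {n : ℕ → ℕ} (hn0 : ∀ k, 1 ≤ n k) (hn : ∀ k, 3 * n k ≤ n (k + 1))
    {φ : AddCircle T → ℂ} (hφ : Continuous φ) (hφ1 : ∀ t, ‖φ t‖ ≤ 1) (K : ℕ) (x : AddCircle T) :
    ‖ft n φ K x‖ ≤ C0 := by
  have hy := yK_pos hn0 K
  have h2y : 0 < 2 * (1 / (n K : ℝ)) := by linarith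
  have huc := uu_cont hφ hy
  refine (norm_cvc_le x).trans ?_
  have hc : Continuous (fun t : AddCircle T => C0 * Py (2 * (1 / (n K : ℝ))) t) :=
    continuous_const.mul (Py_cont h2y)
  refine (cv_mono_ker (LK_cont _ _ _).norm hc huc.norm (fun t => norm_nonneg _)
    (LK_bound' hn0 hn K) x).trans ?_
  rw [cv_smul_ker]
  have h1 := cv_le_one h2y huc.norm (uu_le hφ hφ1 hy) x
  have := C0_pos
  nlinarith

lemma fourierCoeff_uu {φ : AddCircle T → ℂ} (hφ : Continuous φ) {y : ℝ} (hy : 0 < y) (j : ℕ) :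
    fourierCoeff (uu φ y) (j : ℤ) = ((Real.exp (-(y * j)) : ℝ) : ℂ) * fourierCoeff φ (j : ℤ) := by
  have hc : Continuous (fun t : AddCircle T => (Py y t : ℂ)) :=
    Complex.continuous_ofReal.comp (Py_cont hy)
  unfold uu
  rw [← cvc_ofReal, fourierCoeff_cvc hc hφ]
  congr 1
  have h := fourierCoeff_P (T := T) (exp_bd hy).1 (exp_bd hy).2 (j : ℤ)
  rw [Int.natAbs_natCast] at h
  change fourierCoeff (fun t : AddCircle T => (P (Real.exp (-y)) t : ℂ)) (j : ℤ) = _
  rw [h, ← Complex.ofReal_pow, ← Real.exp_nat_mul]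
  congr 2
  ring

/-- Lemma A. -/
lemma blockA {n : ℕ → ℕ} {a : ℕ → ℂ} (hn0 : ∀ k, 1 ≤ n k) (hn : ∀ k, 3 * n k ≤ n (k + 1))
    {φ : AddCircle T → ℂ} (hφ : Continuous φ) (g h : Polynomial ℂ) (K : ℕ) :
    ∫ t, cvc (be n a K) (ev (g * h) 1) t * conj (φ t) ∂haarAddCircle
      = ∫ t, cvc (be n a K) (ev (qq (n K) g h) (Real.exp (-(5 * (1 / (n K : ℝ)))))) t
        * conj (ft n φ K t) ∂haarAddCircle := by
  set D := max (g * h).natDegree (qq (n K) g h).natDegree + 1 with hD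
  have hy := yK_pos hn0 K
  have hN := NN_lt hn0 hn K
  rw [pairing _ (be_cont K) (g * h) 1 (D := D) (by omega) hφ,
    pairing _ (be_cont K) (qq (n K) g h) _ (D := D) (by omega) (ft_cont hn0 hφ K)]
  refine Finset.sum_congr rfl fun j _ => ?_
  by_cases hj : n K ≤ j + NN n K ∧ j ≤ n K + NN n K
  · obtain ⟨h1, h2⟩ := hj
    rw [qq_coeff hn0 hn K g h j h1]
    have e1 : fourierCoeff (ft n φ K) (j : ℤ)
        = ((Real.exp (5 * (1 / (n K : ℝ)) * j) : ℝ) : ℂ) * fourierCoeff φ (j : ℤ) := by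
      unfold ft
      rw [fourierCoeff_cvc (LK_cont _ _ _) (uu_cont hφ hy),
        fourierCoeff_LK_mid _ (by omega) j (by omega) h2, fourierCoeff_uu hφ hy, ← mul_assoc,
        ← Complex.ofReal_mul, ← Real.exp_add]
      congr 3
      ring
    rw [e1, map_mul, Complex.conj_ofReal]
    have e2 : ((Real.exp (-(5 * (1 / (n K : ℝ)))) : ℝ) : ℂ) ^ j
        * ((Real.exp (5 * (1 / (n K : ℝ)) * j) : ℝ) : ℂ) = 1 := by
      rw [← Complex.ofReal_pow, ← Real.exp_nat_mul, ← Complex.ofReal_mul, ← Real.exp_add]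
      have : (j : ℝ) * -(5 * (1 / (n K : ℝ))) + 5 * (1 / (n K : ℝ)) * j = 0 := by ring
      rw [this, Real.exp_zero, Complex.ofReal_one]
    rw [Complex.ofReal_one, one_pow]
    linear_combination (-((g * h).coeff j * fourierCoeff (be (T := T) n a K) (j : ℤ)
      * conj (fourierCoeff φ (j : ℤ)))) * e2
  · have hz : fourierCoeff (be (T := T) n a K) (j : ℤ) = 0 := by
      apply be_supp
      push Not at hj
      by_cases h1 : n K ≤ j + NN n K
      · right
        have := hj h1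
        omega
      · left; omega
    rw [hz]
    ring

lemma half_ineq {p A B : AddCircle T → ℝ} (hp : Continuous p) (hp0 : ∀ t, 0 ≤ p t)
    (hA : Continuous A) (hB : Continuous B) {c : ℝ} (x : AddCircle T) :
    cv p (fun t => A t * B t) x * c
      ≤ 1 / 2 * (cv p (fun t => A t ^ 2) x + cv p (fun t => B t ^ 2) x * c ^ 2) := by
  have e1 : cv p (fun t => A t * B t) x * c = cv p (fun t => c * (A t * B t)) x := by
    rw [cv_mul_const]; ring
  have hA2 : Continuous (fun t => A t ^ 2) := hA.pow 2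
  have hB2 : Continuous (fun t => c ^ 2 * B t ^ 2) := continuous_const.mul (hB.pow 2)
  have hAB : Continuous (fun t => c * (A t * B t)) := continuous_const.mul (hA.mul hB)
  have hS : Continuous (fun t => A t ^ 2 + c ^ 2 * B t ^ 2) := hA2.add hB2
  have hS2 : Continuous (fun t => (1 / 2) * (A t ^ 2 + c ^ 2 * B t ^ 2)) := continuous_const.mul hS
  have e2 : 1 / 2 * (cv p (fun t => A t ^ 2) x + cv p (fun t => B t ^ 2) x * c ^ 2)
      = cv p (fun t => (1 / 2) * (A t ^ 2 + c ^ 2 * B t ^ 2)) x := by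
    rw [cv_mul_const, cv_add hp hA2 hB2, cv_mul_const]
    ring
  rw [e1, e2]
  refine cv_mono hp hAB hS2 hp0 (fun t => ?_) x
  nlinarith [sq_nonneg (A t - c * B t)]

/-- `E_K(f)`. -/
def EE (n : ℕ → ℕ) (a : ℕ → ℂ) (φ : AddCircle T → ℂ) (f : Polynomial ℂ) (K : ℕ) : ℝ :=
  ∫ x, cv (pp n a K) (fun t => ‖ev f (Real.exp (-(5 * (1 / (n K : ℝ))))) t‖ ^ 2) x
    * ‖ft n φ K x‖ ^ 2 ∂(haarAddCircle (T := T))

/-- `‖G_K‖²`. -/
def GG (T : ℝ) [hT : Fact (0 < T)] (n : ℕ → ℕ) (f : Polynomial ℂ) (K : ℕ) : ℝ :=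
  ∫ t, ‖ev (hi (n K) f) (Real.exp (-(5 * (1 / (n K : ℝ))))) t‖ ^ 2 ∂(haarAddCircle (T := T))

lemma blockB {n : ℕ → ℕ} {a : ℕ → ℂ} (hn0 : ∀ k, 1 ≤ n k) (hn : ∀ k, 3 * n k ≤ n (k + 1))
    (ha : ∀ k, ‖a k‖ ≤ 1) {φ : AddCircle T → ℂ} (hφ : Continuous φ) (hφ1 : ∀ t, ‖φ t‖ ≤ 1)
    (g h : Polynomial ℂ) (K : ℕ) :
    ‖∫ t, cvc (be n a K) (ev (qq (n K) g h) (Real.exp (-(5 * (1 / (n K : ℝ)))))) t
        * conj (ft n φ K t) ∂haarAddCircle‖
      ≤ ‖a K‖ / 2 * (1 / 2 * (GG T n g K + EE n a φ h K) + 1 / 2 * (GG T n h K + EE n a φ g K)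
        + C0 / 2 * (GG T n g K + GG T n h K)) := by
  set r := Real.exp (-(5 * (1 / (n K : ℝ)))) with hr
  have hpc := pp_cont (T := T) (n := n) (a := a) K
  have hp0 := pp_nonneg (T := T) (n := n) ha K
  have hfc := ft_cont hn0 hφ K
  have hqc := ev_cont (T := T) (qq (n K) g h) r
  set A : AddCircle T → ℝ := fun t => ‖ev (hi (n K) g) r t‖ with hA
  set B : AddCircle T → ℝ := fun t => ‖ev (hi (n K) h) r t‖ with hB
  set g5 : AddCircle T → ℝ := fun t => ‖ev g r t‖ with hg5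
  set h5 : AddCircle T → ℝ := fun t => ‖ev h r t‖ with hh5
  have hAc : Continuous A := (ev_cont _ r).norm
  have hBc : Continuous B := (ev_cont _ r).norm
  have hg5c : Continuous g5 := (ev_cont _ r).norm
  have hh5c : Continuous h5 := (ev_cont _ r).norm
  have hqle : ∀ t, ‖ev (qq (n K) g h) r t‖ ≤ (A t * h5 t + B t * g5 t) + A t * B t := by
    intro t
    unfold qq
    rw [ev_sub, ev_add, ev_mul, ev_mul, ev_mul]
    refine (norm_sub_le _ _).trans ?_
    refine add_le_add ((norm_add_le _ _).trans ?_) (norm_mul _ _).le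
    rw [norm_mul, norm_mul]
    have : ‖ev g r t‖ * ‖ev (hi (n K) h) r t‖ = B t * g5 t := mul_comm _ _
    rw [this]
  have h1c : Continuous (fun t => A t * h5 t) := hAc.mul hh5c
  have h2c : Continuous (fun t => B t * g5 t) := hBc.mul hg5c
  have h3c : Continuous (fun t => A t * B t) := hAc.mul hBc
  have h12c : Continuous (fun t => A t * h5 t + B t * g5 t) := h1c.add h2c
  have h123c : Continuous (fun t => (A t * h5 t + B t * g5 t) + A t * B t) := h12c.add h3c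
  have hA2 : Continuous (fun t => A t ^ 2) := hAc.pow 2
  have hB2 : Continuous (fun t => B t ^ 2) := hBc.pow 2
  have hg2 : Continuous (fun t => g5 t ^ 2) := hg5c.pow 2
  have hh2 : Continuous (fun t => h5 t ^ 2) := hh5c.pow 2
  -- pointwise bound
  have hpt : ∀ x, ‖cvc (be n a K) (ev (qq (n K) g h) r) x * conj (ft n φ K x)‖
      ≤ ‖a K‖ / 2 * (1 / 2 * (cv (pp n a K) (fun t => A t ^ 2) x
          + cv (pp n a K) (fun t => h5 t ^ 2) x * ‖ft n φ K x‖ ^ 2)
        + 1 / 2 * (cv (pp n a K) (fun t => B t ^ 2) x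
          + cv (pp n a K) (fun t => g5 t ^ 2) x * ‖ft n φ K x‖ ^ 2)
        + C0 / 2 * (cv (pp n a K) (fun t => A t ^ 2) x + cv (pp n a K) (fun t => B t ^ 2) x)) := by
    intro x
    rw [norm_mul, Complex.norm_conj]
    set c := ‖ft n φ K x‖ with hc
    have hc0 : 0 ≤ c := norm_nonneg _
    have hcC : c ≤ C0 := ft_le hn0 hn hφ hφ1 K x
    have s1 : ‖cvc (be n a K) (ev (qq (n K) g h) r) x‖
        ≤ ‖a K‖ / 2 * cv (pp n a K) (fun t => (A t * h5 t + B t * g5 t) + A t * B t) x := by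
      refine (norm_cvc_le x).trans ?_
      have e : (fun t => ‖be (T := T) n a K t‖) = fun t => ‖a K‖ / 2 * pp n a K t := by
        ext t; exact norm_be ha K t
      rw [e, cv_smul_ker]
      refine mul_le_mul_of_nonneg_left ?_ (by positivity)
      exact cv_mono hpc hqc.norm h123c hp0 hqle x
    have s2 : cv (pp n a K) (fun t => (A t * h5 t + B t * g5 t) + A t * B t) x
        = cv (pp n a K) (fun t => A t * h5 t) x + cv (pp n a K) (fun t => B t * g5 t) x
          + cv (pp n a K) (fun t => A t * B t) x := by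
      rw [cv_add hpc h12c h3c, cv_add hpc h1c h2c]
    have s3 := half_ineq hpc hp0 hAc hh5c (c := c) x
    have s4 := half_ineq hpc hp0 hBc hg5c (c := c) x
    have s5 := half_ineq hpc hp0 hAc hBc (c := 1) x
    have s6 : 0 ≤ cv (pp n a K) (fun t => A t * B t) x :=
      cv_nonneg hp0 (fun t => mul_nonneg (norm_nonneg _) (norm_nonneg _)) x
    have hC0 := C0_pos
    have s7 : cv (pp n a K) (fun t => A t * B t) x * c
        ≤ C0 / 2 * (cv (pp n a K) (fun t => A t ^ 2) x + cv (pp n a K) (fun t => B t ^ 2) x) := by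
      have : cv (pp n a K) (fun t => A t * B t) x * c ≤ cv (pp n a K) (fun t => A t * B t) x * C0 :=
        mul_le_mul_of_nonneg_left hcC s6
      nlinarith
    calc ‖cvc (be n a K) (ev (qq (n K) g h) r) x‖ * c
        ≤ (‖a K‖ / 2 * cv (pp n a K) (fun t => (A t * h5 t + B t * g5 t) + A t * B t) x) * c := by
          gcongr
      _ = ‖a K‖ / 2 * (cv (pp n a K) (fun t => A t * h5 t) x * c
          + cv (pp n a K) (fun t => B t * g5 t) x * c
          + cv (pp n a K) (fun t => A t * B t) x * c) := by rw [s2]; ring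
      _ ≤ _ := by
          refine mul_le_mul_of_nonneg_left ?_ (by positivity)
          linarith
  -- integrate
  have cA : Continuous (cv (pp n a K) (fun t => A t ^ 2)) := cv_cont hpc hA2
  have cB : Continuous (cv (pp n a K) (fun t => B t ^ 2)) := cv_cont hpc hB2
  have cg : Continuous (fun x => cv (pp n a K) (fun t => g5 t ^ 2) x * ‖ft n φ K x‖ ^ 2) :=
    (cv_cont hpc hg2).mul (nsq_cont hfc)
  have ch : Continuous (fun x => cv (pp n a K) (fun t => h5 t ^ 2) x * ‖ft n φ K x‖ ^ 2) :=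
    (cv_cont hpc hh2).mul (nsq_cont hfc)
  have iA : ∫ x, cv (pp n a K) (fun t => A t ^ 2) x ∂(haarAddCircle (T := T)) = GG T n g K := by
    rw [integral_cv hpc hA2, int_pp hn0 hn, one_smul]; rfl
  have iB : ∫ x, cv (pp n a K) (fun t => B t ^ 2) x ∂(haarAddCircle (T := T)) = GG T n h K := by
    rw [integral_cv hpc hB2, int_pp hn0 hn, one_smul]; rfl
  have hlc : Continuous (fun x => cvc (be n a K) (ev (qq (n K) g h) r) x * conj (ft n φ K x)) :=
    (cvc_cont (be_cont K) hqc).mul (Complex.continuous_conj.comp hfc)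
  refine (norm_integral_le_integral_norm _).trans ?_
  have hint := integral_mono (μ := haarAddCircle (T := T)) (ci hlc).norm
    (ci (by fun_prop : Continuous fun x => ‖a K‖ / 2 * (1 / 2 * (cv (pp n a K) (fun t => A t ^ 2) x
          + cv (pp n a K) (fun t => h5 t ^ 2) x * ‖ft n φ K x‖ ^ 2)
        + 1 / 2 * (cv (pp n a K) (fun t => B t ^ 2) x
          + cv (pp n a K) (fun t => g5 t ^ 2) x * ‖ft n φ K x‖ ^ 2)
        + C0 / 2 * (cv (pp n a K) (fun t => A t ^ 2) x + cv (pp n a K) (fun t => B t ^ 2) x)))) hpt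
  refine hint.trans_eq ?_
  have jA := ci cA
  have jB := ci cB
  have jg := ci cg
  have jh := ci ch
  rw [integral_const_mul]
  congr 1
  rw [integral_add, integral_add, integral_const_mul, integral_const_mul, integral_const_mul,
    integral_add jA jh, integral_add jB jg, integral_add jA jB, iA, iB]
  · rfl
  · exact (jA.add jh).const_mul _
  · exact (jB.add jg).const_mul _
  · exact ((jA.add jh).const_mul _).add ((jB.add jg).const_mul _)
  · exact (jA.add jB).const_mul _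

/-- Bound of `E_K(f)` by the Bellman sums. -/
lemma EE_le {n : ℕ → ℕ} {a : ℕ → ℂ} (hn0 : ∀ k, 1 ≤ n k) (hn : ∀ k, 3 * n k ≤ n (k + 1))
    (ha : ∀ k, ‖a k‖ ≤ 1) {φ : AddCircle T → ℂ} (hφ : Continuous φ) (f : Polynomial ℂ)
    (K d : ℕ) :
    EE n a φ f K ≤ 25 * ∫ x, cv (pp n a (K + d))
        (fun t => ‖cv (Py (4 * (1 / (n K : ℝ)))) (ev f 1) t‖ ^ 2) x
        * cv (Py (1 / (n K : ℝ))) (fun t => ‖ft n φ K t‖ ^ 2) x ∂(haarAddCircle (T := T)) := by
  set y : ℝ := 1 / (n K : ℝ) with hy_def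
  have hy : 0 < y := yK_pos hn0 K
  have h4y : 0 < 4 * y := by linarith
  have hpK := pp_cont (T := T) (n := n) (a := a) K
  have hpN := pp_cont (T := T) (n := n) (a := a) (K + d)
  have hp0 := pp_nonneg (T := T) (n := n) ha K
  have hPc := Py_cont (T := T) hy
  have hfc := ft_cont hn0 hφ K
  set F4 : AddCircle T → ℂ := cv (Py (4 * y)) (ev f 1) with hF4
  have hF4c : Continuous F4 := cv_cont (Py_cont h4y) (ev_cont f 1)
  have hF4n := nsq_cont hF4c
  have h5 : ∀ t, ev f (Real.exp (-(5 * y))) t = cv (Py y) F4 t := by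
    intro t
    rw [hF4, Py_Py hy h4y (ev_cont f 1), cv_Py_ev f 1 (by linarith)]
    congr 1
    rw [mul_one]
    congr 1
    ring
  have hc5 : Continuous (fun t : AddCircle T => ‖ev f (Real.exp (-(5 * y))) t‖ ^ 2) :=
    nsq_cont (ev_cont f _)
  have hQc : Continuous (cv (pp n a (K + d)) (fun t => ‖F4 t‖ ^ 2)) := cv_cont hpN hF4n
  have hbound : ∀ x, cv (pp n a K) (fun t => ‖ev f (Real.exp (-(5 * y))) t‖ ^ 2) x
      ≤ 25 * cv (Py y) (cv (pp n a (K + d)) (fun t => ‖F4 t‖ ^ 2)) x := by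
    intro x
    have hPF : Continuous (cv (Py y) (fun t => ‖F4 t‖ ^ 2)) := cv_cont hPc hF4n
    have s1 : cv (pp n a K) (fun t => ‖ev f (Real.exp (-(5 * y))) t‖ ^ 2) x
        ≤ cv (pp n a K) (cv (Py y) (fun t => ‖F4 t‖ ^ 2)) x := by
      refine cv_mono hpK hc5 hPF hp0 (fun t => ?_) x
      rw [h5 t]
      exact jensen_Py hy hF4c t
    have s2 : cv (pp n a K) (cv (Py y) (fun t => ‖F4 t‖ ^ 2)) x
        = cv (cv (pp n a K) (Py y)) (fun t => ‖F4 t‖ ^ 2) x := by
      rw [cv_assoc hpK hPc hF4n]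
    have hk1 : Continuous (cv (pp n a K) (Py y)) := cv_cont hpK hPc
    have hk2 : Continuous (cv (pp n a (K + d)) (Py y)) := cv_cont hpN hPc
    have hk3 : Continuous (fun t => 25 * cv (pp n a (K + d)) (Py y) t) := continuous_const.mul hk2
    have s3 : cv (cv (pp n a K) (Py y)) (fun t => ‖F4 t‖ ^ 2) x
        ≤ cv (fun t => 25 * cv (pp n a (K + d)) (Py y) t) (fun t => ‖F4 t‖ ^ 2) x :=
      cv_mono_ker hk1 hk3 hF4n (fun t => sq_nonneg _) (kernel_comparison hn0 hn ha K d) x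
    have s4 : cv (fun t => 25 * cv (pp n a (K + d)) (Py y) t) (fun t => ‖F4 t‖ ^ 2) x
        = 25 * cv (Py y) (cv (pp n a (K + d)) (fun t => ‖F4 t‖ ^ 2)) x := by
      rw [cv_smul_ker, ← cv_assoc hpN hPc hF4n, cv_comm hpN hPc hF4n]
    linarith
  have hPQc : Continuous (cv (Py y) (cv (pp n a (K + d)) (fun t => ‖F4 t‖ ^ 2))) := cv_cont hPc hQc
  have hc1 : Continuous (fun x => cv (pp n a K) (fun t => ‖ev f (Real.exp (-(5 * y))) t‖ ^ 2) x
    * ‖ft n φ K x‖ ^ 2) := (cv_cont hpK hc5).mul (nsq_cont hfc)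
  have hc2 : Continuous (fun x => 25 * (cv (Py y) (cv (pp n a (K + d)) (fun t => ‖F4 t‖ ^ 2)) x
    * ‖ft n φ K x‖ ^ 2)) := continuous_const.mul (hPQc.mul (nsq_cont hfc))
  calc EE n a φ f K ≤ ∫ x, 25 * (cv (Py y) (cv (pp n a (K + d)) (fun t => ‖F4 t‖ ^ 2)) x
        * ‖ft n φ K x‖ ^ 2) ∂(haarAddCircle (T := T)) := by
        refine integral_mono (ci hc1) (ci hc2) fun x => ?_
        have := mul_le_mul_of_nonneg_right (hbound x) (sq_nonneg ‖ft n φ K x‖)
        simp only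
        linarith
    _ = 25 * ∫ x, cv (Py y) (cv (pp n a (K + d)) (fun t => ‖F4 t‖ ^ 2)) x
        * ‖ft n φ K x‖ ^ 2 ∂(haarAddCircle (T := T)) := by rw [integral_const_mul]
    _ = _ := by
        rw [integral_cv_mul hPc hQc (nsq_cont hfc) (Py_even y)]

/-- The constant of the main estimate. -/
def C1 : ℝ := (1 + C0 + 100 * C0 ^ 2) / 4

lemma C1_pos : 0 < C1 := by
  have := C0_pos
  unfold C1; positivity

lemma cvc_conj_be {n : ℕ → ℕ} {a : ℕ → ℂ} (hn0 : ∀ k, 1 ≤ n k) (hn : ∀ k, 3 * n k ≤ n (k + 1))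
    (K : ℕ) (f : Polynomial ℂ) (x : AddCircle T) :
    cvc (fun t => conj (be n a K t)) (ev f 1) x = 0 := by
  have hc : Continuous (fun t : AddCircle T => conj (be n a K t)) :=
    Complex.continuous_conj.comp (be_cont K)
  rw [cvc_ev _ hc f 1 (Nat.lt_succ_self _)]
  refine Finset.sum_eq_zero fun j _ => ?_
  rw [fourierCoeff_conj, be_supp K]
  · simp
  · left
    have := NN_lt hn0 hn K
    omega

lemma cvc_pp_diff {n : ℕ → ℕ} {a : ℕ → ℂ} (hn0 : ∀ k, 1 ≤ n k) (hn : ∀ k, 3 * n k ≤ n (k + 1))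
    (M d : ℕ) (f : Polynomial ℂ) (x : AddCircle T) :
    cvc (fun t => (pp n a (M + d) t : ℂ) - (pp n a M t : ℂ)) (ev f 1) x
      = ∑ K ∈ Finset.Ico M (M + d), cvc (be n a K) (ev f 1) x := by
  induction d with
  | zero =>
    simp only [add_zero, sub_self, Finset.Ico_self, Finset.sum_empty]
    unfold cvc; simp
  | succ d ih =>
    have hfc := ev_cont (T := T) f 1
    have h1 : Continuous (fun t : AddCircle T => (pp n a (M + d) t : ℂ) - (pp n a M t : ℂ)) :=
      (pp_cont' _).sub (pp_cont' _)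
    have h2 : Continuous (fun t : AddCircle T => conj (be n a (M + d) t)) :=
      Complex.continuous_conj.comp (be_cont _)
    have h3 : Continuous (fun t : AddCircle T => be n a (M + d) t + conj (be n a (M + d) t)) :=
      (be_cont _).add h2
    have e : (fun t : AddCircle T => (pp n a (M + (d + 1)) t : ℂ) - (pp n a M t : ℂ))
        = fun t => ((pp n a (M + d) t : ℂ) - (pp n a M t : ℂ))
          + (be n a (M + d) t + conj (be n a (M + d) t)) := by
      ext t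
      rw [← add_assoc, pp_succ_be]
      ring
    rw [e, cvc_add_left h1 h3 hfc, ih, cvc_add_left (be_cont _) h2 hfc,
      cvc_conj_be hn0 hn (M + d) f x, add_zero, ← add_assoc, Finset.sum_Ico_succ_top (by omega)]

/-- **Main estimate**, dual form, for products of polynomials. -/
theorem main_dual {n : ℕ → ℕ} {a : ℕ → ℂ} (hn0 : ∀ k, 1 ≤ n k) (hn : ∀ k, 3 * n k ≤ n (k + 1))
    (ha : ∀ k, ‖a k‖ ≤ 1) {φ : AddCircle T → ℂ} (hφ : Continuous φ) (hφ1 : ∀ t, ‖φ t‖ ≤ 1)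
    (g h : Polynomial ℂ) (M d : ℕ) {α : ℝ} (hα : ∀ k, M ≤ k → ‖a k‖ ≤ α) :
    ‖∫ t, cvc (fun t => (pp n a (M + d) t : ℂ) - (pp n a M t : ℂ)) (ev (g * h) 1) t
        * conj (φ t) ∂haarAddCircle‖
      ≤ C1 * α * (∫ t, ‖ev (T := T) g 1 t‖ ^ 2 ∂haarAddCircle
        + ∫ t, ‖ev (T := T) h 1 t‖ ^ 2 ∂haarAddCircle) := by
  have hα0 : 0 ≤ α := (norm_nonneg _).trans (hα M le_rfl)
  have hcφ : Continuous (fun t => conj (φ t)) := Complex.continuous_conj.comp hφ
  have hfc := ev_cont (T := T) (g * h) 1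
  have e1 : ∀ t, cvc (fun t => (pp n a (M + d) t : ℂ) - (pp n a M t : ℂ)) (ev (g * h) 1) t
        * conj (φ t) = ∑ K ∈ Finset.Ico M (M + d), cvc (be n a K) (ev (g * h) 1) t * conj (φ t) := by
    intro t
    rw [cvc_pp_diff hn0 hn, Finset.sum_mul]
  simp_rw [e1]
  rw [integral_finsetSum]
  swap
  · intro K _
    exact ci ((cvc_cont (be_cont K) hfc).mul hcφ)
  refine (norm_sum_le _ _).trans ?_
  set Ig := ∫ t, ‖ev (T := T) g 1 t‖ ^ 2 ∂haarAddCircle with hIg
  set Ih := ∫ t, ‖ev (T := T) h 1 t‖ ^ 2 ∂haarAddCircle with hIh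
  have hGG0 : ∀ f K, 0 ≤ GG T n f K := fun f K => integral_nonneg fun t => sq_nonneg _
  have hEE0 : ∀ f K, 0 ≤ EE n a φ f K := fun f K => integral_nonneg fun x =>
    mul_nonneg (cv_nonneg (pp_nonneg ha K) (fun t => sq_nonneg _) x) (sq_nonneg _)
  have hC0 := C0_pos
  have hblock : ∀ K ∈ Finset.Ico M (M + d),
      ‖∫ t, cvc (be n a K) (ev (g * h) 1) t * conj (φ t) ∂(haarAddCircle (T := T))‖
      ≤ α / 2 * (1 / 2 * (GG T n g K + EE n a φ h K) + 1 / 2 * (GG T n h K + EE n a φ g K)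
        + C0 / 2 * (GG T n g K + GG T n h K)) := by
    intro K hK
    rw [blockA hn0 hn hφ g h K]
    refine (blockB hn0 hn ha hφ hφ1 g h K).trans ?_
    have h1 := hα K (Finset.mem_Ico.1 hK).1
    have := hGG0 g K
    have := hGG0 h K
    have := hEE0 g K
    have := hEE0 h K
    gcongr
  refine (Finset.sum_le_sum hblock).trans ?_
  -- sums
  have hGs : ∀ f, ∑ K ∈ Finset.Ico M (M + d), GG T n f K
      ≤ ∫ t, ‖ev (T := T) f 1 t‖ ^ 2 ∂haarAddCircle := fun f => sum_hi_le hn0 hn M (M + d) f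
  have hEs : ∀ f, ∑ K ∈ Finset.Ico M (M + d), EE n a φ f K
      ≤ 100 * C0 ^ 2 * ∫ t, ‖ev (T := T) f 1 t‖ ^ 2 ∂haarAddCircle := by
    intro f
    have hy3 : ∀ K, 3 * (1 / (n (K + 1) : ℝ)) ≤ 1 / (n K : ℝ) := by
      intro K
      have h1 : 0 < (n K : ℝ) := by exact_mod_cast hn0 K
      have h2 : 0 < (n (K + 1) : ℝ) := by exact_mod_cast hn0 (K + 1)
      rw [mul_one_div, div_le_div_iff₀ h2 h1]
      have : (3 * n K : ℝ) ≤ n (K + 1) := by exact_mod_cast hn K
      linarith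
    have hemb := embedding (T := T) (φ := φ) (y := fun K => 1 / (n K : ℝ)) (yK_pos hn0) hy3 hφ hφ1
      (p := pp n a (M + d)) (pp_cont _) (pp_nonneg ha _) (int_pp hn0 hn _) (ev_cont f 1)
      (L := fun K => LK (1 / (n K : ℝ)) (n K - NN n K) (n K + NN n K)) (fun K => LK_cont _ _ _)
      (fun K => int_LK _ _ _) C0_pos (LK_bound' hn0 hn) M (M + d)
    calc ∑ K ∈ Finset.Ico M (M + d), EE n a φ f K
        ≤ ∑ K ∈ Finset.Ico M (M + d), 25 * ∫ x, cv (pp n a (M + d))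
            (fun t => ‖cv (Py (4 * (1 / (n K : ℝ)))) (ev f 1) t‖ ^ 2) x
            * cv (Py (1 / (n K : ℝ))) (fun t => ‖ft n φ K t‖ ^ 2) x ∂(haarAddCircle (T := T)) := by
          refine Finset.sum_le_sum fun K hK => ?_
          have hK2 := Finset.mem_Ico.1 hK
          have h3 := EE_le hn0 hn ha hφ f K (M + d - K)
          have : K + (M + d - K) = M + d := by omega
          rwa [this] at h3
      _ = 25 * ∑ K ∈ Finset.Ico M (M + d), ∫ x, cv (pp n a (M + d))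
            (fun t => ‖cv (Py (4 * (1 / (n K : ℝ)))) (ev f 1) t‖ ^ 2) x
            * cv (Py (1 / (n K : ℝ))) (fun t => ‖ft n φ K t‖ ^ 2) x ∂(haarAddCircle (T := T)) := by
          rw [Finset.mul_sum]
      _ ≤ 25 * (4 * C0 ^ 2 * ∫ t, ‖ev (T := T) f 1 t‖ ^ 2 ∂haarAddCircle) :=
          mul_le_mul_of_nonneg_left hemb (by norm_num)
      _ = _ := by ring
  have hGg := hGs g
  have hGh := hGs h
  have hEg := hEs g
  have hEh := hEs h
  rw [← Finset.mul_sum]
  have esum : ∑ K ∈ Finset.Ico M (M + d), (1 / 2 * (GG T n g K + EE n a φ h K)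
        + 1 / 2 * (GG T n h K + EE n a φ g K) + C0 / 2 * (GG T n g K + GG T n h K))
      = 1 / 2 * (∑ K ∈ Finset.Ico M (M + d), GG T n g K + ∑ K ∈ Finset.Ico M (M + d), EE n a φ h K)
        + 1 / 2 * (∑ K ∈ Finset.Ico M (M + d), GG T n h K + ∑ K ∈ Finset.Ico M (M + d), EE n a φ g K)
        + C0 / 2 * (∑ K ∈ Finset.Ico M (M + d), GG T n g K
          + ∑ K ∈ Finset.Ico M (M + d), GG T n h K) := by
    simp only [Finset.sum_add_distrib, Finset.mul_sum, mul_add]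
  rw [esum]
  calc α / 2 * (1 / 2 * (∑ K ∈ Finset.Ico M (M + d), GG T n g K
          + ∑ K ∈ Finset.Ico M (M + d), EE n a φ h K)
        + 1 / 2 * (∑ K ∈ Finset.Ico M (M + d), GG T n h K
          + ∑ K ∈ Finset.Ico M (M + d), EE n a φ g K)
        + C0 / 2 * (∑ K ∈ Finset.Ico M (M + d), GG T n g K
          + ∑ K ∈ Finset.Ico M (M + d), GG T n h K))
      ≤ α / 2 * (1 / 2 * (Ig + 100 * C0 ^ 2 * Ih) + 1 / 2 * (Ih + 100 * C0 ^ 2 * Ig)
        + C0 / 2 * (Ig + Ih)) := by gcongr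
    _ = C1 * α * (Ig + Ih) := by unfold C1; ring

end Pool.Agent.MP_1d9d5b_an
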