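import Mathlib
import Pool.Agent.Lib.MP_1d9d5b_an.Main2

/-!
# Riesz factorisation of analytic polynomials and the `L¹` form of the main estimate
-/

set_option autoImplicit false
set_option linter.unusedSectionVars false
set_option linter.unusedVariables false

open MeasureTheory AddCircle Complex Set Filter Topology
open scoped ComplexConjugate

noncomputable section

namespace Pool.Agent.MP_1d9d5b_an

variable {T : ℝ} [hT : Fact (0 < T)]

/-- The disc algebra on the circle. -/
def DA (T : ℝ) [hT : Fact (0 < T)] : Subalgebra ℂ C(AddCircle T, ℂ) :=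
  (Algebra.adjoin ℂ {(fourier 1 : C(AddCircle T, ℂ))}).topologicalClosure

lemma fourier_mem_DA : (fourier 1 : C(AddCircle T, ℂ)) ∈ DA T :=
  Subalgebra.le_topologicalClosure _ (Algebra.subset_adjoin rfl)

lemma DA_closed : IsClosed (DA T : Set C(AddCircle T, ℂ)) :=
  Subalgebra.isClosed_topologicalClosure _

lemma const_mem_DA (c : ℂ) : (ContinuousMap.const (AddCircle T) c) ∈ DA T := by
  have := (DA T).algebraMap_mem c
  exact this

lemma hasSum_mem_DA {f : ℕ → C(AddCircle T, ℂ)} {g : C(AddCircle T, ℂ)} (hf : HasSum f g)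
    (h : ∀ n, f n ∈ DA T) : g ∈ DA T := by
  have : Tendsto (fun s : Finset ℕ => ∑ n ∈ s, f n) atTop (𝓝 g) := hf
  exact DA_closed.mem_of_tendsto this (Eventually.of_forall fun s =>
    (DA T).sum_mem fun n _ => h n)

/-- The exponential of an element of the disc algebra. -/
lemma exp_mem_DA {f : C(AddCircle T, ℂ)} (hf : f ∈ DA T) :
    ∃ g ∈ DA T, ∀ t, g t = Complex.exp (f t) := by
  have h := NormedSpace.exp_series_hasSum_exp' (𝕂 := ℂ) f
  refine ⟨NormedSpace.exp f, hasSum_mem_DA h fun n => (DA T).smul_mem ((DA T).pow_mem hf n) _, ?_⟩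
  intro t
  have h2 := (ContinuousMap.evalCLM ℂ t).hasSum h
  have h3 := NormedSpace.exp_series_hasSum_exp' (𝕂 := ℂ) (f t)
  rw [← Complex.exp_eq_exp_ℂ] at h3
  have h4 : (fun n : ℕ => (ContinuousMap.evalCLM ℂ t) (((n.factorial : ℂ))⁻¹ • f ^ n))
      = fun n : ℕ => ((n.factorial : ℂ))⁻¹ • (f t) ^ n := by
    ext n
    simp
  have h5 : HasSum (fun n : ℕ => ((n.factorial : ℂ))⁻¹ • (f t) ^ n)
      ((ContinuousMap.evalCLM ℂ t) (NormedSpace.exp f)) := by
    rw [← h4]; exact h2
  exact h5.unique h3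

/-- The logarithm of `1 - w z`. -/
lemma log_mem_DA {w : ℂ} (hw : ‖w‖ < 1) :
    ∃ L ∈ DA T, ∀ t, L t = Complex.log (1 - w * fourier 1 t) := by
  set x : C(AddCircle T, ℂ) := w • fourier 1 with hx
  have hxn : ‖x‖ = ‖w‖ := by rw [hx, norm_smul, fourier_norm, mul_one]
  have hs : Summable (fun n : ℕ => (1 / (n : ℂ)) • x ^ n) := by
    apply Summable.of_norm_bounded (g := fun n : ℕ => ‖w‖ ^ n)
      (summable_geometric_of_lt_one (norm_nonneg _) hw)
    intro n
    rw [norm_smul]
    have h1 : ‖(1 / (n : ℂ))‖ ≤ 1 := by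
      rw [norm_div, norm_one, Complex.norm_natCast]
      rcases Nat.eq_zero_or_pos n with h | h
      · subst h; simp
      · rw [div_le_one (by exact_mod_cast h)]; exact_mod_cast h
    calc ‖(1 / (n : ℂ))‖ * ‖x ^ n‖ ≤ 1 * ‖x ^ n‖ := by gcongr
      _ ≤ ‖x‖ ^ n := by rw [one_mul]; exact norm_pow_le x n
      _ = ‖w‖ ^ n := by rw [hxn]
  obtain ⟨S, hS⟩ := hs
  refine ⟨-S, (DA T).neg_mem (hasSum_mem_DA hS fun n => (DA T).smul_mem
    ((DA T).pow_mem ((DA T).smul_mem fourier_mem_DA _) n) _), ?_⟩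
  intro t
  have h2 := (ContinuousMap.evalCLM ℂ t).hasSum hS
  have hz : ‖w * fourier 1 t‖ < 1 := by rw [norm_mul, norm_fourier, mul_one]; exact hw
  have h3 := Complex.hasSum_taylorSeries_neg_log hz
  have h4 : (fun n : ℕ => (ContinuousMap.evalCLM ℂ t) ((1 / (n : ℂ)) • x ^ n))
      = fun n : ℕ => (w * fourier 1 t) ^ n / (n : ℂ) := by
    ext n
    rw [hx]
    simp only [one_div, map_smul, ContinuousMap.evalCLM_apply, ContinuousMap.pow_apply,
      ContinuousMap.smul_apply, smul_eq_mul]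
    ring
  have h5 : HasSum (fun n : ℕ => (w * fourier 1 t) ^ n / (n : ℂ))
      ((ContinuousMap.evalCLM ℂ t) S) := by
    rw [← h4]; exact h2
  have h6 := h5.unique h3
  simp only [ContinuousMap.evalCLM_apply] at h6
  rw [ContinuousMap.neg_apply, h6, neg_neg]

/-- Riesz factorisable functions. -/
def Fac (F : C(AddCircle T, ℂ)) : Prop :=
  ∃ g ∈ DA T, ∃ h ∈ DA T, F = g * h ∧ ∀ t, ‖g t‖ = ‖h t‖

lemma Fac.mul {F G : C(AddCircle T, ℂ)} (hF : Fac F) (hG : Fac G) : Fac (F * G) := by
  obtain ⟨g, hg, h, hh, rfl, he⟩ := hF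
  obtain ⟨g', hg', h', hh', rfl, he'⟩ := hG
  refine ⟨g * g', (DA T).mul_mem hg hg', h * h', (DA T).mul_mem hh hh', by ring, fun t => ?_⟩
  simp [he t, he' t]

lemma Fac_const (c : ℂ) : Fac (ContinuousMap.const (AddCircle T) c) := by
  rcases eq_or_ne c 0 with rfl | hc
  · exact ⟨ContinuousMap.const _ 0, const_mem_DA 0, ContinuousMap.const _ 0, const_mem_DA 0,
      by ext t; simp, fun t => rfl⟩
  · have hc' : 0 < ‖c‖ := norm_pos_iff.2 hc
    have hs : Real.sqrt ‖c‖ ≠ 0 := (Real.sqrt_pos.2 hc').ne'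
    refine ⟨ContinuousMap.const _ ((Real.sqrt ‖c‖ : ℝ) : ℂ), const_mem_DA _,
      ContinuousMap.const _ (c / ((Real.sqrt ‖c‖ : ℝ) : ℂ)), const_mem_DA _, ?_, fun t => ?_⟩
    · ext t
      simp only [ContinuousMap.const_apply, ContinuousMap.mul_apply]
      have : ((Real.sqrt ‖c‖ : ℝ) : ℂ) ≠ 0 := by exact_mod_cast hs
      field_simp
    · simp only [ContinuousMap.const_apply]
      rw [norm_div, Complex.norm_real, Real.norm_of_nonneg (Real.sqrt_nonneg _), eq_div_iff hs,
        Real.mul_self_sqrt hc'.le]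

lemma Fac_linear {c : ℂ} (hc : ‖c‖ ≠ 1) :
    Fac ((fourier 1 : C(AddCircle T, ℂ)) - ContinuousMap.const (AddCircle T) c) := by
  rcases lt_or_gt_of_ne hc with h | h
  · -- |c| < 1
    obtain ⟨L, hL, hLt⟩ := log_mem_DA (T := T) (w := conj c) (by rwa [Complex.norm_conj])
    obtain ⟨E, hE, hEt⟩ := exp_mem_DA ((DA T).smul_mem hL (1 / 2 : ℂ))
    obtain ⟨E', hE', hEt'⟩ := exp_mem_DA ((DA T).smul_mem hL (-1 / 2 : ℂ))
    have hne : ∀ t : AddCircle T, 1 - conj c * fourier 1 t ≠ 0 := by
      intro t h0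
      have : ‖conj c * fourier 1 t‖ = 1 := by
        rw [← sub_eq_zero.1 h0, norm_one]
      rw [norm_mul, norm_fourier, Complex.norm_conj, mul_one] at this
      linarith
    have hEE : ∀ t, E' t * E t = 1 := by
      intro t
      rw [hEt, hEt', ← Complex.exp_add]
      simp only [ContinuousMap.smul_apply, smul_eq_mul]
      have : (-1 / 2 : ℂ) * L t + 1 / 2 * L t = 0 := by ring
      rw [this, Complex.exp_zero]
    have hE2 : ∀ t, E t * E t = 1 - conj c * fourier 1 t := by
      intro t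
      rw [hEt, ← Complex.exp_add]
      simp only [ContinuousMap.smul_apply, smul_eq_mul]
      have : (1 / 2 : ℂ) * L t + 1 / 2 * L t = L t := by ring
      rw [this, hLt, Complex.exp_log (hne t)]
    refine ⟨(fourier 1 - ContinuousMap.const (AddCircle T) c) * E',
      (DA T).mul_mem ((DA T).sub_mem fourier_mem_DA (const_mem_DA c)) hE', E, hE, ?_, ?_⟩
    · ext t
      simp only [ContinuousMap.mul_apply, mul_assoc, hEE t, mul_one]
    · intro t
      simp only [ContinuousMap.mul_apply, ContinuousMap.sub_apply, ContinuousMap.const_apply]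
      rw [norm_mul]
      have h1 : ‖(fourier 1 t : ℂ) - c‖ = ‖E t‖ * ‖E t‖ := by
        rw [← norm_mul, hE2]
        have hz : (fourier 1 t : ℂ) * conj (fourier 1 t : ℂ) = 1 := by
          rw [Complex.mul_conj, Complex.normSq_eq_norm_sq, norm_fourier]; norm_num
        have : (fourier 1 t : ℂ) - c = fourier 1 t * conj (1 - conj c * fourier 1 t) := by
          rw [map_sub, map_one, map_mul, Complex.conj_conj]
          linear_combination c * hz
        rw [this, norm_mul, norm_fourier, one_mul, Complex.norm_conj]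
      have h2 : ‖E' t‖ * ‖E t‖ = 1 := by rw [← norm_mul, hEE, norm_one]
      rw [h1]
      calc ‖E t‖ * ‖E t‖ * ‖E' t‖ = ‖E t‖ * (‖E' t‖ * ‖E t‖) := by ring
        _ = ‖E t‖ := by rw [h2, mul_one]
  · -- |c| > 1
    have hc0 : c ≠ 0 := by
      rintro rfl; simp at h; linarith
    have hc' : 0 < ‖c‖ := norm_pos_iff.2 hc0
    obtain ⟨L, hL, hLt⟩ := log_mem_DA (T := T) (w := c⁻¹) (by
      rw [norm_inv]; exact inv_lt_one_of_one_lt₀ h)
    obtain ⟨E, hE, hEt⟩ := exp_mem_DA ((DA T).smul_mem hL (1 / 2 : ℂ))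
    have hne : ∀ t : AddCircle T, 1 - c⁻¹ * fourier 1 t ≠ 0 := by
      intro t h0
      have : ‖c⁻¹ * fourier 1 t‖ = 1 := by
        rw [← sub_eq_zero.1 h0, norm_one]
      rw [norm_mul, norm_fourier, norm_inv, mul_one, inv_eq_one] at this
      linarith
    have hE2 : E * E = ContinuousMap.const _ 1 - c⁻¹ • fourier 1 := by
      ext t
      simp only [ContinuousMap.mul_apply, ContinuousMap.sub_apply, ContinuousMap.const_apply,
        ContinuousMap.smul_apply, smul_eq_mul]
      rw [hEt, ← Complex.exp_add]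
      simp only [ContinuousMap.smul_apply, smul_eq_mul]
      have : (1 / 2 : ℂ) * L t + 1 / 2 * L t = L t := by ring
      rw [this, hLt, Complex.exp_log (hne t)]
    have hfac : Fac (E * E) := ⟨E, hE, E, hE, rfl, fun t => rfl⟩
    have := (Fac_const (T := T) (-c)).mul hfac
    convert this using 1
    rw [hE2]
    ext t
    simp only [ContinuousMap.mul_apply, ContinuousMap.sub_apply, ContinuousMap.const_apply,
      ContinuousMap.smul_apply, smul_eq_mul]
    field_simp
    ring

/-- `ev F r` as a continuous map. -/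
def evC (F : Polynomial ℂ) (r : ℝ) : C(AddCircle T, ℂ) := ⟨ev F r, ev_cont F r⟩

lemma evC_one (F : Polynomial ℂ) : evC (T := T) F 1 = Polynomial.aeval (fourier 1) F := by
  ext t
  have h : (Polynomial.aeval (fourier 1 : C(AddCircle T, ℂ)) F) t
      = Polynomial.aeval (fourier 1 t : ℂ) F := by
    have := Polynomial.aeval_algHom_apply (ContinuousMap.evalAlgHom ℂ ℂ t)
      (fourier 1 : C(AddCircle T, ℂ)) F
    exact this.symm
  rw [h]
  change Polynomial.eval (((1 : ℝ) : ℂ) * fourier 1 t) F = _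
  rw [Complex.ofReal_one, one_mul, Polynomial.coe_aeval_eq_eval]

lemma Fac_poly (F : Polynomial ℂ) (hF : ∀ c ∈ F.roots, ‖c‖ ≠ 1) : Fac (evC (T := T) F 1) := by
  rw [evC_one, (IsAlgClosed.splits F).eq_prod_roots, map_mul, Polynomial.aeval_C]
  refine Fac.mul (Fac_const _) ?_
  have : ∀ s : Multiset ℂ, (∀ c ∈ s, ‖c‖ ≠ 1) → Fac (Polynomial.aeval (fourier 1 : C(AddCircle T, ℂ))
      (Multiset.map (fun x => Polynomial.X - Polynomial.C x) s).prod) := by
    intro s
    induction s using Multiset.induction_on with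
    | empty =>
      intro _
      have := Fac_const (T := T) 1
      convert this using 1
      ext t; simp
    | cons c s ih =>
      intro hs
      rw [Multiset.map_cons, Multiset.prod_cons, map_mul]
      refine Fac.mul ?_ (ih fun x hx => hs x (Multiset.mem_cons_of_mem hx))
      rw [map_sub, Polynomial.aeval_X, Polynomial.aeval_C]
      exact Fac_linear (hs c (Multiset.mem_cons_self _ _))
  exact this _ hF

/-- elements of the disc algebra are limits of polynomials -/
lemma DA_closure : (DA T : Set C(AddCircle T, ℂ)) = closure (range fun F : Polynomial ℂ => evC F 1) := by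
  unfold DA
  rw [Subalgebra.topologicalClosure_coe, Algebra.adjoin_singleton_eq_range_aeval]
  congr 1
  ext f
  simp only [SetLike.mem_coe, AlgHom.mem_range, mem_range, evC_one]

/-! ### Continuity in `C(𝕋)` -/

section continuity

variable {E : Type*} [NormedAddCommGroup E] [NormedSpace ℝ E]

lemma continuous_int : Continuous (fun f : C(AddCircle T, E) => ∫ t, f t ∂haarAddCircle) := by
  have : LipschitzWith 1 (fun f : C(AddCircle T, E) => ∫ t, f t ∂haarAddCircle) := by
    apply LipschitzWith.of_dist_le_mul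
    intro f g
    rw [dist_eq_norm, dist_eq_norm, ← integral_sub (ci f.continuous) (ci g.continuous)]
    refine (norm_integral_le_integral_norm _).trans ?_
    have h1 : ∫ t, ‖f t - g t‖ ∂(haarAddCircle (T := T)) ≤ ∫ t, ‖f - g‖ ∂(haarAddCircle (T := T)) := by
      refine integral_mono (ci (f.continuous.sub g.continuous).norm) (integrable_const _) fun t => ?_
      exact (f - g).norm_coe_le_norm t
    simpa using h1
  exact this.continuous

/-- Convolution as an operator on `C(𝕋)`. -/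
def Kop (k : C(AddCircle T, ℂ)) (f : C(AddCircle T, ℂ)) : C(AddCircle T, ℂ) :=
  ⟨cvc k f, cvc_cont k.continuous f.continuous⟩

lemma Kop_cont (k : C(AddCircle T, ℂ)) : Continuous (Kop k) := by
  have : LipschitzWith (‖k‖₊) (Kop k) := by
    apply LipschitzWith.of_dist_le_mul
    intro f g
    rw [ContinuousMap.dist_le (by positivity)]
    intro x
    rw [dist_eq_norm, dist_eq_norm]
    change ‖cvc k f x - cvc k g x‖ ≤ _
    rw [← cvc_sub_right k.continuous f.continuous g.continuous]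
    unfold cvc
    refine (norm_integral_le_integral_norm _).trans ?_
    have h1 : ∫ t, ‖k t * (f (x - t) - g (x - t))‖ ∂(haarAddCircle (T := T))
        ≤ ∫ t, ‖k‖ * ‖f - g‖ ∂(haarAddCircle (T := T)) := by
      refine integral_mono (ci (by fun_prop)) (integrable_const _) fun t => ?_
      simp only
      rw [norm_mul]
      exact mul_le_mul (k.norm_coe_le_norm t) ((f - g).norm_coe_le_norm _) (norm_nonneg _)
        (norm_nonneg _)
    simpa using h1
  exact this.continuous

lemma continuous_int_norm : Continuous (fun f : C(AddCircle T, ℂ) => ∫ t, ‖f t‖ ∂haarAddCircle) := by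
  have h1 : Continuous (fun f : C(AddCircle T, ℂ) =>
      (⟨fun z : ℂ => ‖z‖, continuous_norm⟩ : C(ℂ, ℝ)).comp f) :=
    ContinuousMap.continuous_postcomp _
  exact (continuous_int (T := T) (E := ℝ)).comp h1

lemma continuous_int_sq : Continuous (fun f : C(AddCircle T, ℂ) => ∫ t, ‖f t‖ ^ 2 ∂haarAddCircle) := by
  have h1 : Continuous (fun f : C(AddCircle T, ℂ) =>
      (⟨fun z : ℂ => ‖z‖ ^ 2, continuous_norm.pow 2⟩ : C(ℂ, ℝ)).comp f) :=
    ContinuousMap.continuous_postcomp _
  exact (continuous_int (T := T) (E := ℝ)).comp h1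

end continuity

/-- Duality between `L¹` and continuous functions. -/
lemma duality {Φ : AddCircle T → ℂ} (hΦ : Continuous Φ) {B : ℝ}
    (h : ∀ φ : AddCircle T → ℂ, Continuous φ → (∀ t, ‖φ t‖ ≤ 1) →
      ‖∫ t, Φ t * conj (φ t) ∂haarAddCircle‖ ≤ B) :
    ∫ t, ‖Φ t‖ ∂haarAddCircle ≤ B := by
  refine le_of_forall_pos_le_add fun ε hε => ?_
  have hden : ∀ t, 0 < ‖Φ t‖ + ε := fun t => by positivity
  set φ : AddCircle T → ℂ := fun t => Φ t / ((‖Φ t‖ + ε : ℝ) : ℂ) with hφ
  have hφc : Continuous φ := by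
    apply hΦ.div (Complex.continuous_ofReal.comp (hΦ.norm.add continuous_const))
    intro t
    have h0 : ((‖Φ t‖ + ε : ℝ) : ℂ) ≠ 0 := by exact_mod_cast (hden t).ne'
    exact h0
  have hφ1 : ∀ t, ‖φ t‖ ≤ 1 := by
    intro t
    rw [hφ]
    simp only
    rw [norm_div, Complex.norm_real, Real.norm_of_nonneg (hden t).le, div_le_one (hden t)]
    linarith
  have h1 := h φ hφc hφ1
  have h2 : ∀ t, Φ t * conj (φ t) = ((‖Φ t‖ ^ 2 / (‖Φ t‖ + ε) : ℝ) : ℂ) := by
    intro t
    rw [hφ]
    simp only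
    rw [map_div₀, Complex.conj_ofReal, ← mul_div_assoc, Complex.mul_conj,
      Complex.normSq_eq_norm_sq, ← Complex.ofReal_div]
  simp_rw [h2] at h1
  rw [integral_complex_ofReal, Complex.norm_real] at h1
  have h3 : ∀ t, ‖Φ t‖ - ε ≤ ‖Φ t‖ ^ 2 / (‖Φ t‖ + ε) := by
    intro t
    rw [le_div_iff₀ (hden t)]
    nlinarith
  have hc1 : Continuous (fun t => ‖Φ t‖ - ε) := hΦ.norm.sub continuous_const
  have hc2 : Continuous (fun t => ‖Φ t‖ ^ 2 / (‖Φ t‖ + ε)) :=
    (hΦ.norm.pow 2).div (hΦ.norm.add continuous_const) fun t => (hden t).ne'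
  have h4 := integral_mono (ci hc1) (ci hc2) h3
  rw [integral_sub (ci hΦ.norm) (integrable_const _)] at h4
  simp only [integral_const, probReal_univ, smul_eq_mul, one_mul] at h4
  have h5 := le_abs_self (∫ t, ‖Φ t‖ ^ 2 / (‖Φ t‖ + ε) ∂(haarAddCircle (T := T)))
  rw [Real.norm_eq_abs] at h1
  linarith

/-- The difference kernel. -/
def kd (T : ℝ) [hT : Fact (0 < T)] (n : ℕ → ℕ) (a : ℕ → ℂ) (M d : ℕ) : C(AddCircle T, ℂ) :=
  ⟨fun t => (pp n a (M + d) t : ℂ) - (pp n a M t : ℂ), (pp_cont' _).sub (pp_cont' _)⟩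

/-- **Main estimate**, `L¹` form. -/
theorem main_L1 {n : ℕ → ℕ} {a : ℕ → ℂ} (hn0 : ∀ k, 1 ≤ n k) (hn : ∀ k, 3 * n k ≤ n (k + 1))
    (ha : ∀ k, ‖a k‖ ≤ 1) (F : Polynomial ℂ) (M d : ℕ) {α : ℝ} (hα : ∀ k, M ≤ k → ‖a k‖ ≤ α) :
    ∫ t, ‖Kop (kd T n a M d) (evC F 1) t‖ ∂haarAddCircle
      ≤ 2 * C1 * α * ∫ t, ‖evC (T := T) F 1 t‖ ∂haarAddCircle := by
  set k := kd T n a M d with hk
  -- step 1 : products of elements of the disc algebra
  have step1 : ∀ φ : AddCircle T → ℂ, Continuous φ → (∀ t, ‖φ t‖ ≤ 1) → ∀ g ∈ DA T, ∀ h ∈ DA T,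
      ‖∫ t, Kop k (g * h) t * conj (φ t) ∂(haarAddCircle (T := T))‖
        ≤ C1 * α * (∫ t, ‖g t‖ ^ 2 ∂(haarAddCircle (T := T))
          + ∫ t, ‖h t‖ ^ 2 ∂(haarAddCircle (T := T))) := by
    intro φ hφ hφ1 g hg h hh
    set cφ : C(AddCircle T, ℂ) := ⟨fun t => conj (φ t), Complex.continuous_conj.comp hφ⟩ with hcφ
    set S : Set (C(AddCircle T, ℂ) × C(AddCircle T, ℂ)) :=
      {p | ‖∫ t, (Kop k (p.1 * p.2) * cφ) t ∂(haarAddCircle (T := T))‖
        ≤ C1 * α * (∫ t, ‖p.1 t‖ ^ 2 ∂(haarAddCircle (T := T))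
          + ∫ t, ‖p.2 t‖ ^ 2 ∂(haarAddCircle (T := T)))} with hS
    have hScl : IsClosed S := by
      apply isClosed_le
      · have h1 : Continuous (fun p : C(AddCircle T, ℂ) × C(AddCircle T, ℂ) =>
            Kop k (p.1 * p.2) * cφ) :=
          ((Kop_cont k).comp (continuous_fst.mul continuous_snd)).mul continuous_const
        exact ((continuous_int (T := T) (E := ℂ)).comp h1).norm
      · exact continuous_const.mul (((continuous_int_sq).comp continuous_fst).add
          ((continuous_int_sq).comp continuous_snd))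
    have hsub : (range fun F : Polynomial ℂ => evC (T := T) F 1) ×ˢ
        (range fun F : Polynomial ℂ => evC (T := T) F 1) ⊆ S := by
      rintro ⟨_, _⟩ ⟨⟨G, rfl⟩, ⟨H, rfl⟩⟩
      have h1 := main_dual hn0 hn ha hφ hφ1 G H M d hα
      have h2 : evC (T := T) G 1 * evC H 1 = evC (G * H) 1 := by
        ext t
        exact (ev_mul G H 1 t).symm
      rw [hS]
      simp only [mem_ofPred_eq]
      rw [h2]
      exact h1
    have hcl := closure_minimal hsub hScl
    rw [closure_prod_eq, ← DA_closure] at hcl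
    have hmem : (g, h) ∈ (DA T : Set C(AddCircle T, ℂ)) ×ˢ (DA T : Set C(AddCircle T, ℂ)) :=
      Set.mk_mem_prod hg hh
    have hres := hcl hmem
    rw [hS] at hres
    exact hres
  -- step 2 : factorisable functions
  have step2 : ∀ f : C(AddCircle T, ℂ), Fac f →
      ∫ t, ‖Kop k f t‖ ∂(haarAddCircle (T := T)) ≤ 2 * C1 * α * ∫ t, ‖f t‖ ∂(haarAddCircle (T := T)) := by
    rintro f ⟨g, hg, h, hh, rfl, he⟩
    apply duality (Kop k (g * h)).continuous
    intro φ hφ hφ1
    refine (step1 φ hφ hφ1 g hg h hh).trans_eq ?_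
    have e1 : ∀ t, ‖g t‖ ^ 2 = ‖(g * h) t‖ := by
      intro t
      rw [ContinuousMap.mul_apply, norm_mul, ← he t]; ring
    have e2 : ∀ t, ‖h t‖ ^ 2 = ‖(g * h) t‖ := by
      intro t
      rw [ContinuousMap.mul_apply, norm_mul, he t]; ring
    simp_rw [e1, e2]
    ring
  -- step 3 : dilations
  set S : Set C(AddCircle T, ℂ) := {f | ∫ t, ‖Kop k f t‖ ∂(haarAddCircle (T := T))
    ≤ 2 * C1 * α * ∫ t, ‖f t‖ ∂(haarAddCircle (T := T))} with hS
  have hScl : IsClosed S :=
    isClosed_le (continuous_int_norm.comp (Kop_cont k)) (continuous_const.mul continuous_int_norm)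
  have hcont : Continuous (fun r : ℝ => evC (T := T) F r) := by
    have e : (fun r : ℝ => evC (T := T) F r) = fun r : ℝ => ∑ j ∈ Finset.range (F.natDegree + 1),
        (F.coeff j * (r : ℂ) ^ j) • (fourier (j : ℤ) : C(AddCircle T, ℂ)) := by
      ext r t
      have := ev_expand (T := T) F r (Nat.lt_succ_self _) t
      simp only [ContinuousMap.coe_sum, Finset.sum_apply, ContinuousMap.smul_apply, smul_eq_mul]
      exact this
    rw [e]
    refine continuous_finsetSum _ fun j _ => ?_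
    exact (continuous_const.mul (Complex.continuous_ofReal.pow j)).smul continuous_const
  have hmem : ∀ᶠ r : ℝ in 𝓝[≠] 1, evC (T := T) F r ∈ S := by
    have hfin : (F.roots.toFinset.image (fun c => ‖c‖) : Set ℝ).Finite := Finset.finite_toSet _
    have h1 : ∀ᶠ r : ℝ in 𝓝[≠] 1, r ∉ ((F.roots.toFinset.image (fun c => ‖c‖) : Finset ℝ) : Set ℝ) := by
      have h2 : ((((F.roots.toFinset.image (fun c => ‖c‖) : Finset ℝ) : Set ℝ)) \ {1})ᶜ ∈ 𝓝 (1 : ℝ) := by
        apply IsOpen.mem_nhds
        · exact ((Finset.finite_toSet _).sdiff).isClosed.isOpen_compl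
        · simp
      filter_upwards [mem_nhdsWithin_of_mem_nhds h2, self_mem_nhdsWithin] with r hr hr1
      intro hr2
      exact hr ⟨hr2, hr1⟩
    have h3 : ∀ᶠ r : ℝ in 𝓝[≠] 1, 0 < r :=
      mem_nhdsWithin_of_mem_nhds (lt_mem_nhds one_pos)
    filter_upwards [h1, h3] with r hr hr0
    apply step2
    -- the dilated polynomial
    set G : Polynomial ℂ := F.comp (Polynomial.C (r : ℂ) * Polynomial.X) with hG
    have hGe : evC (T := T) F r = evC G 1 := by
      ext t
      change F.eval ((r : ℂ) * fourier 1 t) = G.eval (((1 : ℝ) : ℂ) * fourier 1 t)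
      rw [hG, Polynomial.eval_comp]
      simp
    rw [hGe]
    apply Fac_poly
    intro c hc hc1
    apply hr
    have hroot : G.IsRoot c := Polynomial.isRoot_of_mem_roots hc
    have hG0 : G ≠ 0 := by
      rintro h0; rw [h0] at hc; simp at hc
    have hF0 : F ≠ 0 := by
      rintro h0; apply hG0; rw [hG, h0]; simp
    have hroot2 : F.IsRoot ((r : ℂ) * c) := by
      rw [Polynomial.IsRoot, hG, Polynomial.eval_comp] at hroot
      simpa using hroot
    rw [Finset.coe_image]
    refine ⟨(r : ℂ) * c, ?_, ?_⟩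
    · rw [Finset.mem_coe, Multiset.mem_toFinset, Polynomial.mem_roots hF0]
      exact hroot2
    · simp only
      rw [norm_mul, hc1, mul_one, Complex.norm_real, Real.norm_of_nonneg hr0.le]
  have htend : Tendsto (fun r : ℝ => evC (T := T) F r) (𝓝[≠] 1) (𝓝 (evC F 1)) :=
    (hcont.tendsto 1).mono_left nhdsWithin_le_nhds
  exact hScl.mem_of_tendsto htend hmem

end Pool.Agent.MP_1d9d5b_an
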