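import Mathlib
import Pool.Agent.Lib.MP_1d9d5b_an.Factor

/-!
# Convolution operators on `L¹(𝕋)` and `H¹(𝕋)`
-/

set_option autoImplicit false
set_option linter.unusedSectionVars false
set_option linter.unusedVariables false

open MeasureTheory AddCircle Complex Set Filter Topology
open scoped ComplexConjugate ENNReal

noncomputable section

namespace Pool.Agent.MP_1d9d5b_an

variable {T : ℝ} [hT : Fact (0 < T)]

/-- `L¹(𝕋)`. -/
abbrev L1c (T : ℝ) [hT : Fact (0 < T)] := Lp ℂ 1 (haarAddCircle (T := T))

/-- Convolution of the measure `k ν` with a function. -/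
def conv (ν : Measure (AddCircle T)) (k f : AddCircle T → ℂ) (x : AddCircle T) : ℂ :=
  ∫ t, k t * f (x - t) ∂ν

section conv

variable {ν : Measure (AddCircle T)} [IsFiniteMeasure ν] {k f g : AddCircle T → ℂ}

lemma ciν {E : Type*} [NormedAddCommGroup E] {f : AddCircle T → E} (hf : Continuous f) :
    Integrable f ν :=
  hf.integrable_of_hasCompactSupport (HasCompactSupport.of_compactSpace f)

lemma mp_sub : MeasurePreserving (fun z : AddCircle T × AddCircle T => (z.1 - z.2, z.2))
    ((haarAddCircle (T := T)).prod ν) ((haarAddCircle (T := T)).prod ν) :=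
  measurePreserving_sub_prod _ _

lemma qmp_sub : Measure.QuasiMeasurePreserving (fun z : AddCircle T × AddCircle T => z.1 - z.2)
    ((haarAddCircle (T := T)).prod ν) (haarAddCircle (T := T)) :=
  Measure.quasiMeasurePreserving_fst.comp (mp_sub (ν := ν)).quasiMeasurePreserving

lemma conv_prod_int (hk : Continuous k) (hf : Integrable f (haarAddCircle (T := T))) :
    Integrable (fun p : AddCircle T × AddCircle T => k p.2 * f (p.1 - p.2))
      ((haarAddCircle (T := T)).prod ν) := by
  have h1 : Integrable (fun p : AddCircle T × AddCircle T => f p.1 * k p.2)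
      ((haarAddCircle (T := T)).prod ν) := hf.mul_prod (ciν hk)
  have h2 := (mp_sub (T := T) (ν := ν)).integrable_comp_of_integrable h1
  refine h2.congr (Eventually.of_forall fun p => ?_)
  simp only [Function.comp_apply]
  ring

lemma conv_int (hk : Continuous k) (hf : Integrable f (haarAddCircle (T := T))) :
    Integrable (conv ν k f) (haarAddCircle (T := T)) :=
  (conv_prod_int (ν := ν) hk hf).integral_prod_left

lemma conv_congr (h : f =ᵐ[haarAddCircle (T := T)] g) :
    conv ν k f =ᵐ[haarAddCircle (T := T)] conv ν k g := by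
  have h1 := (qmp_sub (T := T) (ν := ν)).ae_eq_comp h
  have h2 := Measure.ae_ae_of_ae_prod h1
  filter_upwards [h2] with x hx
  unfold conv
  refine integral_congr_ae ?_
  filter_upwards [hx] with t ht
  simp only [Function.comp_apply] at ht
  rw [ht]

lemma conv_add (hk : Continuous k) (hf : Integrable f (haarAddCircle (T := T)))
    (hg : Integrable g (haarAddCircle (T := T))) :
    conv ν k (f + g) =ᵐ[haarAddCircle (T := T)] conv ν k f + conv ν k g := by
  have h1 := (conv_prod_int (ν := ν) hk hf).prod_right_ae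
  have h2 := (conv_prod_int (ν := ν) hk hg).prod_right_ae
  filter_upwards [h1, h2] with x hx1 hx2
  simp only [Pi.add_apply]
  unfold conv
  rw [← integral_add hx1 hx2]
  congr 1
  ext t
  simp only [Pi.add_apply]
  ring

lemma conv_smul (c : ℂ) : conv ν k (c • f) = c • conv ν k f := by
  ext x
  simp only [Pi.smul_apply, smul_eq_mul]
  unfold conv
  rw [← integral_const_mul]
  congr 1
  ext t
  simp only [Pi.smul_apply, smul_eq_mul]
  ring

lemma conv_norm_le (hk : Continuous k) (hf : Integrable f (haarAddCircle (T := T))) :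
    ∫ x, ‖conv ν k f x‖ ∂(haarAddCircle (T := T))
      ≤ (∫ t, ‖k t‖ ∂ν) * ∫ x, ‖f x‖ ∂(haarAddCircle (T := T)) := by
  have h0 := conv_prod_int (ν := ν) hk hf
  have h1 : ∫ x, ‖conv ν k f x‖ ∂(haarAddCircle (T := T))
      ≤ ∫ x, ∫ t, ‖k t * f (x - t)‖ ∂ν ∂(haarAddCircle (T := T)) := by
    refine integral_mono (conv_int hk hf).norm h0.norm.integral_prod_left fun x => ?_
    exact norm_integral_le_integral_norm _
  refine h1.trans_eq ?_
  have h2 := integral_prod _ h0.norm
  rw [← h2]
  have h3 : (fun p : AddCircle T × AddCircle T => ‖k p.2 * f (p.1 - p.2)‖)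
      = (fun p : AddCircle T × AddCircle T => ‖f p.1‖ * ‖k p.2‖) ∘ (fun z => (z.1 - z.2, z.2)) := by
    ext p
    simp only [Function.comp_apply, norm_mul]
    ring
  rw [h3]
  have hmeas : AEStronglyMeasurable (fun p : AddCircle T × AddCircle T => ‖f p.1‖ * ‖k p.2‖)
      ((haarAddCircle (T := T)).prod ν) := (hf.norm.mul_prod (ciν hk).norm).aestronglyMeasurable
  have h4 := integral_map (mp_sub (T := T) (ν := ν)).measurable.aemeasurable
    (by rw [(mp_sub (T := T) (ν := ν)).map_eq]; exact hmeas)
  rw [(mp_sub (T := T) (ν := ν)).map_eq] at h4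
  simp only [Function.comp_def]
  rw [← h4, integral_prod_mul (fun x => ‖f x‖) (fun t => ‖k t‖)]
  ring

lemma fourierCoeff_conv (hk : Continuous k) (hf : Integrable f (haarAddCircle (T := T))) (n : ℤ) :
    fourierCoeff (conv ν k f) n = (∫ t, fourier (-n) t * k t ∂ν) * fourierCoeff f n := by
  unfold fourierCoeff
  set F : AddCircle T × AddCircle T → ℂ := fun p => (fourier (-n) p.1 * f p.1) * (fourier (-n) p.2 * k p.2)
    with hF
  have hfn : Integrable (fun x => (fourier (-n) x : ℂ) * f x) (haarAddCircle (T := T)) :=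
    hf.fourier_smul (-n)
  have hkn : Integrable (fun t => (fourier (-n) t : ℂ) * k t) ν :=
    ciν ((fourier (-n)).continuous.mul hk)
  have hFi : Integrable F ((haarAddCircle (T := T)).prod ν) := hfn.mul_prod hkn
  have hFe := (mp_sub (T := T) (ν := ν)).integrable_comp_of_integrable hFi
  have e1 : ∀ p : AddCircle T × AddCircle T, (F ∘ fun z => (z.1 - z.2, z.2)) p
      = fourier (-n) p.1 * (k p.2 * f (p.1 - p.2)) := by
    intro p
    simp only [Function.comp_apply, hF]
    have : (fourier (-n) (p.1 - p.2) : ℂ) * fourier (-n) p.2 = fourier (-n) p.1 := by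
      rw [fourier_sub, neg_neg, mul_assoc, ← fourier_add]
      simp
    linear_combination (f (p.1 - p.2) * k p.2) * this
  have e2 : ∫ x, (fourier (-n) x : ℂ) • conv ν k f x ∂(haarAddCircle (T := T))
      = ∫ p, (F ∘ fun z => (z.1 - z.2, z.2)) p ∂((haarAddCircle (T := T)).prod ν) := by
    rw [integral_prod _ hFe]
    congr 1
    ext x
    unfold conv
    rw [smul_eq_mul, ← integral_const_mul]
    congr 1
    ext t
    rw [e1]
  rw [e2]
  have h4 := integral_map (mp_sub (T := T) (ν := ν)).measurable.aemeasurable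
    (f := F) (by rw [(mp_sub (T := T) (ν := ν)).map_eq]; exact hFi.aestronglyMeasurable)
  rw [(mp_sub (T := T) (ν := ν)).map_eq] at h4
  simp only [Function.comp_def]
  rw [← h4, hF, integral_prod_mul (fun x => (fourier (-n) x : ℂ) * f x)
    (fun t => (fourier (-n) t : ℂ) * k t)]
  simp only [smul_eq_mul]
  ring

end conv

/-- The operator `f ↦ (k ν) * f` on `L¹(𝕋)`. -/
def TL (ν : Measure (AddCircle T)) [IsFiniteMeasure ν] (k : C(AddCircle T, ℂ)) :
    L1c T →L[ℂ] L1c T :=
  LinearMap.mkContinuous
    { toFun := fun f => (conv_int (ν := ν) k.continuous (L1.integrable_coeFn f)).toL1 _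
      map_add' := by
        intro f g
        rw [← Integrable.toL1_add, Integrable.toL1_eq_toL1_iff]
        have h1 := conv_congr (ν := ν) (k := k) (Lp.coeFn_add f g)
        exact h1.trans (conv_add k.continuous (L1.integrable_coeFn f) (L1.integrable_coeFn g))
      map_smul' := by
        intro c f
        rw [RingHom.id_apply, ← Integrable.toL1_smul, Integrable.toL1_eq_toL1_iff]
        have h1 := conv_congr (ν := ν) (k := k) (Lp.coeFn_smul c f)
        rw [conv_smul] at h1
        exact h1 }
    (∫ t, ‖k t‖ ∂ν) (by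
      intro f
      rw [L1.norm_eq_integral_norm, L1.norm_eq_integral_norm]
      refine le_trans (le_of_eq ?_) (conv_norm_le (ν := ν) k.continuous (L1.integrable_coeFn f))
      refine integral_congr_ae ?_
      filter_upwards [(conv_int (ν := ν) k.continuous (L1.integrable_coeFn f)).coeFn_toL1] with x hx
      exact congrArg norm hx)

section TL

variable {ν : Measure (AddCircle T)} [IsFiniteMeasure ν]

lemma TL_coe (k : C(AddCircle T, ℂ)) (f : L1c T) :
    (TL ν k f : AddCircle T → ℂ) =ᵐ[haarAddCircle (T := T)] conv ν k f :=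
  (conv_int (ν := ν) k.continuous (L1.integrable_coeFn f)).coeFn_toL1

lemma TL_norm_le (k : C(AddCircle T, ℂ)) : ‖TL ν k‖ ≤ ∫ t, ‖k t‖ ∂ν :=
  LinearMap.mkContinuous_norm_le _ (integral_nonneg fun _ => norm_nonneg _) _

lemma fourierCoeff_TL (k : C(AddCircle T, ℂ)) (f : L1c T) (n : ℤ) :
    fourierCoeff (TL ν k f : AddCircle T → ℂ) n
      = (∫ t, fourier (-n) t * k t ∂ν) * fourierCoeff (f : AddCircle T → ℂ) n := by
  rw [fourierCoeff_congr_ae (TL_coe k f)]
  exact fourierCoeff_conv k.continuous (L1.integrable_coeFn f) n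

end TL

/-- The Fourier coefficient functionals on `L¹`. -/
def fcL (n : ℤ) : L1c T →L[ℂ] ℂ :=
  LinearMap.mkContinuous
    { toFun := fun f => fourierCoeff (f : AddCircle T → ℂ) n
      map_add' := by
        intro f g
        rw [fourierCoeff_congr_ae (Lp.coeFn_add f g),
          fourierCoeff.add (L1.integrable_coeFn f) (L1.integrable_coeFn g)]
        rfl
      map_smul' := by
        intro c f
        rw [fourierCoeff_congr_ae (Lp.coeFn_smul c f), fourierCoeff.const_smul]
        rfl }
    1 (by
      intro f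
      rw [L1.norm_eq_integral_norm, one_mul]
      change ‖fourierCoeff (f : AddCircle T → ℂ) n‖ ≤ _
      unfold fourierCoeff
      refine (norm_integral_le_integral_norm _).trans_eq ?_
      congr 1
      ext t
      rw [norm_smul, norm_fourier, one_mul])

lemma fcL_apply (n : ℤ) (f : L1c T) : fcL n f = fourierCoeff (f : AddCircle T → ℂ) n := rfl

/-- The Hardy space `H¹(𝕋)`. -/
def H1 (T : ℝ) [hT : Fact (0 < T)] : Submodule ℂ (L1c T) where
  carrier := {f | ∀ n : ℤ, n < 0 → fourierCoeff (f : AddCircle T → ℂ) n = 0}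
  add_mem' := by
    intro f g hf hg n hn
    change fcL n (f + g) = 0
    rw [map_add, fcL_apply, fcL_apply, hf n hn, hg n hn, add_zero]
  zero_mem' := by
    intro n hn
    change fcL n 0 = 0
    rw [map_zero]
  smul_mem' := by
    intro c f hf n hn
    change fcL n (c • f) = 0
    rw [map_smul, fcL_apply, hf n hn, smul_zero]

lemma H1_closed : IsClosed (H1 T : Set (L1c T)) := by
  have : (H1 T : Set (L1c T)) = ⋂ n : ℤ, ⋂ _ : n < 0, (fcL (T := T) n) ⁻¹' {0} := by
    ext f
    simp only [mem_iInter, mem_preimage, mem_singleton_iff]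
    rfl
  rw [this]
  exact isClosed_iInter fun n => isClosed_iInter fun _ =>
    isClosed_singleton.preimage (fcL (T := T) n).continuous

instance : CompleteSpace (H1 T) := H1_closed.completeSpace_coe

/-- Convolution operators on `H¹`. -/
def TH (ν : Measure (AddCircle T)) [IsFiniteMeasure ν] (k : C(AddCircle T, ℂ)) :
    H1 T →L[ℂ] H1 T :=
  ((TL ν k).comp (H1 T).subtypeL).codRestrict (H1 T) (by
    intro f n hn
    change fourierCoeff (TL ν k (f : L1c T) : AddCircle T → ℂ) n = 0
    rw [fourierCoeff_TL, f.2 n hn, mul_zero])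

lemma TH_coe {ν : Measure (AddCircle T)} [IsFiniteMeasure ν] (k : C(AddCircle T, ℂ)) (f : H1 T) :
    ((TH ν k f : H1 T) : L1c T) = TL ν k (f : L1c T) := rfl

/-- Continuous functions as elements of `L¹`. -/
def toL (f : C(AddCircle T, ℂ)) : L1c T := (ci f.continuous).toL1 f

lemma toL_coe (f : C(AddCircle T, ℂ)) : (toL f : AddCircle T → ℂ) =ᵐ[haarAddCircle (T := T)] f :=
  (ci f.continuous).coeFn_toL1

lemma norm_toL (f : C(AddCircle T, ℂ)) : ‖toL f‖ = ∫ t, ‖f t‖ ∂(haarAddCircle (T := T)) := by
  rw [L1.norm_eq_integral_norm]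
  refine integral_congr_ae ?_
  filter_upwards [toL_coe f] with x hx
  rw [hx]

lemma toL_add (f g : C(AddCircle T, ℂ)) : toL (f + g) = toL f + toL g := by
  unfold toL
  exact Integrable.toL1_add f g (ci f.continuous) (ci g.continuous)

lemma toL_smul (c : ℂ) (f : C(AddCircle T, ℂ)) : toL (c • f) = c • toL f := by
  unfold toL
  exact Integrable.toL1_smul (f := f) (ci f.continuous) c

/-- `toL` as a linear map. -/
def toLlin : C(AddCircle T, ℂ) →ₗ[ℂ] L1c T where
  toFun := toL
  map_add' := toL_add
  map_smul' := toL_smul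

lemma fourierCoeff_toL (f : C(AddCircle T, ℂ)) (n : ℤ) :
    fourierCoeff (toL f : AddCircle T → ℂ) n = fourierCoeff f n :=
  congrFun (fourierCoeff_congr_ae (toL_coe f)) n

lemma toL_fourier_dense : Dense (Submodule.span ℂ (range fun n : ℤ => toL (fourier (T := T) n)) : Set (L1c T)) := by
  have h := span_fourierLp_closure_eq_top (T := T) (p := 1) (by norm_num)
  rw [← Submodule.dense_iff_topologicalClosure_eq_top] at h
  have e : (fun n : ℤ => toL (fourier (T := T) n)) = fourierLp 1 := by
    ext1 n
    apply Lp.ext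
    exact (toL_coe (fourier (T := T) n)).trans (coeFn_fourierLp 1 n).symm
  rw [e]
  exact h

lemma conv_fourier (ν : Measure (AddCircle T)) (k : AddCircle T → ℂ) (n : ℤ) :
    conv ν k (fourier n) = fun x => (∫ t, fourier (-n) t * k t ∂ν) * fourier n x := by
  ext x
  unfold conv
  rw [← integral_mul_const]
  congr 1
  ext t
  rw [fourier_sub]
  ring

lemma TL_fourier {ν : Measure (AddCircle T)} [IsFiniteMeasure ν] (k : C(AddCircle T, ℂ)) (n : ℤ) :
    TL ν k (toL (fourier n)) = (∫ t, fourier (-n) t * k t ∂ν) • toL (fourier (T := T) n) := by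
  have h1 := TL_coe (ν := ν) k (toL (fourier n))
  have h2 := conv_congr (ν := ν) (k := k) (toL_coe (fourier (T := T) n))
  rw [conv_fourier] at h2
  apply Lp.ext
  refine h1.trans (h2.trans ?_)
  have h3 := Lp.coeFn_smul (∫ t, fourier (-n) t * k t ∂ν) (toL (fourier (T := T) n))
  refine EventuallyEq.trans ?_ h3.symm
  filter_upwards [toL_coe (fourier (T := T) n)] with x hx
  rw [Pi.smul_apply, hx]
  rfl

/-- For trigonometric kernels. -/
lemma TL_haar_sum {ι : Type*} (s : Finset ι) (c : ι → ℂ) (m : ι → ℤ) (k : C(AddCircle T, ℂ))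
    (hk : ∀ t, k t = ∑ i ∈ s, c i * fourier (m i) t) (f : L1c T) :
    TL haarAddCircle k f
      = ∑ i ∈ s, (c i * fourierCoeff (f : AddCircle T → ℂ) (m i)) • toL (fourier (T := T) (m i)) := by
  apply Lp.ext
  refine (TL_coe k f).trans ?_
  have h1 : ∀ x, conv haarAddCircle k f x
      = ∑ i ∈ s, (c i * fourierCoeff (f : AddCircle T → ℂ) (m i)) * fourier (m i) x := by
    intro x
    unfold conv
    have h2 : ∀ t, k t * (f : AddCircle T → ℂ) (x - t)
        = ∑ i ∈ s, c i * (fourier (m i) t * (f : AddCircle T → ℂ) (x - t)) := by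
      intro t
      rw [hk t, Finset.sum_mul]
      refine Finset.sum_congr rfl fun i _ => ?_
      ring
    simp_rw [h2]
    have hint : Integrable (fun t => (f : AddCircle T → ℂ) (x - t)) (haarAddCircle (T := T)) :=
      (L1.integrable_coeFn f).comp_sub_left x
    rw [integral_finsetSum]
    · refine Finset.sum_congr rfl fun i _ => ?_
      rw [integral_const_mul]
      have h3 : ∫ t, fourier (m i) t * (f : AddCircle T → ℂ) (x - t) ∂(haarAddCircle (T := T))
          = fourierCoeff (f : AddCircle T → ℂ) (m i) * fourier (m i) x := by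
        unfold fourierCoeff
        rw [← int_sub_left (fun t => fourier (m i) t * (f : AddCircle T → ℂ) (x - t)) x,
          ← integral_mul_const]
        congr 1
        ext t
        rw [sub_sub_cancel, fourier_sub, smul_eq_mul]
        ring
      rw [h3]; ring
    · intro i _
      exact (hint.fourier_smul (m i)).const_mul _
  have h4 : (conv haarAddCircle k f)
      = fun x => ∑ i ∈ s, (c i * fourierCoeff (f : AddCircle T → ℂ) (m i)) * fourier (m i) x :=
    funext h1
  rw [h4]
  have h5 : (fun x => ∑ i ∈ s, (c i * fourierCoeff (f : AddCircle T → ℂ) (m i)) * fourier (m i) x)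
      =ᵐ[haarAddCircle (T := T)] toL (∑ i ∈ s, (c i * fourierCoeff (f : AddCircle T → ℂ) (m i)) •
        fourier (T := T) (m i)) := by
    refine EventuallyEq.trans ?_ (toL_coe _).symm
    refine Eventually.of_forall fun x => ?_
    simp
  refine h5.trans ?_
  have h6 : toL (∑ i ∈ s, (c i * fourierCoeff (f : AddCircle T → ℂ) (m i)) • fourier (T := T) (m i))
      = ∑ i ∈ s, (c i * fourierCoeff (f : AddCircle T → ℂ) (m i)) • toL (fourier (T := T) (m i)) := by
    have := map_sum (toLlin (T := T))
      (fun i => (c i * fourierCoeff (f : AddCircle T → ℂ) (m i)) • fourier (T := T) (m i)) s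
    simp only [map_smul] at this
    exact this
  rw [h6]

end Pool.Agent.MP_1d9d5b_an
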