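import Mathlib
import Pool.Agent.Lib.MP_1d9d5b_an.Oper

/-!
# Density of analytic polynomials in `H¹` and the spectrum
-/

set_option autoImplicit false
set_option linter.unusedSectionVars false
set_option linter.unusedVariables false

open MeasureTheory AddCircle Complex Set Filter Topology
open scoped ComplexConjugate ENNReal

noncomputable section

namespace Pool.Agent.MP_1d9d5b_an

variable {T : ℝ} [hT : Fact (0 < T)]

/-! ### Fejér kernels -/

/-- The Fejér kernel. -/
def Fj (T : ℝ) [hT : Fact (0 < T)] (M : ℕ) : C(AddCircle T, ℂ) :=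
  ⟨fun t => (((1 / M : ℝ) * ‖∑ j ∈ Finset.range M, (fourier (j : ℤ) t : ℂ)‖ ^ 2 : ℝ) : ℂ), by
    refine Complex.continuous_ofReal.comp (continuous_const.mul ?_)
    have h : Continuous (fun t : AddCircle T => ∑ j ∈ Finset.range M, (fourier (j : ℤ) t : ℂ)) :=
      continuous_finsetSum _ fun j _ => (fourier (j : ℤ)).continuous
    exact h.norm.pow 2⟩

lemma Fj_expand (M : ℕ) (t : AddCircle T) :
    Fj T M t = ∑ p ∈ Finset.range M ×ˢ Finset.range M, (1 / M : ℂ) * fourier ((p.1 : ℤ) - p.2) t := by
  change (((1 / M : ℝ) * ‖∑ j ∈ Finset.range M, (fourier (j : ℤ) t : ℂ)‖ ^ 2 : ℝ) : ℂ) = _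
  push_cast
  have h2 : ((‖∑ j ∈ Finset.range M, (fourier (j : ℤ) t : ℂ)‖ : ℝ) : ℂ) ^ 2
      = (∑ j ∈ Finset.range M, (fourier (j : ℤ) t : ℂ))
        * conj (∑ j ∈ Finset.range M, (fourier (j : ℤ) t : ℂ)) := by
    rw [Complex.mul_conj, Complex.normSq_eq_norm_sq]; push_cast; rfl
  rw [h2, map_sum, Finset.sum_mul_sum, ← Finset.sum_product', Finset.mul_sum]
  refine Finset.sum_congr rfl fun p _ => ?_
  rw [fourier_conj, sub_eq_add_neg (p.1 : ℤ), fourier_add]

lemma int_norm_Fj {M : ℕ} (hM : 1 ≤ M) : ∫ t, ‖Fj T M t‖ ∂haarAddCircle = 1 := by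
  set F : Polynomial ℂ := ∑ j ∈ Finset.range M, Polynomial.X ^ j with hF
  have hFc : ∀ j, F.coeff j = if j < M then 1 else 0 := by
    intro j
    rw [hF, Polynomial.finsetSum_coeff]
    simp_rw [Polynomial.coeff_X_pow]
    rw [Finset.sum_ite_eq]
    simp
  have hdeg : F.natDegree < M := by
    rw [← Nat.le_sub_one_iff_lt (by omega), Polynomial.natDegree_le_iff_coeff_eq_zero]
    intro N hN
    rw [hFc, if_neg (by omega)]
  have h1 := parseval (T := T) F 1 hdeg
  have h2 : ∀ t : AddCircle T, ‖Fj T M t‖ = (1 / M : ℝ) * ‖ev F 1 t‖ ^ 2 := by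
    intro t
    change ‖(((1 / M : ℝ) * ‖∑ j ∈ Finset.range M, (fourier (j : ℤ) t : ℂ)‖ ^ 2 : ℝ) : ℂ)‖ = _
    have e : ev F 1 t = ∑ j ∈ Finset.range M, (fourier (j : ℤ) t : ℂ) := by
      rw [ev_expand F 1 hdeg]
      refine Finset.sum_congr rfl fun j hj => ?_
      rw [hFc, if_pos (Finset.mem_range.1 hj)]
      simp
    rw [Complex.norm_real, Real.norm_of_nonneg (by positivity), e]
  simp_rw [h2]
  rw [integral_const_mul, h1]
  have h3 : ∑ j ∈ Finset.range M, ‖F.coeff j‖ ^ 2 * ((1 : ℝ) ^ j) ^ 2 = M := by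
    have : ∀ j ∈ Finset.range M, ‖F.coeff j‖ ^ 2 * ((1 : ℝ) ^ j) ^ 2 = 1 := by
      intro j hj
      rw [hFc, if_pos (Finset.mem_range.1 hj)]
      simp
    rw [Finset.sum_congr rfl this]
    simp
  rw [h3]
  have : (M : ℝ) ≠ 0 := by
    have : M ≠ 0 := by omega
    exact_mod_cast this
  field_simp

lemma fourierCoeff_Fj (M : ℕ) (m : ℤ) :
    fourierCoeff (Fj T M) m
      = (1 / M : ℂ) * (((Finset.range M ×ˢ Finset.range M).filter
          (fun p : ℕ × ℕ => m = (p.1 : ℤ) - p.2)).card : ℂ) := by
  have e : (Fj T M : AddCircle T → ℂ) = fun t => ∑ p ∈ Finset.range M ×ˢ Finset.range M,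
      (1 / M : ℂ) * fourier ((p.1 : ℤ) - p.2) t := by
    ext t; exact Fj_expand M t
  have hc : ∀ p ∈ Finset.range M ×ˢ Finset.range M, Continuous (fun t : AddCircle T =>
      (1 / M : ℂ) * (fourier ((p.1 : ℤ) - p.2) t : ℂ)) := fun p _ =>
    continuous_const.mul (fourier _).continuous
  rw [e, fourierCoeff_sum' _ hc]
  have h1 : ∀ p ∈ Finset.range M ×ˢ Finset.range M, fourierCoeff (fun t : AddCircle T =>
      (1 / M : ℂ) * (fourier ((p.1 : ℤ) - p.2) t : ℂ)) m
      = if m = (p.1 : ℤ) - p.2 then (1 / M : ℂ) else 0 := by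
    intro p _
    rw [fourierCoeff.const_mul, fourierCoeff_mono]
    split_ifs <;> simp
  rw [Finset.sum_congr rfl h1, ← Finset.sum_filter, Finset.sum_const, nsmul_eq_mul, mul_comm]

lemma card_bounds (M : ℕ) (m : ℤ) :
    M - m.natAbs ≤ ((Finset.range M ×ˢ Finset.range M).filter
          (fun p : ℕ × ℕ => m = (p.1 : ℤ) - p.2)).card ∧
    ((Finset.range M ×ˢ Finset.range M).filter
          (fun p : ℕ × ℕ => m = (p.1 : ℤ) - p.2)).card ≤ M := by
  constructor
  · rcases le_total 0 m with hm | hm
    · have : (Finset.range (M - m.natAbs)).card ≤ _ :=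
        Finset.card_le_card_of_injOn (s := Finset.range (M - m.natAbs))
          (t := (Finset.range M ×ˢ Finset.range M).filter
            (fun p : ℕ × ℕ => m = (p.1 : ℤ) - p.2))
          (fun j => (j + m.natAbs, j)) (by
            intro j hj
            have hj' := Finset.mem_range.1 hj
            simp only [Finset.coe_filter, Finset.mem_product, Finset.mem_range, mem_ofPred_eq]
            refine ⟨⟨by omega, by omega⟩, ?_⟩
            omega) (by
            intro i _ j _ hij
            simpa using congrArg Prod.snd hij)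
      rwa [Finset.card_range] at this
    · have : (Finset.range (M - m.natAbs)).card ≤ _ :=
        Finset.card_le_card_of_injOn (s := Finset.range (M - m.natAbs))
          (t := (Finset.range M ×ˢ Finset.range M).filter
            (fun p : ℕ × ℕ => m = (p.1 : ℤ) - p.2))
          (fun j => (j, j + m.natAbs)) (by
            intro j hj
            have hj' := Finset.mem_range.1 hj
            simp only [Finset.coe_filter, Finset.mem_product, Finset.mem_range, mem_ofPred_eq]
            refine ⟨⟨by omega, by omega⟩, ?_⟩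
            omega) (by
            intro i _ j _ hij
            simpa using congrArg Prod.fst hij)
      rwa [Finset.card_range] at this
  · have : _ ≤ (Finset.range M).card :=
      Finset.card_le_card_of_injOn (s := (Finset.range M ×ˢ Finset.range M).filter
            (fun p : ℕ × ℕ => m = (p.1 : ℤ) - p.2)) (t := Finset.range M)
          (fun p => p.1) (by
            intro p hp
            have hp' := Finset.mem_filter.1 (Finset.mem_coe.1 hp)
            exact Finset.mem_coe.2 (Finset.mem_product.1 hp'.1).1) (by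
            intro p hp q hq hpq
            have hp' := (Finset.mem_filter.1 (Finset.mem_coe.1 hp)).2
            have hq' := (Finset.mem_filter.1 (Finset.mem_coe.1 hq)).2
            simp only at hpq
            ext
            · exact hpq
            · omega)
    rwa [Finset.card_range] at this

lemma tendsto_fourierCoeff_Fj (m : ℤ) :
    Tendsto (fun M : ℕ => fourierCoeff (Fj T M) m) atTop (𝓝 1) := by
  have h1 : Tendsto (fun M : ℕ => ((1 / M : ℝ) * (((Finset.range M ×ˢ Finset.range M).filter
          (fun p : ℕ × ℕ => m = (p.1 : ℤ) - p.2)).card : ℝ))) atTop (𝓝 1) := by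
    have hlow : Tendsto (fun M : ℕ => 1 - (m.natAbs : ℝ) * (1 / (M : ℝ))) atTop (𝓝 1) := by
      have := (tendsto_const_nhds (x := (m.natAbs : ℝ))).mul tendsto_one_div_atTop_nhds_zero_nat
      have h2 := (tendsto_const_nhds (x := (1 : ℝ))).sub this
      simpa using h2
    refine tendsto_of_tendsto_of_tendsto_of_le_of_le' hlow tendsto_const_nhds ?_ ?_
    · filter_upwards [eventually_ge_atTop 1] with M hM
      have hM0 : (0 : ℝ) < M := by exact_mod_cast hM
      have hb := (card_bounds M m).1
      have hb' : (M : ℝ) - m.natAbs ≤ (((Finset.range M ×ˢ Finset.range M).filter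
          (fun p : ℕ × ℕ => m = (p.1 : ℤ) - p.2)).card : ℝ) := by
        have : (M : ℝ) ≤ (((Finset.range M ×ˢ Finset.range M).filter
          (fun p : ℕ × ℕ => m = (p.1 : ℤ) - p.2)).card : ℝ) + m.natAbs := by
          exact_mod_cast (by omega : M ≤ ((Finset.range M ×ˢ Finset.range M).filter
          (fun p : ℕ × ℕ => m = (p.1 : ℤ) - p.2)).card + m.natAbs)
        linarith
      calc 1 - (m.natAbs : ℝ) * (1 / (M : ℝ)) = (1 / M : ℝ) * ((M : ℝ) - m.natAbs) := by
            field_simp
        _ ≤ _ := by gcongr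
    · filter_upwards [eventually_ge_atTop 1] with M hM
      have hM0 : (0 : ℝ) < M := by exact_mod_cast hM
      have hb := (card_bounds M m).2
      rw [one_div, inv_mul_le_iff₀ hM0, mul_one]
      exact_mod_cast hb
  have h2 := (Complex.continuous_ofReal.tendsto 1).comp h1
  rw [Complex.ofReal_one] at h2
  refine h2.congr fun M => ?_
  rw [fourierCoeff_Fj]
  simp

/-- Fejér means of `L¹` functions. -/
lemma tendsto_Fj (f : L1c T) : Tendsto (fun M : ℕ => TL haarAddCircle (Fj T M) f) atTop (𝓝 f) := by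
  have hspan : ∀ g ∈ Submodule.span ℂ (range fun n : ℤ => toL (fourier (T := T) n)),
      Tendsto (fun M : ℕ => TL haarAddCircle (Fj T M) g) atTop (𝓝 g) := by
    intro g hg
    induction hg using Submodule.span_induction with
    | mem x hx =>
      obtain ⟨n, rfl⟩ := hx
      simp only
      simp_rw [TL_fourier]
      have := (tendsto_fourierCoeff_Fj (T := T) n).smul_const (toL (fourier (T := T) n))
      rw [one_smul] at this
      exact this
    | zero => simp
    | add x y _ _ hx hy =>
      simp_rw [map_add]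
      exact hx.add hy
    | smul c x _ hx =>
      simp_rw [map_smul]
      exact hx.const_smul c
  rw [Metric.tendsto_atTop]
  intro ε hε
  obtain ⟨g, hg, hfg⟩ := Metric.dense_iff.1 (toL_fourier_dense (T := T)) f (ε / 3) (by positivity)
  obtain ⟨N, hN⟩ := Metric.tendsto_atTop.1 (hspan g hfg) (ε / 3) (by positivity)
  refine ⟨max N 1, fun M hM => ?_⟩
  have h1 : dist (TL haarAddCircle (Fj T M) g) g < ε / 3 := hN M (le_trans (le_max_left _ _) hM)
  have hM1 : 1 ≤ M := le_trans (le_max_right _ _) hM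
  have hgf : dist g f < ε / 3 := hg
  have h2 : dist (TL haarAddCircle (Fj T M) f) (TL haarAddCircle (Fj T M) g) < ε / 3 := by
    rw [dist_eq_norm, ← map_sub]
    have h3 := (TL (ν := haarAddCircle) (Fj T M)).le_opNorm (f - g)
    have h4 := TL_norm_le (ν := haarAddCircle) (Fj T M)
    rw [int_norm_Fj hM1] at h4
    calc ‖(TL haarAddCircle (Fj T M)) (f - g)‖ ≤ 1 * ‖f - g‖ := h3.trans (by gcongr)
      _ = dist g f := by rw [one_mul, ← dist_eq_norm, dist_comm]
      _ < ε / 3 := hgf
  calc dist (TL haarAddCircle (Fj T M) f) f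
      ≤ dist (TL haarAddCircle (Fj T M) f) (TL haarAddCircle (Fj T M) g)
        + dist (TL haarAddCircle (Fj T M) g) g + dist g f := dist_triangle4 _ _ _ _
    _ < ε / 3 + ε / 3 + ε / 3 := by gcongr
    _ = ε := by ring

lemma toL_evC (F : Polynomial ℂ) {D : ℕ} (hD : F.natDegree < D) :
    toL (evC F 1) = ∑ j ∈ Finset.range D, F.coeff j • toL (fourier (T := T) (j : ℤ)) := by
  have e : evC F 1 = ∑ j ∈ Finset.range D, F.coeff j • fourier (T := T) (j : ℤ) := by
    ext t
    have := ev_expand (T := T) F 1 hD t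
    simp only [ContinuousMap.coe_sum, Finset.sum_apply, ContinuousMap.smul_apply, smul_eq_mul]
    refine this.trans (Finset.sum_congr rfl fun j _ => ?_)
    simp
  rw [e]
  have := map_sum (toLlin (T := T)) (fun j : ℕ => F.coeff j • fourier (T := T) (j : ℤ))
    (Finset.range D)
  simp only [map_smul] at this
  exact this

/-- The polynomials as elements of `H¹`. -/
def polyH (T : ℝ) [hT : Fact (0 < T)] (F : Polynomial ℂ) : H1 T :=
  ⟨toL (evC F 1), fun n hn => by
    rw [fourierCoeff_toL]
    exact fourierCoeff_ev_neg F 1 n hn⟩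

/-- Analytic polynomials are dense in `H¹`. -/
lemma polyH_dense : Dense (range (polyH T)) := by
  rw [Metric.dense_iff]
  intro f ε hε
  obtain ⟨N, hN⟩ := Metric.tendsto_atTop.1 (tendsto_Fj (f : L1c T)) ε hε
  have h1 := hN N le_rfl
  set S := Finset.range N ×ˢ Finset.range N with hS
  have h2 := TL_haar_sum (T := T) S (fun _ => (1 / N : ℂ)) (fun p => (p.1 : ℤ) - p.2) (Fj T N)
    (Fj_expand N) (f : L1c T)
  set F : Polynomial ℂ := ∑ p ∈ S, if p.2 ≤ p.1 then Polynomial.monomial (p.1 - p.2)
    ((1 / N : ℂ) * fourierCoeff ((f : L1c T) : AddCircle T → ℂ) ((p.1 : ℤ) - p.2)) else 0 with hF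
  refine ⟨polyH T F, ?_, ⟨F, rfl⟩⟩
  have h3 : TL haarAddCircle (Fj T N) (f : L1c T) = toL (evC F 1) := by
    rw [h2]
    have e1 : evC (T := T) F 1 = ∑ p ∈ S, if p.2 ≤ p.1 then
        ((1 / N : ℂ) * fourierCoeff ((f : L1c T) : AddCircle T → ℂ) ((p.1 : ℤ) - p.2)) •
          fourier (T := T) ((p.1 : ℤ) - p.2) else 0 := by
      ext t
      rw [ContinuousMap.coe_sum, Finset.sum_apply]
      change F.eval (((1 : ℝ) : ℂ) * fourier 1 t) = _
      rw [hF, Polynomial.eval_finsetSum]
      refine Finset.sum_congr rfl fun p _ => ?_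
      split_ifs with hp
      · rw [Polynomial.eval_monomial, Complex.ofReal_one, one_mul, fourier_pow]
        have : ((p.1 - p.2 : ℕ) : ℤ) = (p.1 : ℤ) - p.2 := by omega
        rw [this]
        simp
      · simp
    rw [e1]
    have e2 := map_sum (toLlin (T := T)) (fun p : ℕ × ℕ => if p.2 ≤ p.1 then
        ((1 / N : ℂ) * fourierCoeff ((f : L1c T) : AddCircle T → ℂ) ((p.1 : ℤ) - p.2)) •
          fourier (T := T) ((p.1 : ℤ) - p.2) else 0) S
    refine Eq.trans ?_ e2.symm
    refine Finset.sum_congr rfl fun p _ => ?_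
    split_ifs with hp
    · rw [map_smul]; rfl
    · have : fourierCoeff ((f : L1c T) : AddCircle T → ℂ) ((p.1 : ℤ) - p.2) = 0 :=
        f.2 _ (by omega)
      rw [this, mul_zero, zero_smul, map_zero]
  rw [Metric.mem_ball, Subtype.dist_eq]
  change dist (toL (evC F 1)) (f : L1c T) < ε
  rw [← h3]
  exact h1

end Pool.Agent.MP_1d9d5b_an
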