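import Mathlib
import Pool.Agent.Lib.MP_1d9d5b_an.Spec

/-!
# The spectrum of Riesz product multipliers on `H¹`
-/

set_option autoImplicit false
set_option linter.unusedSectionVars false
set_option linter.unusedVariables false

open MeasureTheory AddCircle Complex Set Filter Topology
open scoped ComplexConjugate ENNReal

noncomputable section

namespace Pool.Agent.MP_1d9d5b_an

variable {T : ℝ} [hT : Fact (0 < T)]

/-- Fourier coefficients of a measure. -/
def mc (μ : Measure (AddCircle T)) (m : ℤ) : ℂ := ∫ t, fourier (-m) t ∂μ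

/-- The monomials in `H¹`. -/
def eH (T : ℝ) [hT : Fact (0 < T)] (j : ℕ) : H1 T :=
  ⟨toL (fourier (j : ℤ)), fun n hn => by
    rw [fourierCoeff_toL]
    have := fourierCoeff_mono (T := T) (j : ℤ) n
    rw [if_neg (by omega)] at this
    exact this⟩

/-- Fourier coefficient functionals on `H¹`. -/
def fcH (n : ℤ) : H1 T →L[ℂ] ℂ := (fcL n).comp (H1 T).subtypeL

/-- The coordinate projections. -/
def Ej (T : ℝ) [hT : Fact (0 < T)] (j : ℕ) : H1 T →L[ℂ] H1 T := (fcH (j : ℤ)).smulRight (eH T j)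

lemma Ej_apply (j : ℕ) (f : H1 T) : Ej T j f = fcH (j : ℤ) f • eH T j := rfl

lemma fcH_eH (i j : ℕ) : fcH (i : ℤ) (eH T j) = if i = j then 1 else 0 := by
  change fourierCoeff (toL (fourier (j : ℤ)) : AddCircle T → ℂ) (i : ℤ) = _
  rw [fourierCoeff_toL]
  have := fourierCoeff_mono (T := T) (j : ℤ) (i : ℤ)
  rw [show (fourier (j : ℤ) : AddCircle T → ℂ) = fun t => fourier (j : ℤ) t from rfl, this]
  by_cases h : i = j
  · rw [if_pos h, if_pos (by exact_mod_cast h)]
  · rw [if_neg h, if_neg (by exact_mod_cast h)]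

lemma eH_ne_zero (j : ℕ) : eH T j ≠ 0 := by
  intro h
  have h1 := fcH_eH (T := T) j j
  rw [h, map_zero, if_pos rfl] at h1
  exact zero_ne_one h1

/-- The convolution operator by `μ` on `H¹`. -/
def TM (μ : Measure (AddCircle T)) [IsFiniteMeasure μ] : H1 T →L[ℂ] H1 T := TH μ 1

variable {μ : Measure (AddCircle T)} [IsFiniteMeasure μ]

lemma TM_ae (f : H1 T) : ∀ᵐ x ∂(haarAddCircle (T := T)),
    ((TM μ f : H1 T) : L1c T) x = ∫ t, ((f : L1c T) : AddCircle T → ℂ) (x - t) ∂μ := by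
  have h := TL_coe (ν := μ) 1 (f : L1c T)
  filter_upwards [h] with x hx
  change (TL μ 1 (f : L1c T) : AddCircle T → ℂ) x = _
  rw [hx]
  unfold conv
  simp

lemma fcH_TM (f : H1 T) (n : ℤ) : fcH n (TM μ f) = mc μ n * fcH n f := by
  change fourierCoeff (TL μ 1 (f : L1c T) : AddCircle T → ℂ) n = _
  rw [fourierCoeff_TL]
  unfold mc
  simp only [ContinuousMap.one_apply, mul_one]
  rfl

lemma TM_eH (j : ℕ) : TM μ (eH T j) = mc μ j • eH T j := by
  apply Subtype.ext
  change TL μ 1 (toL (fourier (j : ℤ))) = mc μ j • toL (fourier (T := T) (j : ℤ))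
  rw [TL_fourier]
  unfold mc
  simp only [ContinuousMap.one_apply, mul_one]

lemma polyH_eq (F : Polynomial ℂ) {D : ℕ} (hD : F.natDegree < D) :
    polyH T F = ∑ j ∈ Finset.range D, F.coeff j • eH T j := by
  apply Subtype.ext
  have h := toL_evC (T := T) F hD
  rw [AddSubmonoidClass.coe_finsetSum]
  exact h

section riesz

variable {n : ℕ → ℕ} {a : ℕ → ℂ}

/-- `μ` is the weak-* limit of the partial products. -/
def IsLim (n : ℕ → ℕ) (a : ℕ → ℂ) (μ : Measure (AddCircle T)) : Prop :=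
  ∀ f : C(AddCircle T, ℂ), Tendsto (fun N : ℕ => ∫ t, f t * (pp n a N t : ℂ) ∂(haarAddCircle (T := T)))
    atTop (𝓝 (∫ t, f t ∂μ))

lemma mc_eq (hn0 : ∀ k, 1 ≤ n k) (hn : ∀ k, 3 * n k ≤ n (k + 1)) (hμ : IsLim n a μ) (K : ℕ) (m : ℤ)
    (hm : |m| + NN n K < n K) : mc μ m = cc T n a K m := by
  have h := hμ (fourier (-m))
  have h2 : (fun N : ℕ => ∫ t, fourier (-m) t * (pp n a N t : ℂ) ∂(haarAddCircle (T := T)))
      = fun N => cc T n a N m := by
    ext N; rfl
  rw [h2] at h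
  have h3 : Tendsto (fun N => cc T n a N m) atTop (𝓝 (cc T n a K m)) := by
    apply tendsto_const_nhds.congr'
    filter_upwards [eventually_ge_atTop K] with N hN
    obtain ⟨d, rfl⟩ := Nat.exists_eq_add_of_le hN
    exact (cc_stable hn0 hn K d m hm).symm
  exact tendsto_nhds_unique h h3

lemma n_ge (hn0 : ∀ k, 1 ≤ n k) (hn : ∀ k, 3 * n k ≤ n (k + 1)) (k : ℕ) : k < n k := by
  induction k with
  | zero => exact hn0 0
  | succ k ih => have := hn k; omega

lemma n_strictMono (hn0 : ∀ k, 1 ≤ n k) (hn : ∀ k, 3 * n k ≤ n (k + 1)) : StrictMono n := by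
  apply strictMono_nat_of_lt_succ
  intro k
  have := hn k
  have := hn0 k
  omega

lemma mc_nK (hn0 : ∀ k, 1 ≤ n k) (hn : ∀ k, 3 * n k ≤ n (k + 1)) (hμ : IsLim n a μ) (K : ℕ) :
    mc μ (n K) = a K / 2 := by
  have hN := NN_lt hn0 hn K
  have hnK := hn0 K
  have hnK1 := hn K
  rw [mc_eq hn0 hn hμ (K + 1) (n K) (by rw [NN_succ, Nat.abs_cast]; push_cast; omega), cc_succ,
    sub_self, cc_zero hn0 hn, cc_supp K (n K : ℤ) (by rw [Nat.abs_cast]; omega),
    cc_supp K ((n K : ℤ) + n K) (by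
      rw [abs_of_nonneg (by positivity)]; omega)]
  ring

lemma a_tendsto (hn0 : ∀ k, 1 ≤ n k) (hn : ∀ k, 3 * n k ≤ n (k + 1)) (hμ : IsLim n a μ)
    (hM0 : Tendsto (mc μ) cofinite (𝓝 0)) : Tendsto a atTop (𝓝 0) := by
  have h1 : Tendsto (fun K : ℕ => (n K : ℤ)) cofinite cofinite := by
    apply Function.Injective.tendsto_cofinite
    intro i j hij
    simp only [Nat.cast_inj] at hij
    exact (n_strictMono hn0 hn).injective hij
  rw [Nat.cofinite_eq_atTop] at h1
  have h2 := hM0.comp h1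
  have h3 : (fun K => a K) = fun K => 2 * (mc μ ∘ fun K : ℕ => (n K : ℤ)) K := by
    ext K
    simp only [Function.comp_apply]
    rw [mc_nK hn0 hn hμ]
    ring
  have h4 := h2.const_mul 2
  rw [mul_zero] at h4
  change Tendsto (fun K => a K) atTop (𝓝 0)
  rw [h3]
  exact h4

/-- The finite rank approximations. -/
def PM (T : ℝ) [hT : Fact (0 < T)] (n : ℕ → ℕ) (a : ℕ → ℂ) (M : ℕ) : H1 T →L[ℂ] H1 T :=
  ∑ j ∈ Finset.range (NN n M + 1), cc T n a M j • Ej T j

lemma PM_polyH (hn0 : ∀ k, 1 ≤ n k) (hn : ∀ k, 3 * n k ≤ n (k + 1)) (M : ℕ) (F : Polynomial ℂ)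
    {D : ℕ} (hD : F.natDegree < D) (hDN : NN n M + 1 ≤ D) :
    PM T n a M (polyH T F) = ∑ j ∈ Finset.range D, (cc T n a M j * F.coeff j) • eH T j := by
  have h1 : ∀ j : ℕ, fcH (j : ℤ) (polyH T F) = F.coeff j := by
    intro j
    change fourierCoeff (toL (evC F 1) : AddCircle T → ℂ) (j : ℤ) = _
    rw [fourierCoeff_toL]
    have := fourierCoeff_ev (T := T) F 1 j
    rw [Complex.ofReal_one, one_pow, mul_one] at this
    exact this
  unfold PM
  rw [ContinuousLinearMap.sum_apply]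
  have h2 : ∀ j ∈ Finset.range (NN n M + 1), (cc T n a M j • Ej T j) (polyH T F)
      = (cc T n a M j * F.coeff j) • eH T j := by
    intro j _
    rw [ContinuousLinearMap.smul_apply, Ej_apply, h1, smul_smul]
  rw [Finset.sum_congr rfl h2]
  apply Finset.sum_subset
  · intro j hj
    rw [Finset.mem_range] at hj ⊢
    omega
  · intro j _ hj
    rw [Finset.mem_range, not_lt] at hj
    rw [cc_supp M (j : ℤ) (by rw [Nat.abs_cast]; omega), zero_mul, zero_smul]

/-- **Key approximation**: `‖(T_μ - P_M) f‖ ≤ 2 C1 α ‖f‖` on polynomials. -/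
lemma approx_poly (hn0 : ∀ k, 1 ≤ n k) (hn : ∀ k, 3 * n k ≤ n (k + 1)) (ha : ∀ k, ‖a k‖ ≤ 1)
    (hμ : IsLim n a μ) (M : ℕ) {α : ℝ} (hα : ∀ k, M ≤ k → ‖a k‖ ≤ α) (F : Polynomial ℂ) :
    ‖(TM μ - PM T n a M) (polyH T F)‖ ≤ 2 * C1 * α * ‖polyH T F‖ := by
  set D := max (F.natDegree + 1) (NN n M + 1) with hD
  have hD1 : F.natDegree < D := by omega
  have hD2 : NN n M + 1 ≤ D := le_max_right _ _
  set d := 2 * D with hd
  -- stability of the coefficients up to `D`
  have hst : ∀ j < D, mc μ (j : ℤ) = cc T n a (M + d) j := by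
    intro j hj
    apply mc_eq hn0 hn hμ
    have h1 := NN_lt hn0 hn (M + d)
    have h2 := n_ge hn0 hn (M + d)
    rw [Nat.abs_cast]
    omega
  have e : ((TM μ - PM T n a M) (polyH T F) : H1 T) =
      ⟨toL (Kop (kd T n a M d) (evC F 1)), by
        intro m hm
        rw [fourierCoeff_toL]
        change fourierCoeff (cvc (kd T n a M d) (ev F 1)) m = 0
        rw [fourierCoeff_cvc (kd T n a M d).continuous (ev_cont F 1), fourierCoeff_ev_neg F 1 m hm,
          mul_zero]⟩ := by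
    rw [ContinuousLinearMap.sub_apply, PM_polyH hn0 hn M F hD1 hD2]
    have e1 : TM μ (polyH T F) = ∑ j ∈ Finset.range D, (cc T n a (M + d) j * F.coeff j) • eH T j := by
      rw [polyH_eq F hD1, map_sum]
      refine Finset.sum_congr rfl fun j hj => ?_
      rw [map_smul, TM_eH, smul_smul, hst j (Finset.mem_range.1 hj), mul_comm]
    rw [e1, ← Finset.sum_sub_distrib]
    apply Subtype.ext
    rw [AddSubmonoidClass.coe_finsetSum]
    change _ = toL (Kop (kd T n a M d) (evC F 1))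
    have e2 : Kop (kd T n a M d) (evC F 1) = ∑ j ∈ Finset.range D,
        ((cc T n a (M + d) j - cc T n a M j) * F.coeff j) • fourier (T := T) (j : ℤ) := by
      ext t
      change cvc (kd T n a M d) (ev F 1) t = _
      rw [cvc_ev _ (kd T n a M d).continuous F 1 hD1]
      simp only [ContinuousMap.coe_sum, Finset.sum_apply, ContinuousMap.smul_apply, smul_eq_mul]
      refine Finset.sum_congr rfl fun j _ => ?_
      have : fourierCoeff (kd T n a M d) (j : ℤ) = cc T n a (M + d) j - cc T n a M j := by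
        have := fourierCoeff_sub' (T := T) (pp_cont' (n := n) (a := a) (M + d))
          (pp_cont' (n := n) (a := a) M) (j : ℤ)
        exact this
      rw [this]
      simp
      ring
    rw [e2]
    have e3 := map_sum (toLlin (T := T)) (fun j : ℕ =>
      ((cc T n a (M + d) j - cc T n a M j) * F.coeff j) • fourier (T := T) (j : ℤ)) (Finset.range D)
    refine Eq.trans ?_ e3.symm
    refine Finset.sum_congr rfl fun j _ => ?_
    rw [map_smul, ← sub_smul, ← sub_mul]
    rfl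
  rw [e]
  change ‖toL (Kop (kd T n a M d) (evC F 1))‖ ≤ 2 * C1 * α * ‖toL (evC (T := T) F 1)‖
  rw [norm_toL, norm_toL]
  exact main_L1 hn0 hn ha F M d hα

lemma approx (hn0 : ∀ k, 1 ≤ n k) (hn : ∀ k, 3 * n k ≤ n (k + 1)) (ha : ∀ k, ‖a k‖ ≤ 1)
    (hμ : IsLim n a μ) (M : ℕ) {α : ℝ} (hα : ∀ k, M ≤ k → ‖a k‖ ≤ α) :
    ‖TM μ - PM T n a M‖ ≤ 2 * C1 * α := by
  have hα0 : 0 ≤ α := (norm_nonneg _).trans (hα M le_rfl)
  have hC := C1_pos
  apply ContinuousLinearMap.opNorm_le_bound _ (by positivity)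
  intro f
  set S : Set (H1 T) := {f | ‖(TM μ - PM T n a M) f‖ ≤ 2 * C1 * α * ‖f‖} with hS
  have hScl : IsClosed S := isClosed_le (ContinuousLinearMap.continuous _).norm
    (continuous_const.mul continuous_norm)
  have hsub : range (polyH T) ⊆ S := by
    rintro _ ⟨F, rfl⟩
    exact approx_poly hn0 hn ha hμ M hα F
  have := closure_minimal hsub hScl
  rw [(polyH_dense (T := T)).closure_eq] at this
  exact this (mem_univ f)

lemma sum_mul_aux {A : Type*} [Ring A] [Algebra ℂ A] (s : Finset ℕ) (E : ℕ → A) (c : ℕ → ℂ)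
    (hEE : ∀ i j : ℕ, E i * E j = if i = j then E j else 0) {j : ℕ} (hj : j ∈ s) :
    (∑ i ∈ s, c i • E i) * E j = c j • E j ∧ E j * (∑ i ∈ s, c i • E i) = c j • E j := by
  constructor
  · rw [Finset.sum_mul, Finset.sum_eq_single j]
    · rw [smul_mul_assoc, hEE, if_pos rfl]
    · intro i _ hij
      rw [smul_mul_assoc, hEE, if_neg hij, smul_zero]
    · intro h; exact absurd hj h
  · rw [Finset.mul_sum, Finset.sum_eq_single j]
    · rw [mul_smul_comm, hEE, if_pos rfl]
    · intro i _ hij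
      rw [mul_smul_comm, hEE, if_neg (Ne.symm hij), smul_zero]
    · intro h; exact absurd hj h

/-- The algebraic spectral computation. -/
lemma isUnit_aux {A : Type*} [Ring A] [Algebra ℂ A] (Tm R : A) (s : Finset ℕ) (E : ℕ → A)
    (c : ℕ → ℂ) (lam : ℂ) (hlam : lam ≠ 0) (hc : ∀ j, lam ≠ c j)
    (hT : Tm = R + ∑ j ∈ s, c j • E j)
    (hTE : ∀ j ∈ s, Tm * E j = c j • E j) (hET : ∀ j ∈ s, E j * Tm = c j • E j)
    (hRE : ∀ j ∈ s, R * E j = 0) (hER : ∀ j ∈ s, E j * R = 0)
    (hU : IsUnit (algebraMap ℂ A lam - R)) : IsUnit (algebraMap ℂ A lam - Tm) := by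
  obtain ⟨U, hU⟩ := hU
  set V : A := ((U⁻¹ : Aˣ) : A) with hV
  have hUV : (algebraMap ℂ A lam - R) * V = 1 := by rw [← hU]; exact U.mul_inv
  have hVU : V * (algebraMap ℂ A lam - R) = 1 := by rw [← hU]; exact U.inv_mul
  have hVE : ∀ j ∈ s, V * E j = lam⁻¹ • E j := by
    intro j hj
    have h1 : (algebraMap ℂ A lam - R) * E j = lam • E j := by
      rw [sub_mul, hRE j hj, sub_zero, Algebra.smul_def]
    calc V * E j = V * (lam⁻¹ • (lam • E j)) := by
          rw [smul_smul, inv_mul_cancel₀ hlam, one_smul]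
      _ = lam⁻¹ • (V * ((algebraMap ℂ A lam - R) * E j)) := by rw [h1, mul_smul_comm]
      _ = lam⁻¹ • E j := by rw [← mul_assoc, hVU, one_mul]
  have hEV : ∀ j ∈ s, E j * V = lam⁻¹ • E j := by
    intro j hj
    have h1 : E j * (algebraMap ℂ A lam - R) = lam • E j := by
      rw [mul_sub, hER j hj, sub_zero, ← Algebra.commutes, Algebra.smul_def]
    calc E j * V = (lam⁻¹ • (lam • E j)) * V := by
          rw [smul_smul, inv_mul_cancel₀ hlam, one_smul]
      _ = lam⁻¹ • ((E j * (algebraMap ℂ A lam - R)) * V) := by rw [h1, smul_mul_assoc]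
      _ = lam⁻¹ • E j := by rw [mul_assoc, hUV, mul_one]
  set X : A := V + ∑ j ∈ s, ((lam - c j)⁻¹ - lam⁻¹) • E j with hX
  have hsc : ∀ j, ((lam - c j)⁻¹ - lam⁻¹) * (lam - c j) = c j * lam⁻¹ := by
    intro j
    have : lam - c j ≠ 0 := sub_ne_zero.2 (hc j)
    field_simp
    ring
  have hdec : algebraMap ℂ A lam - Tm = (algebraMap ℂ A lam - R) - ∑ j ∈ s, c j • E j := by
    rw [hT]; abel
  have hR : (algebraMap ℂ A lam - Tm) * X = 1 := by
    rw [hX, mul_add]
    have h1 : (algebraMap ℂ A lam - Tm) * V = 1 - ∑ j ∈ s, (c j * lam⁻¹) • E j := by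
      rw [hdec, sub_mul, hUV, Finset.sum_mul]
      congr 1
      refine Finset.sum_congr rfl fun j hj => ?_
      rw [smul_mul_assoc, hEV j hj, smul_smul]
    have h2 : (algebraMap ℂ A lam - Tm) * ∑ j ∈ s, ((lam - c j)⁻¹ - lam⁻¹) • E j
        = ∑ j ∈ s, (c j * lam⁻¹) • E j := by
      rw [Finset.mul_sum]
      refine Finset.sum_congr rfl fun j hj => ?_
      rw [mul_smul_comm, sub_mul, hTE j hj, ← Algebra.smul_def, ← sub_smul, smul_smul, hsc]
    rw [h1, h2, sub_add_cancel]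
  have hL : X * (algebraMap ℂ A lam - Tm) = 1 := by
    rw [hX, add_mul]
    have h1 : V * (algebraMap ℂ A lam - Tm) = 1 - ∑ j ∈ s, (c j * lam⁻¹) • E j := by
      rw [hdec, mul_sub, hVU, Finset.mul_sum]
      congr 1
      refine Finset.sum_congr rfl fun j hj => ?_
      rw [mul_smul_comm, hVE j hj, smul_smul]
    have h2 : (∑ j ∈ s, ((lam - c j)⁻¹ - lam⁻¹) • E j) * (algebraMap ℂ A lam - Tm)
        = ∑ j ∈ s, (c j * lam⁻¹) • E j := by
      rw [Finset.sum_mul]
      refine Finset.sum_congr rfl fun j hj => ?_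
      rw [smul_mul_assoc, mul_sub, hET j hj, ← Algebra.commutes, ← Algebra.smul_def, ← sub_smul,
        smul_smul, hsc]
    rw [h1, h2, sub_add_cancel]
  exact ⟨⟨_, X, hR, hL⟩, rfl⟩

/-- Abstract spectral computation. -/
theorem spectrum_abstract {X : Type*} [NormedAddCommGroup X] [NormedSpace ℂ X] [CompleteSpace X]
    (A : X →L[ℂ] X) (e : ℕ → X) (φ : ℕ → X →L[ℂ] ℂ) (c : ℕ → ℂ)
    (hφe : ∀ i j, φ i (e j) = if i = j then 1 else 0) (hAe : ∀ j, A (e j) = c j • e j)
    (hφA : ∀ j f, φ j (A f) = c j * φ j f) (hc : Tendsto c atTop (𝓝 0))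
    (happ : ∀ ε : ℝ, 0 < ε → ∃ M : ℕ, ‖A - ∑ j ∈ Finset.range M, c j • (φ j).smulRight (e j)‖ < ε) :
    spectrum ℂ A = closure (range c) := by
  have he0 : ∀ j, e j ≠ 0 := by
    intro j h
    have h1 := hφe j j
    rw [h, map_zero, if_pos rfl] at h1
    exact zero_ne_one h1
  apply Subset.antisymm
  · intro lam hlam
    by_contra hcl
    apply hlam
    have hlam0 : lam ≠ 0 := by
      rintro rfl
      exact hcl (mem_closure_of_tendsto hc (Eventually.of_forall fun m => mem_range_self m))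
    have hne : ∀ j : ℕ, lam ≠ c j := by
      rintro j rfl
      exact hcl (subset_closure (mem_range_self j))
    obtain ⟨M, hM⟩ := happ ‖lam‖ (norm_pos_iff.2 hlam0)
    set E : ℕ → X →L[ℂ] X := fun j => (φ j).smulRight (e j) with hE
    set R : X →L[ℂ] X := A - ∑ j ∈ Finset.range M, c j • E j with hR
    have hnt : Nontrivial X := ⟨⟨e 0, 0, he0 0⟩⟩
    have hTE : ∀ j : ℕ, A * E j = c j • E j := by
      intro j
      ext1 f
      change A (φ j f • e j) = c j • (φ j f • e j)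
      rw [map_smul, hAe, smul_comm]
    have hET : ∀ j : ℕ, E j * A = c j • E j := by
      intro j
      ext1 f
      change φ j (A f) • e j = c j • (φ j f • e j)
      rw [hφA, mul_smul]
    have hEE : ∀ i j : ℕ, E i * E j = if i = j then E j else 0 := by
      intro i j
      ext1 f
      change φ i (φ j f • e j) • e i = _
      rw [map_smul, hφe]
      split_ifs with h
      · subst h
        simp only [smul_eq_mul, mul_one]
        rfl
      · simp
    have hsum := fun j hj => sum_mul_aux (Finset.range M) E c hEE (j := j) hj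
    refine isUnit_aux A R (Finset.range M) E c lam hlam0 hne ?_ (fun j _ => hTE j)
      (fun j _ => hET j) ?_ ?_ ?_
    · rw [hR]; abel
    · intro j hj; rw [hR, sub_mul, hTE, (hsum j hj).1, sub_self]
    · intro j hj; rw [hR, mul_sub, hET, (hsum j hj).2, sub_self]
    · exact spectrum.mem_resolventSet_of_norm_lt hM
  · apply closure_minimal _ (spectrum.isClosed A)
    rintro _ ⟨j, rfl⟩
    intro hu
    obtain ⟨U, hU⟩ := hu
    have h1 : ((U⁻¹ : (X →L[ℂ] X)ˣ) : X →L[ℂ] X) * (U : X →L[ℂ] X) = 1 := U.inv_mul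
    apply he0 j
    have h3 : (U : X →L[ℂ] X) (e j) = 0 := by
      rw [hU]
      change c j • e j - A (e j) = 0
      rw [hAe, sub_self]
    have h4 : ((U⁻¹ : (X →L[ℂ] X)ˣ) : X →L[ℂ] X) ((U : X →L[ℂ] X) (e j)) = e j :=
      DFunLike.congr_fun h1 (e j)
    rw [h3, map_zero] at h4
    exact h4.symm

/-- **The spectrum is natural.** -/
theorem spectrum_TM (hn0 : ∀ k, 1 ≤ n k) (hn : ∀ k, 3 * n k ≤ n (k + 1)) (ha : ∀ k, ‖a k‖ ≤ 1)
    (hμ : IsLim n a μ) (hM0 : Tendsto (mc μ) cofinite (𝓝 0)) :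
    spectrum ℂ (TM μ) = closure (range fun m : ℕ => mc μ m) := by
  have hC := C1_pos
  have hat := a_tendsto hn0 hn hμ hM0
  have hc0 : Tendsto (fun m : ℕ => mc μ (m : ℤ)) atTop (𝓝 0) := by
    have h2 : Tendsto (fun m : ℕ => (m : ℤ)) cofinite cofinite :=
      Function.Injective.tendsto_cofinite Nat.cast_injective
    rw [Nat.cofinite_eq_atTop] at h2
    exact hM0.comp h2
  refine spectrum_abstract (TM μ) (eH T) (fun j => fcH (j : ℤ)) (fun m : ℕ => mc μ (m : ℤ))
    fcH_eH TM_eH (fun j f => fcH_TM f j) hc0 ?_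
  intro ε hε
  set α : ℝ := ε / (4 * C1) with hα_def
  have hα0 : 0 < α := by positivity
  obtain ⟨M, hM⟩ := Metric.tendsto_atTop.1 hat α hα0
  have hα : ∀ k, M ≤ k → ‖a k‖ ≤ α := fun k hk => by
    have := hM k hk
    rw [dist_zero_right] at this
    exact this.le
  refine ⟨NN n M + 1, ?_⟩
  have hcoef : ∀ j ∈ Finset.range (NN n M + 1), cc T n a M (j : ℤ) = mc μ (j : ℤ) := by
    intro j hj
    have hj' := Finset.mem_range.1 hj
    have := NN_lt hn0 hn M
    exact (mc_eq hn0 hn hμ M j (by rw [Nat.abs_cast]; omega)).symm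
  have e : ∑ j ∈ Finset.range (NN n M + 1), mc μ (j : ℤ) • (fcH (T := T) (j : ℤ)).smulRight (eH T j)
      = PM T n a M := by
    unfold PM
    exact Finset.sum_congr rfl fun j hj => by rw [hcoef j hj]; rfl
  rw [e]
  refine (approx hn0 hn ha hμ M hα).trans_lt ?_
  rw [hα_def]
  have : 2 * C1 * (ε / (4 * C1)) = ε / 2 := by field_simp; ring
  rw [this]
  linarith

end riesz

end Pool.Agent.MP_1d9d5b_an
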