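import Mathlib
import Pool.Agent.Lib.MP_1d9d5b_an.Final

/-!
# Transport to an arbitrary Banach space model of `H¹`
-/

set_option autoImplicit false
set_option linter.unusedSectionVars false
set_option linter.unusedVariables false

open MeasureTheory AddCircle Complex Set Filter Topology
open scoped ComplexConjugate ENNReal

noncomputable section

namespace Pool.Agent.MP_1d9d5b_an

variable {T : ℝ} [hT : Fact (0 < T)]

/-- `X` is a model of `H¹`. -/
def IsModel {X : Type} [NormedAddCommGroup X] [NormedSpace ℂ X] (J : X →ₗᵢ[ℂ] L1c T) : Prop :=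
  range J = {f : L1c T | ∀ n : ℤ, n < 0 → fourierCoeff (f : AddCircle T → ℂ) n = 0}

section
variable {X : Type} [NormedAddCommGroup X] [NormedSpace ℂ X] (J : X →ₗᵢ[ℂ] L1c T)

lemma mem_H1_of (hJ : IsModel J) (x : X) : J x ∈ H1 T := by
  have : J x ∈ range J := mem_range_self x
  rw [hJ] at this
  exact this

/-- `J` with values in `H1`. -/
def J1 (hJ : IsModel J) : X →ₗᵢ[ℂ] H1 T where
  toLinearMap := J.toLinearMap.codRestrict (H1 T) (mem_H1_of J hJ)
  norm_map' := fun x => J.norm_map x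

lemma J1_surj (hJ : IsModel J) : Function.Surjective (J1 J hJ) := by
  intro f
  have h : (f : L1c T) ∈ range J := by rw [hJ]; exact f.2
  obtain ⟨x, hx⟩ := h
  exact ⟨x, Subtype.ext hx⟩

/-- The isometry with `H1`. -/
def JE (hJ : IsModel J) : X ≃ₗᵢ[ℂ] H1 T := LinearIsometryEquiv.ofSurjective (J1 J hJ) (J1_surj J hJ)

lemma JE_coe (hJ : IsModel J) (x : X) : ((JE J hJ x : H1 T) : L1c T) = J x := rfl

variable (μ : Measure (AddCircle T)) [IsFiniteMeasure μ]

/-- `A` is the convolution operator by `μ`. -/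
def IsMul (J : X →ₗᵢ[ℂ] L1c T) (A : X →L[ℂ] X) : Prop :=
  ∀ f : X, ∀ᵐ x ∂(haarAddCircle (T := T)), (J (A f)) x = ∫ t, (J f) (x - t) ∂μ

/-- The convolution operator on `X`. -/
def AX (hJ : IsModel J) : X →L[ℂ] X :=
  (JE J hJ).toContinuousLinearEquiv.symm.conjContinuousAlgEquiv (TM μ)

lemma J_AX (hJ : IsModel J) (f : X) : J (AX J μ hJ f) = ((TM μ (JE J hJ f) : H1 T) : L1c T) := by
  have : AX J μ hJ f = (JE J hJ).symm (TM μ (JE J hJ f)) := rfl
  rw [this, ← JE_coe J hJ, LinearIsometryEquiv.apply_symm_apply]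

lemma AX_isMul (hJ : IsModel J) : IsMul μ J (AX J μ hJ) := by
  intro f
  have h := TM_ae (μ := μ) (JE J hJ f)
  rw [J_AX]
  exact h

lemma eq_AX (hJ : IsModel J) (A : X →L[ℂ] X) (hA : IsMul μ J A) : A = AX J μ hJ := by
  ext1 f
  apply J.injective
  apply Lp.ext
  have h1 := hA f
  have h2 := AX_isMul J μ hJ f
  filter_upwards [h1, h2] with x hx1 hx2
  rw [hx1, hx2]

lemma spectrum_AX (hJ : IsModel J) : spectrum ℂ (AX J μ hJ) = spectrum ℂ (TM (T := T) μ) :=
  AlgEquiv.spectrum_eq ((JE J hJ).toContinuousLinearEquiv.symm.conjContinuousAlgEquiv.toAlgEquiv)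
    (TM μ)

end

/-- The final theorem, for a general model. -/
theorem model_spectrum {μ : Measure (AddCircle T)} [IsFiniteMeasure μ] {n : ℕ → ℕ} {a : ℕ → ℂ}
    (hn0 : ∀ k, 1 ≤ n k) (hn : ∀ k, 3 * n k ≤ n (k + 1)) (ha : ∀ k, ‖a k‖ ≤ 1)
    (hμ : IsLim n a μ) (hM0 : Tendsto (mc μ) cofinite (𝓝 0))
    {X : Type} [NormedAddCommGroup X] [NormedSpace ℂ X] (J : X →ₗᵢ[ℂ] L1c T) (hJ : IsModel J) :
    (∃ A : X →L[ℂ] X, IsMul μ J A) ∧
      ∀ A : X →L[ℂ] X, IsMul μ J A → spectrum ℂ A = closure (range fun m : ℕ => mc μ m) := by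
  refine ⟨⟨AX J μ hJ, AX_isMul J μ hJ⟩, fun A hA => ?_⟩
  rw [eq_AX J μ hJ A hA, spectrum_AX, spectrum_TM hn0 hn ha hμ hM0]

end Pool.Agent.MP_1d9d5b_an
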